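import Pool.Agent.GaoG.Lead

/-!
# The Key Lemma

`Good Z`: along reduced words the characters of the Demazure closures of `Z` are given by Demazure
operators. The Key Lemma: `Z` good implies `e_ω ⊗ Z` good, with the filtration.
-/

set_option autoImplicit false
set_option linter.unusedSectionVars false
set_option linter.unusedSimpArgs false

namespace Pool.Agent.GaoG

open MvPolynomial Finsupp

variable {L : Type*} [LinearOrder L] {𝕜 : Type*} [Field 𝕜] [CharZero 𝕜] {V : Type*} [AddCommGroup V] [Module 𝕜 V]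

namespace GMod

variable (G : GMod L 𝕜 V)

/-- goodness -/
def Good (Z : Submodule 𝕜 V) : Prop :=
  ∀ (n : ℕ) (a : L → L) (Y : Submodule 𝕜 V), G.Red Z n a Y → ∀ i j : L, i ⋖ j → a i < a j →
    G.ch (G.D i j Y) = dem i j (G.ch Y)

variable {G}

lemma Red.good {Z : Submodule 𝕜 V} (h : G.Good Z) {n : ℕ} {a : L → L} {Y : Submodule 𝕜 V}
    (hR : G.Red Z n a Y) {i j : L} (hij : i ⋖ j) (ha : a i < a j) :
    G.ch (G.D i j Y) = dem i j (G.ch Y) := h n a Y hR i j hij ha

variable (G)

lemma ch_bot : G.ch ⊥ = 0 := by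
  unfold ch
  apply Finset.sum_eq_zero
  intro μ _
  rw [bot_inf_eq, finrank_bot]
  simp

lemma D_bot (i j : L) : G.D i j ⊥ = ⊥ := by
  apply G.D_eq_self
  intro v hv
  rw [Submodule.mem_bot] at hv ⊢
  rw [hv, map_zero]

/-- `e_ω ⊗ Z` -/
def cz (ω : Finset L) (Z : Submodule 𝕜 V) : Submodule 𝕜 (Finset L → V) where
  carrier := {m | m ω ∈ Z ∧ ∀ u, u ≠ ω → m u = 0}
  add_mem' := by
    rintro m m' ⟨h1, h2⟩ ⟨h3, h4⟩
    exact ⟨Z.add_mem h1 h3, fun u hu => by rw [Pi.add_apply, h2 u hu, h4 u hu, add_zero]⟩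
  zero_mem' := ⟨Z.zero_mem, fun _ _ => rfl⟩
  smul_mem' := by
    rintro c m ⟨h1, h2⟩
    exact ⟨Z.smul_mem c h1, fun u hu => by rw [Pi.smul_apply, h2 u hu, smul_zero]⟩

/-- the data of the filtration -/
structure Fil (Z : Submodule 𝕜 V) (ω : Finset L) (n : ℕ) (a : L → L) (Y : Submodule 𝕜 (Finset L → V))
    (S : Finset (Finset L)) : Prop where
  red : ∀ t ∈ S, ∃ n' b, G.Red Z n' b (led Y t) ∧ ∀ x, x ∈ t ↔ b x ∈ ω
  zero : ∀ t, t ∉ S → led Y t = ⊥
  ideal : ∀ t ∈ S, ∀ i j, i ⋖ j → j ∈ t → i ∉ t → st i j t ∈ S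
  top : ∃ t0 ∈ S, (∀ x, x ∈ t0 ↔ a x ∈ ω) ∧ G.Red Z n a (led Y t0) ∧
    ∀ t ∈ S, toColex t ≤ toColex t0

variable [Fintype L]

lemma cz_bst {Z : Submodule 𝕜 V} (hZ : G.BSt Z) {ω : Finset L} (hω : ∀ x ∈ ω, ∀ y, y < x → y ∈ ω) :
    G.ext.BSt (cz ω Z) where
  up i j hij m hm := by
    have hne := hij.ne
    refine ⟨?_, fun u hu => ?_⟩
    · rw [G.ext_E_apply hne]
      refine Submodule.add_mem _ ?_ (hZ.up i j hij _ hm.1)
      split_ifs with hc
      · have : insert j (ω.erase i) ≠ ω := by
          intro h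
          apply hc.2
          rw [← h]
          exact Finset.mem_insert_self _ _
        rw [hm.2 _ this, smul_zero]
        exact Z.zero_mem
      · exact Z.zero_mem
    · rw [G.ext_E_apply hne, hm.2 u hu, map_zero, add_zero]
      split_ifs with hc
      · have : insert j (u.erase i) ≠ ω := by
          intro h
          have h1 : j ∈ ω := by rw [← h]; exact Finset.mem_insert_self _ _
          have h2 := hω j h1 i hij
          rw [← h, Finset.mem_insert, Finset.mem_erase] at h2
          rcases h2 with h2 | h2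
          · exact hne h2
          · exact h2.1 rfl
        rw [hm.2 _ this, smul_zero]
      · rfl
  hom μ m hm := by
    refine ⟨?_, fun u hu => ?_⟩
    · rw [G.ext_p_apply]
      split_ifs
      · exact hZ.hom _ _ hm.1
      · exact Z.zero_mem
    · rw [G.ext_p_apply, hm.2 u hu, map_zero]
      split_ifs <;> rfl

omit [Fintype L] in
lemma led_cz {Z : Submodule 𝕜 V} (ω : Finset L) : led (cz ω Z) ω = Z := by
  ext v
  constructor
  · rintro ⟨m, hm, rfl, _⟩
    exact hm.1
  · intro hv
    refine ⟨Pi.single ω v, ⟨?_, fun u hu => ?_⟩, ?_, fun u hu => ?_⟩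
    · rw [Pi.single_eq_same]; exact hv
    · rw [Pi.single_eq_of_ne hu]
    · rw [Pi.single_eq_same]
    · rw [Pi.single_eq_of_ne]
      rintro rfl
      exact lt_irrefl _ hu

omit [Fintype L] in
lemma led_cz_ne {Z : Submodule 𝕜 V} {ω t : Finset L} (h : t ≠ ω) : led (cz ω Z) t = ⊥ := by
  rw [eq_bot_iff]
  rintro v ⟨m, hm, rfl, _⟩
  rw [Submodule.mem_bot]
  exact hm.2 t h

omit [Fintype L] in
lemma fil_refl {Z : Submodule 𝕜 V} {ω : Finset L} (hω : ∀ x ∈ ω, ∀ y, y < x → y ∈ ω) :
    G.Fil Z ω 0 id (cz ω Z) {ω} where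
  red t ht := by
    rw [Finset.mem_singleton] at ht
    subst ht
    exact ⟨0, id, by rw [led_cz]; exact Red.refl, fun x => Iff.rfl⟩
  zero t ht := by
    rw [Finset.mem_singleton] at ht
    exact led_cz_ne ht
  ideal t ht i j hij hj hi := by
    rw [Finset.mem_singleton] at ht
    subst ht
    exact absurd (hω j hj i hij.lt) hi
  top := ⟨ω, Finset.mem_singleton_self _, fun x => Iff.rfl, by rw [led_cz]; exact Red.refl,
    fun t ht => by rw [Finset.mem_singleton] at ht; rw [ht]⟩

variable [FiniteDimensional 𝕜 V]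

open Classical in
/-- the new pieces -/
noncomputable def newled (Y : Submodule 𝕜 (Finset L → V)) (i j : L) (t : Finset L) : Submodule 𝕜 V :=
  if i ∈ t ∧ j ∉ t then led Y t else if j ∈ t ∧ i ∉ t then G.D i j (led Y (st i j t)) else
    G.D i j (led Y t)

omit [FiniteDimensional 𝕜 V] in
lemma newled_le (Y : Submodule 𝕜 (Finset L → V)) {i j : L} (hij : i ⋖ j) (t : Finset L) :
    G.newled Y i j t ≤ led (G.ext.D i j Y) t := by
  unfold newled
  split_ifs with h1 h2
  · exact lead_mono _ (G.ext.le_D i j Y) t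
  · apply G.D_le_of_pow
    intro v hv k
    have := G.led_new hij (G.ext.D_stable i j Y) (t := st i j t) (mem_st_i.2 h2.1)
      (fun h => h2.2 (mem_st_j.1 h)) v (lead_mono _ (G.ext.le_D i j Y) _ hv) k
    rwa [st_st] at this
  · apply G.D_le (lead_mono _ (G.ext.le_D i j Y) t)
    apply G.led_stable hij (G.ext.D_stable i j Y)
    constructor
    · intro h
      by_contra h3
      exact h1 ⟨h, h3⟩
    · intro h
      by_contra h3
      exact h2 ⟨h, h3⟩

omit [LinearOrder L] [Fintype L] in
lemma xs_erase [LinearOrder L] {i : L} {t : Finset L} (h : i ∈ t) : xs t = X i * xs (t.erase i) := by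
  unfold xs
  rw [Finset.mul_prod_erase t (fun k => (X k : MvPolynomial L ℤ)) h]

omit [Fintype L] in
/-- one term of the character of the closure -/
lemma dem_term {Z : Submodule 𝕜 V} (hZ : G.BSt Z) (hG : G.Good Z) {ω : Finset L}
    (hω : ∀ x ∈ ω, ∀ y, y < x → y ∈ ω) {n : ℕ} {a : L → L} {Y : Submodule 𝕜 (Finset L → V)}
    {S : Finset (Finset L)} (hF : G.Fil Z ω n a Y S) {i j : L} (hij : i ⋖ j) (t : Finset L) :
    dem i j (xs t * G.ch (led Y t)) =
      (if j ∈ t ∧ i ∉ t then 0 else xs t * G.ch (G.newled Y i j t)) +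
      (if i ∈ t ∧ j ∉ t then xs (st i j t) * G.ch (G.newled Y i j (st i j t)) else 0) := by
  have hne := hij.lt.ne
  by_cases htS : t ∈ S
  · obtain ⟨n', b, hR, hb⟩ := hF.red t htS
    have hBS := hR.bst hZ
    -- `dem (ch A) = ch (D A)` unless `j ∈ t, i ∉ t`
    have hsym : b j < b i → sw i j (G.ch (led Y t)) = G.ch (led Y t) := by
      intro h
      exact G.sw_ch hne (hBS.up i j hij.lt) (hR.stable hij h)
    have hgood : ¬ (j ∈ t ∧ i ∉ t) → dem i j (G.ch (led Y t)) = G.ch (G.D i j (led Y t)) := by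
      intro h
      rcases lt_trichotomy (b i) (b j) with h1 | h1 | h1
      · exact (hR.good hG hij h1).symm
      · exact absurd (hR.inj h1) hne
      · rw [dem_of_sw hne (hsym h1), G.D_eq_self (hR.stable hij h1)]
    by_cases h1 : i ∈ t ∧ j ∉ t
    · have h2 : ¬ (j ∈ t ∧ i ∉ t) := fun h => h.2 h1.1
      rw [if_neg h2, if_pos h1]
      have e1 : G.newled Y i j t = led Y t := by unfold newled; rw [if_pos h1]
      have e2 : G.newled Y i j (st i j t) = G.D i j (led Y t) := by
        unfold newled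
        rw [if_neg, if_pos, st_st]
        · exact ⟨mem_st_j.2 h1.1, fun h => h1.2 (mem_st_i.1 h)⟩
        · exact fun h => h1.2 (mem_st_i.1 h.1)
      have e3 : xs (st i j t) = X j * xs (t.erase i) := by
        rw [st_eq hne h1.1 h1.2]
        unfold xs
        rw [Finset.prod_insert]
        exact fun h => h1.2 (Finset.mem_of_mem_erase h)
      have e4 : sw i j (xs (t.erase i)) = xs (t.erase i) := by
        rw [sw_xs, st_self]
        constructor
        · exact fun h => absurd rfl (Finset.ne_of_mem_erase h)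
        · exact fun h => absurd (Finset.mem_of_mem_erase h) h1.2
      rw [e1, e2, e3, xs_erase h1.1, ← hgood h2]
      exact dem_X_mul hne e4 _
    · by_cases h2 : j ∈ t ∧ i ∉ t
      · rw [if_pos h2, if_neg h1, add_zero]
        have h3 : b j < b i := by
          have h4 := (hb j).1 h2.1
          by_contra h5
          apply h2.2
          rw [hb]
          rcases (not_lt.1 h5).lt_or_eq with h6 | h6
          · exact hω _ h4 _ h6
          · rw [h6]; exact h4
        have e4 : sw i j (xs (t.erase j)) = xs (t.erase j) := by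
          rw [sw_xs, st_self]
          constructor
          · exact fun h => absurd (Finset.mem_of_mem_erase h) h2.2
          · exact fun h => absurd rfl (Finset.ne_of_mem_erase h)
        rw [xs_erase h2.1]
        exact dem_X_mul' hne e4 (hsym h3)
      · rw [if_neg h2, if_neg h1, add_zero]
        have e1 : G.newled Y i j t = G.D i j (led Y t) := by
          unfold newled; rw [if_neg h1, if_neg h2]
        have e2 : sw i j (xs t) = xs t := by
          rw [sw_xs, st_self]
          constructor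
          · intro h; by_contra h3; exact h1 ⟨h, h3⟩
          · intro h; by_contra h3; exact h2 ⟨h, h3⟩
        rw [e1, ← hgood h2]
        exact dem_mul_of_sw hne e2 _
  · have h0 := hF.zero t htS
    rw [h0, ch_bot, mul_zero, dem_zero hne]
    by_cases h1 : i ∈ t ∧ j ∉ t
    · have h2 : ¬ (j ∈ t ∧ i ∉ t) := fun h => h.2 h1.1
      have e1 : G.newled Y i j t = ⊥ := by unfold newled; rw [if_pos h1, h0]
      have e2 : G.newled Y i j (st i j t) = ⊥ := by
        unfold newled
        rw [if_neg, if_pos, st_st, h0, D_bot]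
        · exact ⟨mem_st_j.2 h1.1, fun h => h1.2 (mem_st_i.1 h)⟩
        · exact fun h => h1.2 (mem_st_i.1 h.1)
      rw [if_neg h2, if_pos h1, e1, e2, ch_bot]
      simp
    · by_cases h2 : j ∈ t ∧ i ∉ t
      · rw [if_pos h2, if_neg h1, add_zero]
      · have e1 : G.newled Y i j t = ⊥ := by
          unfold newled; rw [if_neg h1, if_neg h2, h0, D_bot]
        rw [if_neg h2, if_neg h1, e1, ch_bot]
        simp

/-- sum over the pairs -/
lemma sum_pairs {i j : L} (F : Finset L → MvPolynomial L ℤ) :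
    ∑ t, ((if j ∈ t ∧ i ∉ t then 0 else F t) + (if i ∈ t ∧ j ∉ t then F (st i j t) else 0)) = ∑ t, F t := by
  classical
  rw [Finset.sum_add_distrib]
  have h1 : ∑ t, (if i ∈ t ∧ j ∉ t then F (st i j t) else 0) = ∑ t, (if j ∈ t ∧ i ∉ t then F t else 0) := by
    apply Finset.sum_nbij' (st i j) (st i j)
    · intro t _; exact Finset.mem_univ _
    · intro t _; exact Finset.mem_univ _
    · intro t _; exact st_st i j t
    · intro t _; exact st_st i j t
    · intro t _
      simp only [mem_st_i, mem_st_j]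
  rw [h1, ← Finset.sum_add_distrib]
  apply Finset.sum_congr rfl
  intro t _
  split_ifs
  · rw [zero_add]
  · rw [add_zero]

/-- **Key Lemma**, step -/
theorem key_step {Z : Submodule 𝕜 V} (hZ : G.BSt Z) (hG : G.Good Z) {ω : Finset L}
    (hω : ∀ x ∈ ω, ∀ y, y < x → y ∈ ω) {n : ℕ} {a : L → L} {Y : Submodule 𝕜 (Finset L → V)}
    (hY : G.ext.BSt Y) {S : Finset (Finset L)} (hF : G.Fil Z ω n a Y S) {i j : L} (hij : i ⋖ j) :
    G.ext.ch (G.ext.D i j Y) = dem i j (G.ext.ch Y) ∧
      ∀ t, led (G.ext.D i j Y) t = G.newled Y i j t := by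
  have hne := hij.lt.ne
  have h1 : dem i j (G.ext.ch Y) = ∑ t, xs t * G.ch (G.newled Y i j t) := by
    rw [G.ch_ext hY.hom, dem_sum hne]
    simp only [G.dem_term hZ hG hω hF hij]
    exact sum_pairs (fun t => xs t * G.ch (G.newled Y i j t))
  have hD := hY.D hij
  have h2 := G.ch_ext hD.hom
  have h3 := G.ext.dem_le hY hij
  -- coefficientwise
  have h4 : ∀ ν t, coeff ν (xs t * G.ch (G.newled Y i j t)) ≤
      coeff ν (xs t * G.ch (led (G.ext.D i j Y) t)) := by
    intro ν t
    rw [xs_eq, coeff_monomial_mul', coeff_monomial_mul']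
    split_ifs
    · rw [one_mul, one_mul, coeff_ch, coeff_ch]
      have : G.newled Y i j t ⊓ G.W (ν - one t) ≤ led (G.ext.D i j Y) t ⊓ G.W (ν - one t) :=
        inf_le_inf_right _ (G.newled_le Y hij t)
      exact_mod_cast Submodule.finrank_mono this
    · exact le_rfl
  have h5 : ∀ ν, coeff ν (G.ext.ch (G.ext.D i j Y)) = coeff ν (dem i j (G.ext.ch Y)) := by
    intro ν
    apply le_antisymm (h3 ν)
    rw [h1, h2, coeff_sum, coeff_sum]
    exact Finset.sum_le_sum (fun t _ => h4 ν t)
  refine ⟨MvPolynomial.ext _ _ h5, fun t => ?_⟩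
  have h6 : ∀ ν, coeff ν (xs t * G.ch (G.newled Y i j t)) =
      coeff ν (xs t * G.ch (led (G.ext.D i j Y) t)) := by
    intro ν
    have h7 := h5 ν
    rw [h1, h2, coeff_sum, coeff_sum] at h7
    exact (Finset.sum_eq_sum_iff_of_le (fun t _ => h4 ν t)).1 h7.symm t (Finset.mem_univ t)
  -- equality of the pieces
  have h8 : ∀ μ, Module.finrank 𝕜 (G.newled Y i j t ⊓ G.W μ : Submodule 𝕜 V) =
      Module.finrank 𝕜 (led (G.ext.D i j Y) t ⊓ G.W μ : Submodule 𝕜 V) := by
    intro μ
    have h9 := h6 (one t + μ)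
    rw [xs_eq, coeff_monomial_mul', coeff_monomial_mul', if_pos le_self_add, if_pos le_self_add,
      add_tsub_cancel_left, one_mul, one_mul, coeff_ch, coeff_ch] at h9
    exact_mod_cast h9
  have h10 : ∀ μ, G.newled Y i j t ⊓ G.W μ = led (G.ext.D i j Y) t ⊓ G.W μ := by
    intro μ
    exact Submodule.eq_of_le_of_finrank_eq (inf_le_inf_right _ (G.newled_le Y hij t)) (h8 μ)
  apply le_antisymm _ (G.newled_le Y hij t)
  rintro v ⟨m, hm, rfl, h11⟩
  rw [← G.p_sum (m t)]
  apply Submodule.sum_mem
  intro μ _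
  have h12 : G.p μ (m t) ∈ led (G.ext.D i j Y) t ⊓ G.W μ := by
    refine ⟨⟨G.ext.p (one t + μ) m, hD.hom _ m hm, ?_, fun u hu => ?_⟩, G.p_mem_W _ _⟩
    · rw [G.ext_p_apply, if_pos le_self_add, add_tsub_cancel_left]
    · rw [G.ext_p_apply, h11 u hu, map_zero]
      split_ifs <;> rfl
  rw [← h10 μ] at h12
  exact h12.1

/-- **Key Lemma**, filtration step -/
theorem fil_step {Z : Submodule 𝕜 V} (hZ : G.BSt Z) (hG : G.Good Z) {ω : Finset L}
    (hω : ∀ x ∈ ω, ∀ y, y < x → y ∈ ω) {n : ℕ} {a : L → L} {Y : Submodule 𝕜 (Finset L → V)}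
    (hY : G.ext.BSt Y) {S : Finset (Finset L)} (hF : G.Fil Z ω n a Y S) {i j : L} (hij : i ⋖ j)
    (ha : a i < a j) :
    G.Fil Z ω (n + 1) (a ∘ Equiv.swap i j) (G.ext.D i j Y) (S ∪ S.image (st i j)) := by
  classical
  have hne := hij.lt.ne
  have hled := (G.key_step hZ hG hω hY hF hij).2
  have hmem : ∀ t, t ∈ S ∪ S.image (st i j) ↔ t ∈ S ∨ st i j t ∈ S := by
    intro t
    rw [Finset.mem_union, Finset.mem_image]
    apply or_congr_right
    constructor
    · rintro ⟨u, hu, rfl⟩
      rw [st_st]; exact hu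
    · intro h
      exact ⟨_, h, st_st i j t⟩
  -- if `i ∈ t`, `j ∉ t` and `t ∈ S'` then `t ∈ S`
  have hA : ∀ t, t ∈ S ∪ S.image (st i j) → i ∈ t → j ∉ t → t ∈ S := by
    intro t ht hi hj
    rcases (hmem t).1 ht with h | h
    · exact h
    · have := hF.ideal _ h i j hij (mem_st_j.2 hi) (fun h => hj (mem_st_i.1 h))
      rwa [st_st] at this
  have hB : ∀ t, t ∈ S ∪ S.image (st i j) → j ∈ t → i ∉ t → st i j t ∈ S := by
    intro t ht hj hi
    rcases (hmem t).1 ht with h | h
    · exact hF.ideal _ h i j hij hj hi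
    · exact h
  have hC : ∀ t, t ∈ S ∪ S.image (st i j) → (i ∈ t ↔ j ∈ t) → t ∈ S := by
    intro t ht hi
    rcases (hmem t).1 ht with h | h
    · exact h
    · rwa [st_self hi] at h
  refine ⟨?_, ?_, ?_, ?_⟩
  · intro t ht
    rw [hled t]
    unfold newled
    by_cases h1 : i ∈ t ∧ j ∉ t
    · rw [if_pos h1]
      exact hF.red t (hA t ht h1.1 h1.2)
    · rw [if_neg h1]
      by_cases h2 : j ∈ t ∧ i ∉ t
      · rw [if_pos h2]
        obtain ⟨n', b, hR, hb⟩ := hF.red _ (hB t ht h2.1 h2.2)
        have hbi : b i ∈ ω := (hb i).1 (mem_st_i.2 h2.1)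
        have hbj : b j ∉ ω := fun h => h2.2 (mem_st_j.1 ((hb j).2 h))
        have hlt : b i < b j := by
          by_contra h3
          rcases (not_lt.1 h3).lt_or_eq with h4 | h4
          · exact hbj (hω _ hbi _ h4)
          · rw [h4] at hbj; exact hbj hbi
        refine ⟨n' + 1, b ∘ Equiv.swap i j, Red.step n' b _ i j hij hR hlt, fun x => ?_⟩
        rw [Function.comp, ← hb, mem_st, Equiv.swap_apply_self]
      · rw [if_neg h2]
        have hiff : i ∈ t ↔ j ∈ t := by
          constructor
          · intro h; by_contra h3; exact h1 ⟨h, h3⟩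
          · intro h; by_contra h3; exact h2 ⟨h, h3⟩
        obtain ⟨n', b, hR, hb⟩ := hF.red t (hC t ht hiff)
        rcases lt_trichotomy (b i) (b j) with h4 | h4 | h4
        · refine ⟨n' + 1, b ∘ Equiv.swap i j, Red.step n' b _ i j hij hR h4, fun x => ?_⟩
          rw [Function.comp, ← hb, ← mem_st, st_self hiff]
        · exact absurd (hR.inj h4) hne
        · rw [G.D_eq_self (hR.stable hij h4)]
          exact ⟨n', b, hR, hb⟩
  · intro t ht
    rw [hled t]
    rw [hmem, not_or] at ht
    unfold newled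
    rw [hF.zero t ht.1, hF.zero _ ht.2, D_bot]
    split_ifs <;> rfl
  · intro t ht k l hkl hl hk
    rw [hmem]
    by_cases htS : t ∈ S
    · exact Or.inl (hF.ideal t htS k l hkl hl hk)
    · have hst : st i j t ∈ S := ((hmem t).1 ht).resolve_left htS
      -- then `j ∈ t`, `i ∉ t`
      have hj : j ∈ t ∧ i ∉ t := by
        by_contra h3
        apply htS
        by_cases h4 : i ∈ t ∧ j ∉ t
        · exact hA t ht h4.1 h4.2
        · apply hC t ht
          constructor
          · intro h; by_contra h5; exact h4 ⟨h, h5⟩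
          · intro h; by_contra h5; exact h3 ⟨h, h5⟩
      by_cases hki : k = i
      · subst hki
        have := covBy_right_unique hkl hij
        subst this
        exact Or.inl hst
      · have hlj : l ≠ j := by
          rintro rfl
          exact hki (covBy_left_unique hkl hij)
        have hkj : k ≠ j := by
          rintro rfl
          exact hk hj.1
        have hli : l ≠ i := by
          rintro rfl
          exact hj.2 hl
        right
        have e : st i j (st k l t) = st k l (st i j t) := by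
          ext x
          simp only [mem_st]
          have : Equiv.swap k l (Equiv.swap i j x) = Equiv.swap i j (Equiv.swap k l x) := by
            by_cases hxi : x = i
            · subst hxi
              rw [Equiv.swap_apply_left, Equiv.swap_apply_of_ne_of_ne hkj.symm hlj.symm,
                Equiv.swap_apply_of_ne_of_ne (Ne.symm hki) hli.symm, Equiv.swap_apply_left]
            · by_cases hxj : x = j
              · subst hxj
                rw [Equiv.swap_apply_right, Equiv.swap_apply_of_ne_of_ne (Ne.symm hki) hli.symm,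
                  Equiv.swap_apply_of_ne_of_ne hkj.symm hlj.symm, Equiv.swap_apply_right]
              · rw [Equiv.swap_apply_of_ne_of_ne hxi hxj]
                by_cases hxk : x = k
                · subst hxk
                  rw [Equiv.swap_apply_left, Equiv.swap_apply_of_ne_of_ne hli hlj]
                · by_cases hxl : x = l
                  · subst hxl
                    rw [Equiv.swap_apply_right, Equiv.swap_apply_of_ne_of_ne hki hkj]
                  · rw [Equiv.swap_apply_of_ne_of_ne hxk hxl, Equiv.swap_apply_of_ne_of_ne hxi hxj]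
          rw [this]
        rw [e]
        apply hF.ideal _ hst k l hkl
        · rw [mem_st, Equiv.swap_apply_of_ne_of_ne hli hlj]; exact hl
        · rw [mem_st, Equiv.swap_apply_of_ne_of_ne hki hkj]; exact hk
  · obtain ⟨t0, ht0, h1, h2, h3⟩ := hF.top
    -- `j ∈ t0 → i ∈ t0`
    have hji : j ∈ t0 → i ∈ t0 := fun h => (h1 i).2 (hω _ ((h1 j).1 h) _ ha)
    refine ⟨st i j t0, ?_, fun x => ?_, ?_, ?_⟩
    · rw [hmem, st_st]; exact Or.inr ht0
    · rw [mem_st, h1]; rfl
    · rw [hled]
      unfold newled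
      have e1 : ¬ (i ∈ st i j t0 ∧ j ∉ st i j t0) := by
        rw [mem_st_i, mem_st_j]
        exact fun h => h.2 (hji h.1)
      rw [if_neg e1]
      by_cases h4 : j ∈ st i j t0 ∧ i ∉ st i j t0
      · rw [if_pos h4, st_st]
        exact Red.step n a _ i j hij h2 ha
      · rw [if_neg h4]
        have e2 : st i j t0 = t0 := by
          rw [mem_st_i, mem_st_j] at h4
          apply st_self
          constructor
          · intro h; by_contra h5; exact h4 ⟨h, h5⟩
          · exact hji
        rw [e2]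
        exact Red.step n a _ i j hij h2 ha
    · intro t ht
      by_cases hc : i ∈ t0 ∧ j ∉ t0
      · rcases (hmem t).1 ht with h | h
        · exact (h3 t h).trans (st_gt hij.lt hc.1 hc.2).le
        · have := st_le hij hc.1 hc.2 (h3 _ h)
          rwa [st_st] at this
      · have hiff : i ∈ t0 ↔ j ∈ t0 := by
          constructor
          · intro h; by_contra h5; exact hc ⟨h, h5⟩
          · exact hji
        rw [st_self hiff]
        rcases (hmem t).1 ht with h | h
        · exact h3 t h
        · have := st_le' hij hiff (h3 _ h)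
          rwa [st_st] at this

/-- **Key Lemma** -/
theorem key {Z : Submodule 𝕜 V} (hZ : G.BSt Z) (hG : G.Good Z) {ω : Finset L}
    (hω : ∀ x ∈ ω, ∀ y, y < x → y ∈ ω) {n : ℕ} {a : L → L} {Y : Submodule 𝕜 (Finset L → V)}
    (hR : G.ext.Red (cz ω Z) n a Y) : ∃ S, G.Fil Z ω n a Y S := by
  induction hR with
  | refl => exact ⟨_, G.fil_refl hω⟩
  | step n a Y i j hij h ha ih =>
    obtain ⟨S, hS⟩ := ih
    exact ⟨_, G.fil_step hZ hG hω (h.bst (G.cz_bst hZ hω)) hS hij ha⟩

/-- goodness is preserved by the twist `e_ω ⊗` -/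
theorem Good.cz {Z : Submodule 𝕜 V} (hZ : G.BSt Z) (hG : G.Good Z) {ω : Finset L}
    (hω : ∀ x ∈ ω, ∀ y, y < x → y ∈ ω) : G.ext.Good (GMod.cz ω Z) := by
  intro n a Y hR i j hij _
  obtain ⟨S, hS⟩ := G.key hZ hG hω hR
  exact (G.key_step hZ hG hω (hR.bst (G.cz_bst hZ hω)) hS hij).1

end GMod

end Pool.Agent.GaoG
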