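import Pool.Agent.Gao.GDefs
import Pool.Agent.GaoG.Key

/-!
# Bridge between `Gao.GLRep` and `GMod`: closures, reduced words, characters
-/

set_option autoImplicit false
set_option linter.unusedSectionVars false

namespace Gao

open Finset Module Pool.Agent.GaoG

noncomputable section

variable {K V : Type*} [Field K] [CharZero K] [AddCommGroup V] [Module K V] {m : ℕ}

/-- a monomial as a weight -/
def wc (μ : Fin m →₀ ℕ) : Wt m := fun i => (μ i : ℤ)

/-- a weight as a monomial -/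
def wn (μ : Wt m) : Fin m →₀ ℕ := Finsupp.equivFunOnFinite.symm (fun i => (μ i).toNat)

lemma wn_apply (μ : Wt m) (i : Fin m) : wn μ i = (μ i).toNat := rfl

lemma wc_wn {μ : Wt m} (h : ∀ i, 0 ≤ μ i) : wc (wn μ) = μ := by
  funext i
  show ((μ i).toNat : ℤ) = μ i
  exact Int.toNat_of_nonneg (h i)

lemma wn_wc (μ : Fin m →₀ ℕ) : wn (wc μ) = μ := by
  ext i
  show ((μ i : ℤ)).toNat = μ i
  exact Int.toNat_natCast _

lemma wc_inj : Function.Injective (wc : (Fin m →₀ ℕ) → Wt m) := fun a b h => by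
  rw [← wn_wc a, ← wn_wc b, h]

lemma lo_cov (c : ℕ) (h : c + 1 < m) : lo c h ⋖ hi c h := by
  constructor
  · exact Fin.mk_lt_mk.2 (Nat.lt_succ_self c)
  · intro x h1 h2
    have h3 : c < x.val := h1
    have h4 : x.val < c + 1 := h2
    omega

lemma cov_lo {i j : Fin m} (hij : i ⋖ j) : ∃ (c : ℕ) (h : c + 1 < m), i = lo c h ∧ j = hi c h := by
  have h1 : i.val < j.val := hij.lt
  have h2 : j.val = i.val + 1 := by
    by_contra hc
    have h3 : i.val + 1 < m := by have := j.2; omega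
    apply hij.2 (c := ⟨i.val + 1, h3⟩)
    · exact Fin.mk_lt_mk.2 (Nat.lt_succ_self _)
    · show i.val + 1 < j.val
      omega
  exact ⟨i.val, by have := j.2; omega, rfl, Fin.ext h2⟩

namespace GLRep

variable (ρ : GLRep K V m)

lemma hom' (i j : Fin m) (μ : Wt m) (v : V) :
    ρ.E i j (ρ.π μ v) = ρ.π (μ + (Pi.single j 1 - Pi.single i 1)) (ρ.E i j v) := by
  have := congrArg (fun T : Module.End K V => T v) (ρ.hom i j μ)
  exact this

lemma comm' (i j k l : Fin m) (v : V) : ρ.E i j (ρ.E k l v) - ρ.E k l (ρ.E i j v) =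
    (if l = i then ρ.E k j v else 0) - (if j = k then ρ.E i l v else 0) := by
  have := congrArg (fun T : Module.End K V => T v) (ρ.comm i j k l)
  simp only [LinearMap.sub_apply, Module.End.mul_apply] at this
  rw [this]
  congr 1
  · split_ifs <;> rfl
  · split_ifs <;> rfl

lemma π_neg {μ : Wt m} (h : ¬ ∀ i, 0 ≤ μ i) : ρ.π μ = 0 := by
  apply ρ.zero
  intro h2
  exact h (ρ.nonneg μ h2)

/-- the associated `GMod` -/
def toG : GMod (Fin m) K V where
  E i j := ρ.E j i
  p μ := ρ.π (wc μ)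
  comm i j k l v := by
    rw [ρ.comm' j i l k v]
    congr 1
    by_cases h : j = k
    · rw [if_pos h, if_pos h.symm]
    · rw [if_neg h, if_neg (Ne.symm h)]
  p_p μ ν v := by
    have := congrArg (fun T : Module.End K V => T v) (ρ.mul (wc μ) (wc ν))
    simp only [Module.End.mul_apply] at this
    rw [this]
    by_cases h : μ = ν
    · subst h; rw [if_pos rfl, if_pos rfl]
    · rw [if_neg h, if_neg (fun h2 => h (wc_inj h2))]; rfl
  supp := ρ.supp.image wn
  p_sum v := by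
    rw [Finset.sum_image]
    · have h : ∀ μ ∈ ρ.supp, ρ.π (wc (wn μ)) v = ρ.π μ v := by
        intro μ hμ
        rw [wc_wn (ρ.nonneg μ hμ)]
      rw [Finset.sum_congr rfl h]
      exact ρ.toGrading.sum_apply v
    · intro a ha b hb h
      rw [← wc_wn (ρ.nonneg a ha), ← wc_wn (ρ.nonneg b hb), h]
  E_diag i μ v := by
    have := congrArg (fun T : Module.End K V => T v) (ρ.diag i (wc μ))
    simp only [Module.End.mul_apply, LinearMap.smul_apply] at this
    rw [this]
    congr 1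
    show (((μ i : ℕ) : ℤ) : K) = _
    exact Int.cast_natCast _
  E_p i j hij μ μ' h v := by
    have e : wc μ' = wc μ + (Pi.single i 1 - Pi.single j 1) := by
      funext x
      have h1 := DFunLike.congr_fun h x
      simp only [Finsupp.coe_add, Pi.add_apply, Finsupp.single_apply] at h1
      simp only [Pi.add_apply, Pi.sub_apply, Pi.single_apply, wc]
      have e1 : (if j = x then 1 else 0 : ℕ) = (if x = j then 1 else 0) := by simp [eq_comm]
      have e2 : (if i = x then 1 else 0 : ℕ) = (if x = i then 1 else 0) := by simp [eq_comm]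
      rw [e1, e2] at h1
      split_ifs at h1 ⊢ <;> omega
    rw [e, ρ.hom', ← Module.End.mul_apply, ρ.mul_self]
  E_z i j hij μ h v := by
    rw [ρ.hom', ρ.π_neg]
    · rfl
    · intro h2
      have := h2 j
      simp only [Pi.add_apply, Pi.sub_apply, Pi.single_eq_same, Pi.single_eq_of_ne hij.symm, wc, h] at this
      norm_num at this

lemma toG_E (i j : Fin m) : ρ.toG.E i j = ρ.E j i := rfl
lemma toG_p (μ : Fin m →₀ ℕ) : ρ.toG.p μ = ρ.π (wc μ) := rfl

lemma mem_W_iff (μ : Fin m →₀ ℕ) (v : V) : v ∈ ρ.toG.W μ ↔ ρ.π (wc μ) v = v := Iff.rfl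

lemma bst_iff {Z : Submodule K V} : ρ.BSt Z ↔ ρ.toG.BSt Z := by
  constructor
  · intro h
    exact ⟨fun i j hij v hv => h.e j i hij v hv, fun μ v hv => h.st (wc μ) v hv⟩
  · intro h
    refine ⟨fun μ v hv => ?_, fun i j hij v hv => h.up j i hij v hv⟩
    by_cases hμ : ∀ i, 0 ≤ μ i
    · rw [← wc_wn hμ]; exact h.hom (wn μ) v hv
    · rw [ρ.π_neg hμ]; exact Z.zero_mem

lemma T_eq (c : ℕ) (h : c + 1 < m) (Z : Submodule K V) : ρ.T c Z = ρ.toG.D (lo c h) (hi c h) Z := by
  have hf : ρ.f c = ρ.toG.E (hi c h) (lo c h) := by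
    unfold f; rw [dif_pos h]; rfl
  unfold T
  rw [hf]
  apply le_antisymm
  · apply iSup_le
    intro k
    rintro _ ⟨v, hv, rfl⟩
    exact ρ.toG.D_pow (lo c h) (hi c h) Z k v (ρ.toG.le_D _ _ Z hv)
  · apply ρ.toG.D_le
    · intro v hv
      refine Submodule.mem_iSup_of_mem 0 ⟨v, hv, ?_⟩
      simp
    · have : ∀ v ∈ (⨆ k : ℕ, Z.map (ρ.toG.E (hi c h) (lo c h) ^ k) : Submodule K V),
          v ∈ (⨆ k : ℕ, Z.map (ρ.toG.E (hi c h) (lo c h) ^ k) : Submodule K V).comap
            (ρ.toG.E (hi c h) (lo c h)) := by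
        intro v hv
        have h1 : (⨆ k : ℕ, Z.map (ρ.toG.E (hi c h) (lo c h) ^ k) : Submodule K V) ≤
            (⨆ k : ℕ, Z.map (ρ.toG.E (hi c h) (lo c h) ^ k) : Submodule K V).comap
              (ρ.toG.E (hi c h) (lo c h)) := by
          apply iSup_le
          intro k
          rintro _ ⟨u, hu, rfl⟩
          rw [Submodule.mem_comap]
          refine Submodule.mem_iSup_of_mem (k + 1) ⟨u, hu, ?_⟩
          rw [pow_succ', Module.End.mul_apply]
        exact h1 hv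
      exact this

lemma T_triv {c : ℕ} (h : ¬ c + 1 < m) (Z : Submodule K V) : ρ.T c Z = Z := by
  have hf : ρ.f c = 0 := by unfold f; rw [dif_neg h]
  unfold T
  rw [hf]
  apply le_antisymm
  · apply iSup_le
    intro k
    rcases k with _ | k
    · rintro _ ⟨v, hv, rfl⟩
      simpa using hv
    · rintro _ ⟨v, hv, rfl⟩
      rw [zero_pow (Nat.succ_ne_zero k)]
      exact Z.zero_mem
  · intro v hv
    exact Submodule.mem_iSup_of_mem 0 ⟨v, hv, by simp⟩

lemma Hw_nil (Z : Submodule K V) : ρ.Hw [] Z = Z := rfl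
lemma Hw_cons (c : ℕ) (cs : List ℕ) (Z : Submodule K V) : ρ.Hw (c :: cs) Z = ρ.T c (ρ.Hw cs Z) := rfl

lemma Hw_append (cs ds : List ℕ) (Z : Submodule K V) : ρ.Hw (cs ++ ds) Z = ρ.Hw cs (ρ.Hw ds Z) := by
  unfold Hw
  rw [List.foldr_append]

lemma BSt.T {ρ : GLRep K V m} {Z : Submodule K V} (hZ : ρ.BSt Z) (c : ℕ) : ρ.BSt (ρ.T c Z) := by
  by_cases h : c + 1 < m
  · rw [ρ.T_eq c h, bst_iff]
    exact (ρ.bst_iff.1 hZ).D (lo_cov c h)
  · rwa [ρ.T_triv h]

lemma BSt.Hw {ρ : GLRep K V m} {Z : Submodule K V} (hZ : ρ.BSt Z) (cs : List ℕ) : ρ.BSt (ρ.Hw cs Z) := by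
  induction cs with
  | nil => exact hZ
  | cons c cs ih => exact ih.T c

end GLRep

/-! ### reduced words -/

lemma sc_eq {c : ℕ} (h : c + 1 < m) : sc m c = Equiv.swap (lo c h) (hi c h) := by
  unfold sc; rw [dif_pos h]

lemma prodW_cons (c : ℕ) (cs : List ℕ) : prodW m (c :: cs) = sc m c * prodW m cs := by
  unfold prodW; rw [List.map_cons, List.prod_cons]

lemma prodW_symm_cons {c : ℕ} (h : c + 1 < m) (cs : List ℕ) :
    ((prodW m (c :: cs)).symm : Fin m → Fin m) =
      (prodW m cs).symm ∘ Equiv.swap (lo c h) (hi c h) := by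
  rw [prodW_cons, sc_eq h]
  funext x
  show (Equiv.swap (lo c h) (hi c h) * prodW m cs)⁻¹ x = _
  rw [mul_inv_rev, Equiv.Perm.mul_apply, Equiv.swap_inv]
  rfl

lemma Red.toG (ρ : GLRep K V m) (Z : Submodule K V) {cs : List ℕ} (h : Red m cs) :
    ρ.toG.Red Z cs.length ((prodW m cs).symm : Fin m → Fin m) (ρ.Hw cs Z) := by
  induction h with
  | nil => exact GMod.Red.refl
  | cons c h cs hr ha ih =>
    have := GMod.Red.step cs.length _ _ (lo c h) (hi c h) (lo_cov c h) ih ha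
    rw [prodW_symm_cons h, ρ.Hw_cons, ρ.T_eq c h]
    exact this

lemma Red.ofG (ρ : GLRep K V m) (Z : Submodule K V) {n : ℕ} {a : Fin m → Fin m} {Y : Submodule K V}
    (h : ρ.toG.Red Z n a Y) : ∃ cs, Red m cs ∧ cs.length = n ∧
      a = ((prodW m cs).symm : Fin m → Fin m) ∧ Y = ρ.Hw cs Z := by
  induction h with
  | refl => exact ⟨[], Red.nil, rfl, rfl, rfl⟩
  | step n a Y i j hij h ha ih =>
    obtain ⟨cs, hcs, hl, hac, hY⟩ := ih
    obtain ⟨c, hc, rfl, rfl⟩ := cov_lo hij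
    refine ⟨c :: cs, Red.cons c hc cs hcs ?_, by rw [List.length_cons, hl], ?_, ?_⟩
    · show (prodW m cs).symm (lo c hc) < (prodW m cs).symm (hi c hc)
      rw [hac] at ha
      exact ha
    · rw [prodW_symm_cons hc, hac]
    · rw [ρ.Hw_cons, ρ.T_eq c hc, hY]

open Classical in
/-- reduction of words -/
def rdc (m : ℕ) : List ℕ → List ℕ
  | [] => []
  | c :: cs => if h : c + 1 < m then (if Asc c h (prodW m (rdc m cs)) then c :: rdc m cs else rdc m cs)
      else rdc m cs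

lemma rdc_red (m : ℕ) (cs : List ℕ) : Red m (rdc m cs) := by
  induction cs with
  | nil => exact Red.nil
  | cons c cs ih =>
    unfold rdc
    split_ifs with h1 h2
    · exact Red.cons c h1 _ ih h2
    · exact ih
    · exact ih

section Char

variable (ρ : GLRep K V m)

/-- descents are stable -/
theorem T_Hw_desc {Z : Submodule K V} {cs : List ℕ} (hr : Red m cs) {c : ℕ} (h : c + 1 < m)
    (hd : ¬ Asc c h (prodW m cs)) : ρ.T c (ρ.Hw cs Z) = ρ.Hw cs Z := by
  rw [ρ.T_eq c h]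
  apply ρ.toG.D_eq_self
  apply (Red.toG ρ Z hr).stable (lo_cov c h)
  have h1 : (prodW m cs).symm (lo c h) ≠ (prodW m cs).symm (hi c h) :=
    fun h2 => (lo_cov c h).lt.ne ((prodW m cs).symm.injective h2)
  exact lt_of_le_of_ne (not_lt.1 hd) h1.symm

theorem Hw_rdc (Z : Submodule K V) (cs : List ℕ) : ρ.Hw (rdc m cs) Z = ρ.Hw cs Z := by
  induction cs with
  | nil => rfl
  | cons c cs ih =>
    unfold rdc
    rw [ρ.Hw_cons]
    split_ifs with h1 h2
    · rw [ρ.Hw_cons, ih]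
    · rw [← ih, T_Hw_desc ρ (rdc_red m cs) h1 h2]
    · rw [ρ.T_triv h1, ih]

/-- reduced words of the same permutation give the same closure -/
theorem Hw_eq_of_prodW {Z : Submodule K V} {cs ds : List ℕ} (hc : Red m cs) (hd : Red m ds)
    (h : prodW m cs = prodW m ds) : ρ.Hw cs Z = ρ.Hw ds Z := by
  have h1 := Red.toG ρ Z hc
  have h2 := Red.toG ρ Z hd
  rw [h] at h1
  exact (GMod.Red.unique _ _ _ h1 _ _ h2).2

/-! ### characters -/

lemma map_π {Z : Submodule K V} (hZ : ρ.toGrading.Stable Z) (μ : Fin m →₀ ℕ) :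
    Z.map (ρ.π (wc μ)) = Z ⊓ ρ.toG.W μ := by
  ext v
  constructor
  · rintro ⟨u, hu, rfl⟩
    refine ⟨hZ _ u hu, ?_⟩
    rw [SetLike.mem_coe, ρ.mem_W_iff, ← Module.End.mul_apply, ρ.mul_self]
  · rintro ⟨h1, h2⟩
    exact ⟨v, h1, (ρ.mem_W_iff _ _).1 h2⟩

lemma ch_wc {Z : Submodule K V} (hZ : ρ.toGrading.Stable Z) (μ : Fin m →₀ ℕ) :
    ρ.ch Z (wc μ) = MvPolynomial.coeff μ (ρ.toG.ch Z) := by
  rw [GMod.coeff_ch, ← map_π ρ hZ]
  rfl

lemma ch_neg (Z : Submodule K V) {μ : Wt m} (h : ¬ ∀ i, 0 ≤ μ i) : ρ.ch Z μ = 0 := by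
  show ((finrank K (Z.map (ρ.π μ)) : ℕ) : ℤ) = 0
  rw [ρ.π_neg h, Submodule.map_zero, finrank_bot]
  rfl

/-- the function of a polynomial -/
def fn (P : MvPolynomial (Fin m) ℤ) : Chr m := fun μ =>
  if ∀ i, 0 ≤ μ i then MvPolynomial.coeff (wn μ) P else 0

lemma fn_wc (P : MvPolynomial (Fin m) ℤ) (μ : Fin m →₀ ℕ) : fn P (wc μ) = MvPolynomial.coeff μ P := by
  have h : ∀ i, 0 ≤ wc μ i := fun i => Int.natCast_nonneg _
  unfold fn
  rw [if_pos h, wn_wc]

lemma fn_neg (P : MvPolynomial (Fin m) ℤ) {μ : Wt m} (h : ¬ ∀ i, 0 ≤ μ i) : fn P μ = 0 := if_neg h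

lemma ch_eq_fn {Z : Submodule K V} (hZ : ρ.toGrading.Stable Z) : ρ.ch Z = fn (ρ.toG.ch Z) := by
  funext μ
  by_cases h : ∀ i, 0 ≤ μ i
  · rw [← wc_wn h, ch_wc ρ hZ, fn_wc]
  · rw [ch_neg ρ Z h, fn_neg _ h]

lemma fn_inj {P Q : MvPolynomial (Fin m) ℤ} (h : fn P = fn Q) : P = Q := by
  ext μ
  rw [← fn_wc, ← fn_wc, h]

lemma fn_supp (P : MvPolynomial (Fin m) ℤ) : (fn P).support.Finite := by
  apply (P.support.finite_toSet.image wc).subset
  intro μ hμ
  rw [Function.mem_support] at hμ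
  have h : ∀ i, 0 ≤ μ i := by
    by_contra h
    exact hμ (fn_neg P h)
  refine ⟨wn μ, ?_, wc_wn h⟩
  rw [Finset.mem_coe, MvPolynomial.mem_support_iff]
  rw [← wc_wn h, fn_wc] at hμ
  exact hμ

/-- `Dem` for functions of polynomials -/
theorem isDem_fn (c : ℕ) (h : c + 1 < m) (P : MvPolynomial (Fin m) ℤ) :
    IsDem c h (fn P) (fn (dem (lo c h) (hi c h) P)) := by
  refine ⟨fn_supp _, fn_supp _, fun μ => ?_⟩
  have hne := (lo_cov c h).lt.ne
  set i := lo c h with hi'
  set j := hi c h with hj'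
  set g := dem i j P with hg
  have halp : alp c h = Pi.single i 1 - Pi.single j 1 := rfl
  have hsw : ∀ ν : Wt m, sWt c h ν = ν ∘ Equiv.swap i j := fun ν => rfl
  by_cases hoth : ∀ x, x ≠ i → x ≠ j → 0 ≤ μ x
  · -- the base weight
    obtain ⟨μ0, hμ0⟩ : ∃ μ0 : Fin m →₀ ℕ, μ0 = ((wn μ).erase i).erase j := ⟨_, rfl⟩
    have h0i : μ0 i = 0 := by rw [hμ0, Finsupp.erase_ne hne, Finsupp.erase_same]
    have h0j : μ0 j = 0 := by rw [hμ0, Finsupp.erase_same]
    have h0x : ∀ x, x ≠ i → x ≠ j → (μ0 x : ℤ) = μ x := by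
      intro x hx hx'
      rw [hμ0, Finsupp.erase_ne hx', Finsupp.erase_ne hx, wn_apply]
      exact Int.toNat_of_nonneg (hoth x hx hx')
    -- weights with given coordinates
    have hw : ∀ (ν : Wt m) (x y : ℕ), (∀ z, z ≠ i → z ≠ j → ν z = μ z) → ν i = x → ν j = y →
        ν = wc (GMod.wxy μ0 i j x y) := by
      intro ν x y h1 h2 h3
      funext z
      show ν z = ((GMod.wxy μ0 i j x y z : ℕ) : ℤ)
      unfold GMod.wxy
      simp only [Finsupp.coe_add, Pi.add_apply, Finsupp.single_apply]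
      by_cases hzi : z = i
      · subst hzi
        rw [h2, h0i, if_pos rfl, if_neg hne.symm]
        push_cast; ring
      · by_cases hzj : z = j
        · subst hzj
          rw [h3, h0j, if_neg (Ne.symm hzi), if_pos rfl]
          push_cast; ring
        · rw [h1 z hzi hzj, if_neg (Ne.symm hzi), if_neg (Ne.symm hzj), add_zero, add_zero, h0x z hzi hzj]
    have e1 : ∀ z, z ≠ i → z ≠ j → (μ + alp c h) z = μ z := by
      intro z hz hz'
      rw [halp, Pi.add_apply, Pi.sub_apply, Pi.single_eq_of_ne hz, Pi.single_eq_of_ne hz']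
      ring
    have e2 : (μ + alp c h) i = μ i + 1 := by
      rw [halp, Pi.add_apply, Pi.sub_apply, Pi.single_eq_same, Pi.single_eq_of_ne hne]
      ring
    have e3 : (μ + alp c h) j = μ j - 1 := by
      rw [halp, Pi.add_apply, Pi.sub_apply, Pi.single_eq_same, Pi.single_eq_of_ne hne.symm]
      ring
    have e4 : ∀ z, z ≠ i → z ≠ j → sWt c h (μ + alp c h) z = μ z := by
      intro z hz hz'
      rw [hsw, Function.comp, Equiv.swap_apply_of_ne_of_ne hz hz', e1 z hz hz']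
    have e5 : sWt c h (μ + alp c h) i = μ j - 1 := by
      rw [hsw, Function.comp, Equiv.swap_apply_left, e3]
    have e6 : sWt c h (μ + alp c h) j = μ i + 1 := by
      rw [hsw, Function.comp, Equiv.swap_apply_right, e2]
    have zi : ∀ (Q : MvPolynomial (Fin m) ℤ) (ν : Wt m), ν i < 0 → fn Q ν = 0 :=
      fun Q ν hν => fn_neg Q (fun h => absurd (h i) (not_le.2 hν))
    have zj : ∀ (Q : MvPolynomial (Fin m) ℤ) (ν : Wt m), ν j < 0 → fn Q ν = 0 :=
      fun Q ν hν => fn_neg Q (fun h => absurd (h j) (not_le.2 hν))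
    rcases lt_trichotomy (μ i) (-1) with hi1 | hi1 | hi1
    · rw [zi _ μ (by omega), zi _ (μ + alp c h) (by omega), zi _ μ (by omega), zj _ _ (by omega)]
    · by_cases hj1 : 1 ≤ μ j
      · obtain ⟨y, hy⟩ : ∃ y : ℕ, μ j = y + 1 := ⟨(μ j - 1).toNat, by omega⟩
        rw [zi _ μ (by omega), zi _ μ (by omega),
          hw (sWt c h (μ + alp c h)) y 0 e4 (by rw [e5, hy]; ring) (by rw [e6, hi1]; norm_num),
          hw (μ + alp c h) 0 y e1 (by rw [e2, hi1]; norm_num) (by rw [e3, hy]; ring),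
          fn_wc, fn_wc, hg, ← GMod.dem_rec_zero hne h0j, ← sw_dem hne P, GMod.coeff_sw hne h0i h0j,
          sw_dem hne]
      · rw [zi _ μ (by omega), zi _ μ (by omega), zj _ _ (by omega), zi _ (sWt c h _) (by omega)]
    · obtain ⟨x, hx⟩ : ∃ x : ℕ, μ i = x := ⟨(μ i).toNat, by omega⟩
      rcases lt_trichotomy (μ j) 0 with hj1 | hj1 | hj1
      · rw [zj _ μ hj1, zj _ (μ + alp c h) (by omega), zj _ μ hj1, zi _ (sWt c h _) (by omega)]
      · rw [zj _ (μ + alp c h) (by omega), zi _ (sWt c h _) (by omega),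
          hw μ x 0 (fun _ _ _ => rfl) hx (by rw [hj1]; rfl), fn_wc, fn_wc, hg,
          GMod.dem_rec_zero hne h0j]
      · obtain ⟨y, hy⟩ : ∃ y : ℕ, μ j = y + 1 := ⟨(μ j - 1).toNat, by omega⟩
        rw [hw μ x (y + 1) (fun _ _ _ => rfl) hx (by rw [hy]; push_cast; ring),
          show (wc (GMod.wxy μ0 i j x (y + 1)) + alp c h : Wt m) = wc (GMod.wxy μ0 i j (x + 1) y) from by
            rw [← hw μ x (y + 1) (fun _ _ _ => rfl) hx (by rw [hy]; push_cast; ring)]
            exact hw (μ + alp c h) (x + 1) y e1 (by rw [e2, hx]; push_cast; ring) (by rw [e3, hy]; ring),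
          show sWt c h (wc (GMod.wxy μ0 i j (x + 1) y)) = wc (GMod.wxy μ0 i j y (x + 1)) from by
            rw [← hw (μ + alp c h) (x + 1) y e1 (by rw [e2, hx]; push_cast; ring) (by rw [e3, hy]; ring)]
            exact hw _ y (x + 1) e4 (by rw [e5, hy]; ring) (by rw [e6, hx]; push_cast; ring),
          fn_wc, fn_wc, fn_wc, fn_wc, hg, GMod.dem_rec hne h0i h0j]
  · push Not at hoth
    obtain ⟨z, hz, hz', hneg⟩ := hoth
    have k1 : ∀ (Q : MvPolynomial (Fin m) ℤ) (ν : Wt m), ν z < 0 → fn Q ν = 0 :=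
      fun Q ν hν => fn_neg Q (fun h => absurd (h z) (not_le.2 hν))
    have k2 : (μ + alp c h) z = μ z := by
      rw [halp, Pi.add_apply, Pi.sub_apply, Pi.single_eq_of_ne hz, Pi.single_eq_of_ne hz']
      ring
    have k3 : sWt c h (μ + alp c h) z = μ z := by
      rw [hsw, Function.comp, Equiv.swap_apply_of_ne_of_ne hz hz', k2]
    rw [k1 _ _ hneg, k1 _ _ (by rw [k2]; exact hneg), k1 _ _ hneg, k1 _ _ (by rw [k3]; exact hneg)]

/-- uniqueness of `Dem` -/
lemma isDem_unique {c : ℕ} {h : c + 1 < m} {f g g' : Chr m} (h1 : IsDem c h f g) (h2 : IsDem c h f g') :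
    g = g' := by
  have h3 : ∀ μ, (g - g') μ = (g - g') (μ + alp c h) := by
    intro μ
    have a1 := h1.2.2 μ
    have a2 := h2.2.2 μ
    simp only [Pi.sub_apply]
    linarith
  have h4 : ∀ (k : ℕ) μ, (g - g') μ = (g - g') (μ + k • alp c h) := by
    intro k
    induction k with
    | zero => intro μ; rw [zero_smul, add_zero]
    | succ k ih => intro μ; rw [ih μ, h3, succ_nsmul, add_assoc]
  have hfin : (g - g').support.Finite :=
    (h1.2.1.union h2.2.1).subset (Function.support_sub g g')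
  funext μ
  by_contra hc
  have h5 : ∀ k : ℕ, μ + k • alp c h ∈ (g - g').support := by
    intro k
    rw [Function.mem_support, ← h4 k μ]
    simpa [sub_eq_zero] using hc
  have hinj : Function.Injective (fun k : ℕ => μ + k • alp c h) := by
    intro a b hab
    have h6 := congrFun hab (lo c h)
    have h7 : alp c h (lo c h) = 1 := by
      show (Pi.single (lo c h) 1 - Pi.single (hi c h) 1 : Wt m) (lo c h) = 1
      rw [Pi.sub_apply, Pi.single_eq_same, Pi.single_eq_of_ne (lo_cov c h).lt.ne]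
      ring
    simp only [Pi.add_apply, Pi.smul_apply, h7] at h6
    simpa using h6
  exact Set.infinite_of_injective_forall_mem hinj h5 hfin

variable [FiniteDimensional K V]

/-- goodness on both sides -/
theorem good_iff {Z : Submodule K V} : ρ.Good Z ↔ ρ.toG.BSt Z ∧ ρ.toG.Good Z := by
  constructor
  · rintro ⟨h1, h2⟩
    have hB := ρ.bst_iff.1 h1
    refine ⟨hB, fun n a Y hR i j hij _ => ?_⟩
    obtain ⟨cs, -, -, -, rfl⟩ := Red.ofG ρ Z hR
    obtain ⟨c, hc, rfl, rfl⟩ := cov_lo hij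
    have h3 := h2 cs c hc
    rw [ρ.T_eq c hc, ch_eq_fn ρ (h1.Hw cs).st, ch_eq_fn ρ] at h3
    · exact fn_inj (isDem_unique h3 (isDem_fn c hc _))
    · rw [← ρ.T_eq c hc]
      exact ((h1.Hw cs).T c).st
  · rintro ⟨hB, hG⟩
    have h1 := ρ.bst_iff.2 hB
    refine ⟨h1, fun cs c hc => ?_⟩
    rw [← Hw_rdc ρ Z cs]
    have hr := rdc_red m cs
    have hR := Red.toG ρ Z hr
    have hst := ((h1.Hw (rdc m cs)).T c).st
    rw [ρ.T_eq c hc] at hst ⊢
    rw [ch_eq_fn ρ (h1.Hw _).st, ch_eq_fn ρ hst]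
    have key : ρ.toG.ch (ρ.toG.D (lo c hc) (hi c hc) (ρ.Hw (rdc m cs) Z)) =
        dem (lo c hc) (hi c hc) (ρ.toG.ch (ρ.Hw (rdc m cs) Z)) := by
      by_cases ha : Asc c hc (prodW m (rdc m cs))
      · exact hG _ _ _ hR _ _ (lo_cov c hc) ha
      · have h5 : (prodW m (rdc m cs)).symm (lo c hc) ≠ (prodW m (rdc m cs)).symm (hi c hc) :=
          fun h2 => (lo_cov c hc).lt.ne ((prodW m (rdc m cs)).symm.injective h2)
        have h6 := hR.stable (lo_cov c hc) (lt_of_le_of_ne (not_lt.1 ha) h5.symm)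
        rw [ρ.toG.D_eq_self h6, dem_of_sw (lo_cov c hc).lt.ne]
        exact ρ.toG.sw_ch (lo_cov c hc).lt.ne ((hR.bst hB).up _ _ (lo_cov c hc).lt) h6
    rw [key]
    exact isDem_fn c hc _

end Char

end

end Gao
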