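import Pool.Agent.GaoG.Br

/-!
# Bridge: twists

The Key Lemma for the twists of `Gao.GDefs`.
-/

set_option autoImplicit false
set_option linter.unusedSectionVars false

namespace Pool.Agent.GaoG

section Signs

variable {L : Type*} [LinearOrder L] {𝕜 : Type*} [Field 𝕜]

lemma sgn_adj {i j : L} (hij : i ⋖ j) {t : Finset L} (hi : i ∉ t) : sgn 𝕜 j t = sgn 𝕜 i t := by
  unfold sgn
  apply Finset.prod_congr rfl
  intro k hk
  have hki : k ≠ i := by rintro rfl; exact hi hk
  have : k < j ↔ k < i := by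
    constructor
    · intro h
      rcases lt_trichotomy k i with h1 | h1 | h1
      · exact h1
      · exact absurd h1 hki
      · exact absurd h (hij.2 h1)
    · intro h; exact h.trans hij.lt
  by_cases h : k < i
  · rw [if_pos h, if_pos (this.2 h)]
  · rw [if_neg h, if_neg (fun h2 => h (this.1 h2))]

variable [CharZero 𝕜]

lemma esg_adj {i j : L} (hij : i ⋖ j) {t : Finset L} (hj : j ∈ t) (hi : i ∉ t) : esg 𝕜 j i t = 1 := by
  unfold esg
  rw [sgn_adj hij hi, sgn_erase hj, if_neg (not_lt.2 hij.le), one_mul, sgn_sq]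

lemma esg_adj' {i j : L} (hij : i ⋖ j) {t : Finset L} (hi : i ∈ t) : esg 𝕜 i j t = 1 := by
  unfold esg
  rw [sgn_adj hij (Finset.notMem_erase i t), sgn_erase hi, if_neg (lt_irrefl i), one_mul, sgn_sq]

end Signs

namespace GMod

variable {L : Type*} [LinearOrder L] {𝕜 : Type*} [Field 𝕜] {V : Type*} [AddCommGroup V] [Module 𝕜 V]
  {V' : Type*} [AddCommGroup V'] [Module 𝕜 V']

/-- closures and equivariant maps -/
lemma map_D {G : GMod L 𝕜 V} {G' : GMod L 𝕜 V'} {i j : L} (φ : V →ₗ[𝕜] V')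
    (h : ∀ v, φ (G.E j i v) = G'.E j i (φ v)) (Y : Submodule 𝕜 V) :
    (G.D i j Y).map φ = G'.D i j (Y.map φ) := by
  apply le_antisymm
  · rw [Submodule.map_le_iff_le_comap]
    have key : ∀ v ∈ (G'.D i j (Y.map φ)).comap φ, G.E j i v ∈ (G'.D i j (Y.map φ)).comap φ := by
      intro v hv
      rw [Submodule.mem_comap] at hv ⊢
      rw [h]
      unfold D at hv ⊢
      rw [Submodule.mem_sInf] at hv ⊢
      intro K hK
      exact hK.2 _ (hv K hK)
    unfold D
    apply sInf_le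
    refine ⟨?_, ?_⟩
    · rw [← Submodule.map_le_iff_le_comap]
      exact le_sInf (fun _ hK => hK.1)
    · exact key
  · unfold D
    apply sInf_le
    refine ⟨Submodule.map_mono (le_sInf (fun _ hK => hK.1)), ?_⟩
    rintro _ ⟨v, hv, rfl⟩
    rw [← h]
    apply Submodule.mem_map_of_mem
    rw [SetLike.mem_coe, Submodule.mem_sInf] at hv
    rw [Submodule.mem_sInf]
    intro K hK
    exact hK.2 _ (hv K hK)

end GMod

end Pool.Agent.GaoG

namespace Gao

open Finset Module Pool.Agent.GaoG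

noncomputable section

variable {K V : Type*} [Field K] [CharZero K] [AddCommGroup V] [Module K V] {m : ℕ}

/-- words acting on submodules of a `GMod` -/
def Hg {V : Type*} [AddCommGroup V] [Module K V] (G : GMod (Fin m) K V) : List ℕ → Submodule K V → Submodule K V
  | [], Y => Y
  | c :: cs, Y => if h : c + 1 < m then G.D (lo c h) (hi c h) (Hg G cs Y) else Hg G cs Y

lemma Hg_cons {G : GMod (Fin m) K V} {c : ℕ} (h : c + 1 < m) (cs : List ℕ) (Y : Submodule K V) :
    Hg G (c :: cs) Y = G.D (lo c h) (hi c h) (Hg G cs Y) := by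
  show (if h : c + 1 < m then G.D (lo c h) (hi c h) (Hg G cs Y) else Hg G cs Y) = _
  rw [dif_pos h]

lemma Hg_cons_triv {G : GMod (Fin m) K V} {c : ℕ} (h : ¬ c + 1 < m) (cs : List ℕ) (Y : Submodule K V) :
    Hg G (c :: cs) Y = Hg G cs Y := by
  show (if h : c + 1 < m then G.D (lo c h) (hi c h) (Hg G cs Y) else Hg G cs Y) = _
  rw [dif_neg h]

lemma Hw_eq_Hg (ρ : GLRep K V m) (cs : List ℕ) (Z : Submodule K V) : ρ.Hw cs Z = Hg ρ.toG cs Z := by
  induction cs with
  | nil => rfl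
  | cons c cs ih =>
    rw [ρ.Hw_cons, ih]
    by_cases h : c + 1 < m
    · rw [ρ.T_eq c h, Hg_cons h]
    · rw [ρ.T_triv h, Hg_cons_triv h]

/-- reduced words in a `GMod` -/
lemma Red.toHg (G : GMod (Fin m) K V) (Z : Submodule K V) {cs : List ℕ} (h : Red m cs) :
    G.Red Z cs.length ((prodW m cs).symm : Fin m → Fin m) (Hg G cs Z) := by
  induction h with
  | nil => exact GMod.Red.refl
  | cons c h cs hr ha ih =>
    have := GMod.Red.step cs.length _ _ (lo c h) (hi c h) (lo_cov c h) ih ha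
    rw [prodW_symm_cons h, Hg_cons h]
    exact this

lemma Red.ofHg (G : GMod (Fin m) K V) (Z : Submodule K V) {n : ℕ} {a : Fin m → Fin m} {Y : Submodule K V}
    (h : G.Red Z n a Y) : ∃ cs, Red m cs ∧ cs.length = n ∧
      a = ((prodW m cs).symm : Fin m → Fin m) ∧ Y = Hg G cs Z := by
  induction h with
  | refl => exact ⟨[], Red.nil, rfl, rfl, rfl⟩
  | step n a Y i j hij h ha ih =>
    obtain ⟨cs, hcs, hl, hac, hY⟩ := ih
    obtain ⟨c, hc, rfl, rfl⟩ := cov_lo hij
    refine ⟨c :: cs, Red.cons c hc cs hcs ?_, by rw [List.length_cons, hl], ?_, ?_⟩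
    · show (prodW m cs).symm (lo c hc) < (prodW m cs).symm (hi c hc)
      rw [hac] at ha
      exact ha
    · rw [prodW_symm_cons hc, hac]
    · rw [Hg_cons hc, hY]

theorem Hg_rdc (G : GMod (Fin m) K V) (Z : Submodule K V) (cs : List ℕ) :
    Hg G (rdc m cs) Z = Hg G cs Z := by
  induction cs with
  | nil => rfl
  | cons c cs ih =>
    unfold rdc
    split_ifs with h1 h2
    · rw [Hg_cons h1, Hg_cons h1, ih]
    · rw [Hg_cons h1, ← ih]
      symm
      apply G.D_eq_self
      apply (Red.toHg G Z (rdc_red m cs)).stable (lo_cov c h1)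
      have h3 : (prodW m (rdc m cs)).symm (lo c h1) ≠ (prodW m (rdc m cs)).symm (hi c h1) :=
        fun h4 => (lo_cov c h1).lt.ne ((prodW m (rdc m cs)).symm.injective h4)
      exact lt_of_le_of_ne (not_lt.1 h2) h3.symm
    · rw [Hg_cons_triv h1, ih]

/-! ### the state function -/

/-- The state function: the leading space of `Hw cs (e_{ω_t} ⊗ Z)` at `l` is `Hw ds Z`, `some ds = stF m t cs l`,
and zero for `none`. -/
def stF (m t : ℕ) : List ℕ → Finset (Fin m) → Option (List ℕ)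
  | [], l => if l = ini m t then some [] else none
  | c :: cs, l => if h : c + 1 < m then
      (if lo c h ∈ l ∧ hi c h ∉ l then stF m t cs l
        else if hi c h ∈ l ∧ lo c h ∉ l then (stF m t cs (swS c h l)).map (fun ds => c :: ds)
        else (stF m t cs l).map (fun ds => c :: ds))
      else stF m t cs l

/-- value of an optional word -/
def oHw (ρ : GLRep K V m) (Z : Submodule K V) (o : Option (List ℕ)) : Submodule K V :=
  o.elim ⊥ (fun ds => ρ.Hw ds Z)

@[simp] lemma oHw_none (ρ : GLRep K V m) (Z : Submodule K V) : oHw ρ Z none = ⊥ := rfl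
@[simp] lemma oHw_some (ρ : GLRep K V m) (Z : Submodule K V) (ds : List ℕ) :
    oHw ρ Z (some ds) = ρ.Hw ds Z := rfl

lemma T_bot (ρ : GLRep K V m) (c : ℕ) : ρ.T c ⊥ = ⊥ := by
  unfold GLRep.T
  simp

lemma oHw_map (ρ : GLRep K V m) (Z : Submodule K V) (c : ℕ) (o : Option (List ℕ)) :
    oHw ρ Z (o.map (fun ds => c :: ds)) = ρ.T c (oHw ρ Z o) := by
  cases o with
  | none => rw [Option.map_none, oHw_none, T_bot]
  | some ds => rw [Option.map_some, oHw_some, oHw_some, ρ.Hw_cons]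

lemma ini_lower (m t : ℕ) : ∀ x ∈ ini m t, ∀ y, y < x → y ∈ ini m t := by
  intro x hx y hy
  unfold ini at *
  rw [Finset.mem_filter] at *
  exact ⟨Finset.mem_univ _, lt_trans (Fin.lt_def.1 hy) hx.2⟩

lemma card_ini {m t : ℕ} (h : t ≤ m) : (ini m t).card = t := by
  unfold ini
  have : (univ.filter (fun i : Fin m => i.val < t)).card = t := by
    rw [Fin.card_filter_val_lt]
    exact min_eq_right h
  exact this

lemma rk_lt {l l' : Finset (Fin m)} : Tw.rk l < Tw.rk l' ↔ toColex l < toColex l' := by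
  unfold Tw.rk
  have h1 : ∀ s : Finset (Fin m), ∑ i ∈ s, 2 ^ (i : ℕ) = ∑ i ∈ s.image Fin.val, 2 ^ i := by
    intro s
    rw [Finset.sum_image]
    intro a _ b _ h
    exact Fin.ext h
  rw [h1, h1, Finset.geomSum_lt_geomSum_iff_toColex_lt_toColex le_rfl]
  exact Finset.Colex.toColex_image_lt_toColex_image Fin.val_strictMono

lemma swS_eq (c : ℕ) (h : c + 1 < m) (l : Finset (Fin m)) : swS c h l = st (lo c h) (hi c h) l := rfl

namespace Tw

variable {ρ : GLRep K V m} (τ : Tw ρ)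

/-- all coefficients -/
def psi : V →ₗ[K] (Finset (Fin m) → V) := LinearMap.pi τ.ext

lemma psi_apply (y : V) (l : Finset (Fin m)) : τ.psi y l = τ.ext l y := rfl

lemma psi_f (c : ℕ) (h : c + 1 < m) (y : V) :
    τ.psi (ρ.toG.E (hi c h) (lo c h) y) = ρ.toG.ext.E (hi c h) (lo c h) (τ.psi y) := by
  have hcov := lo_cov c h
  have hf : ρ.f c = ρ.toG.E (hi c h) (lo c h) := by
    unfold GLRep.f; rw [dif_pos h]; rfl
  funext l
  rw [psi_apply, ← hf, τ.ext_f c h l y, GMod.ext_E_apply _ hcov.lt.ne', ← hf]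
  congr 1
  by_cases hc : hi c h ∈ l ∧ lo c h ∉ l
  · rw [if_pos hc, if_pos hc, esg_adj hcov hc.1 hc.2, one_smul, ← st_eq hcov.lt.ne' hc.1 hc.2, st_comm]
    rfl
  · rw [if_neg hc, if_neg hc]

lemma psi_p (ν : Fin m →₀ ℕ) (y : V) : τ.psi (ρ.toG.p ν y) = ρ.toG.ext.p ν (τ.psi y) := by
  classical
  funext l
  rw [psi_apply, ρ.toG_p, τ.pr_ext, GMod.ext_p_apply, psi_apply]
  by_cases h : one l ≤ ν
  · rw [if_pos h, ρ.toG_p]
    have : wc ν - wtS l = wc (ν - one l) := by
      funext i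
      show (ν i : ℤ) - (if i ∈ l then 1 else 0) = (((ν - one l) i : ℕ) : ℤ)
      have h1 := h i
      rw [Finsupp.tsub_apply]
      rw [one_apply] at h1 ⊢
      split_ifs at h1 ⊢ <;> omega
    rw [this]
  · rw [if_neg h, ρ.π_neg]
    · rfl
    · intro h2
      apply h
      intro i
      have h3 : (0 : ℤ) ≤ (ν i : ℤ) - (if i ∈ l then 1 else 0) := h2 i
      rw [one_apply]
      split_ifs at h3 ⊢ <;> omega

lemma mem_tot {t : ℕ} {y : V} : y ∈ τ.tot t ↔
    y = ∑ l ∈ univ.filter (fun l : Finset (Fin m) => l.card = t), τ.ins l (τ.ext l y) := Iff.rfl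

lemma psi_inj {t : ℕ} {y : V} (hy : y ∈ τ.tot t) (h : τ.psi y = 0) : y = 0 := by
  rw [mem_tot] at hy
  rw [hy]
  apply Finset.sum_eq_zero
  intro l _
  have : τ.ext l y = 0 := congrFun h l
  rw [this, map_zero]

lemma ins_mem_tot {t : ℕ} {l : Finset (Fin m)} (hl : l.card = t) {z : V} (hz : z ∈ τ.V') :
    τ.ins l z ∈ τ.tot t := by
  rw [mem_tot, Finset.sum_eq_single l]
  · rw [τ.ext_ins l l z hz, if_pos rfl]
  · intro b _ hb
    rw [τ.ext_ins b l z hz, if_neg hb, map_zero]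
  · intro h
    exact (h (Finset.mem_filter.2 ⟨Finset.mem_univ _, hl⟩)).elim

lemma f_tot {t : ℕ} (c : ℕ) {y : V} (hy : y ∈ τ.tot t) : ρ.f c y ∈ τ.tot t := by
  by_cases h : c + 1 < m
  · rw [mem_tot] at hy
    rw [hy, map_sum]
    apply Submodule.sum_mem
    intro l hl
    have hcard := (Finset.mem_filter.1 hl).2
    rw [τ.f_ins c h l _ (τ.ext_mem l y)]
    apply Submodule.add_mem
    · split_ifs
      · exact τ.ins_mem_tot (by unfold swS; rw [Finset.card_map, hcard]) (τ.ext_mem l y)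
      · exact Submodule.zero_mem _
    · apply τ.ins_mem_tot hcard
      have hf : ρ.f c = ρ.E (lo c h) (hi c h) := by unfold GLRep.f; rw [dif_pos h]
      rw [hf]
      exact τ.stE _ _ _ (τ.ext_mem l y)
  · have hf : ρ.f c = 0 := by unfold GLRep.f; rw [dif_neg h]
    rw [hf]; exact Submodule.zero_mem _

lemma T_le_tot {t : ℕ} (c : ℕ) {Y : Submodule K V} (hY : Y ≤ τ.tot t) : ρ.T c Y ≤ τ.tot t := by
  unfold GLRep.T
  apply iSup_le
  intro k
  rintro _ ⟨y, hy, rfl⟩
  induction k with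
  | zero => simpa using hY hy
  | succ k ih => rw [pow_succ', Module.End.mul_apply]; exact τ.f_tot c ih

lemma Hw_le_tot {t : ℕ} (cs : List ℕ) {Y : Submodule K V} (hY : Y ≤ τ.tot t) : ρ.Hw cs Y ≤ τ.tot t := by
  induction cs with
  | nil => exact hY
  | cons c cs ih => exact τ.T_le_tot c ih

lemma twist_le_tot {t : ℕ} (ht : t ≤ m) {Z : Submodule K V} (hZ : Z ≤ τ.V') : τ.twist t Z ≤ τ.tot t := by
  rintro _ ⟨z, hz, rfl⟩
  exact τ.ins_mem_tot (card_ini ht) (hZ hz)

lemma psi_twist {t : ℕ} {Z : Submodule K V} (hZ : Z ≤ τ.V') :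
    (τ.twist t Z).map τ.psi = GMod.cz (ini m t) Z := by
  ext g
  constructor
  · rintro ⟨_, ⟨z, hz, rfl⟩, rfl⟩
    refine ⟨?_, fun u hu => ?_⟩
    · rw [psi_apply, τ.ext_ins _ _ z (hZ hz), if_pos rfl]; exact hz
    · rw [psi_apply, τ.ext_ins _ _ z (hZ hz), if_neg hu]
  · rintro ⟨h1, h2⟩
    refine ⟨τ.ins (ini m t) (g (ini m t)), ⟨_, h1, rfl⟩, ?_⟩
    funext l
    rw [psi_apply, τ.ext_ins _ _ _ (hZ h1)]
    by_cases hl : l = ini m t
    · rw [if_pos hl, hl]
    · rw [if_neg hl, h2 l hl]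

lemma psi_T (c : ℕ) (h : c + 1 < m) (Y : Submodule K V) :
    (ρ.T c Y).map τ.psi = ρ.toG.ext.D (lo c h) (hi c h) (Y.map τ.psi) := by
  rw [ρ.T_eq c h]
  exact GMod.map_D τ.psi (τ.psi_f c h) Y

lemma psi_Hw (cs : List ℕ) (Y : Submodule K V) :
    (ρ.Hw cs Y).map τ.psi = Hg ρ.toG.ext cs (Y.map τ.psi) := by
  induction cs with
  | nil => rfl
  | cons c cs ih =>
    rw [ρ.Hw_cons]
    by_cases h : c + 1 < m
    · rw [τ.psi_T c h, ih, Hg_cons h]
    · rw [ρ.T_triv h, ih, Hg_cons_triv h]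

lemma lead_eq_led (Y : Submodule K V) (l : Finset (Fin m)) : τ.lead Y l = led (Y.map τ.psi) l := by
  ext z
  constructor
  · rintro ⟨y, hy, rfl, h⟩
    exact ⟨τ.psi y, ⟨y, hy, rfl⟩, rfl, fun u hu => h u (rk_lt.2 hu)⟩
  · rintro ⟨_, ⟨y, hy, rfl⟩, rfl, h⟩
    exact ⟨y, hy, rfl, fun u hu => h u (rk_lt.1 hu)⟩

/-- the twist is `b`-stable -/
lemma twist_st {t : ℕ} {Z : Submodule K V} (hZ : ρ.toGrading.Stable Z) (hV : Z ≤ τ.V') :
    ρ.toGrading.Stable (τ.twist t Z) := by
  rintro μ _ ⟨z, hz, rfl⟩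
  rw [τ.pr_ins _ μ z (hV hz)]
  exact ⟨_, hZ _ z hz, rfl⟩

lemma twist_e {t : ℕ} {Z : Submodule K V} (hZ : ρ.BSt Z) (hV : Z ≤ τ.V') (c : ℕ) :
    ∀ y ∈ τ.twist t Z, ρ.e c y ∈ τ.twist t Z := by
  rintro _ ⟨z, hz, rfl⟩
  by_cases h : c + 1 < m
  · rw [τ.e_ins c h _ z (hV hz), if_neg, zero_add]
    · refine ⟨ρ.e c z, ?_, rfl⟩
      unfold GLRep.e
      rw [dif_pos h]
      exact hZ.e _ _ (lo_cov c h).lt z hz
    · rintro ⟨h1, h2⟩
      exact h2 (ini_lower m t _ h1 _ (lo_cov c h).lt)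
  · have he : ρ.e c = 0 := by unfold GLRep.e; rw [dif_neg h]
    rw [he]; exact Submodule.zero_mem _

end Tw

/-- stability under the simple raising operators suffices -/
lemma bst_of_simple {ρ : GLRep K V m} {Y : Submodule K V} (hst : ρ.toGrading.Stable Y)
    (he : ∀ c, ∀ y ∈ Y, ρ.e c y ∈ Y) : ρ.BSt Y := by
  refine ⟨hst, ?_⟩
  have key : ∀ (d : ℕ) (i j : Fin m), i.val = j.val + d + 1 → ∀ y ∈ Y, ρ.E i j y ∈ Y := by
    intro d
    induction d with
    | zero =>
      intro i j hij y hy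
      have h : j.val + 1 < m := by have := i.2; omega
      have e1 : ρ.e j.val = ρ.E i j := by
        unfold GLRep.e
        rw [dif_pos h]
        have e2 : hi j.val h = i := Fin.ext (by show j.val + 1 = i.val; omega)
        rw [e2]
      rw [← e1]
      exact he _ y hy
    | succ d ih =>
      intro i j hij y hy
      have hk : j.val + 1 < m := by have := i.2; omega
      set k : Fin m := ⟨j.val + 1, hk⟩ with hkd
      have h1 := ρ.comm' i k k j y
      have hji : ¬ j = i := by rintro rfl; omega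
      rw [if_neg hji, if_pos rfl, zero_sub] at h1
      have e1 : ρ.E i j y = ρ.E k j (ρ.E i k y) - ρ.E i k (ρ.E k j y) := by
        rw [← neg_eq_iff_eq_neg.2 h1.symm.symm]
        abel
      rw [e1]
      have hkj : ∀ y ∈ Y, ρ.E k j y ∈ Y := by
        intro y hy
        have e2 : ρ.e j.val = ρ.E k j := by
          unfold GLRep.e
          rw [dif_pos hk]
        rw [← e2]
        exact he _ y hy
      have hik : ∀ y ∈ Y, ρ.E i k y ∈ Y := ih i k (by rw [hkd]; show i.val = j.val + 1 + d + 1; omega)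
      exact Submodule.sub_mem _ (hkj _ (hik y hy)) (hik _ (hkj y hy))
  intro i j hij y hy
  have h1 : j.val < i.val := hij
  exact key (i.val - j.val - 1) i j (by omega) y hy

namespace Tw

variable {ρ : GLRep K V m} (τ : Tw ρ)

lemma twist_bst {t : ℕ} {Z : Submodule K V} (hZ : ρ.BSt Z) (hV : Z ≤ τ.V') : ρ.BSt (τ.twist t Z) :=
  bst_of_simple (τ.twist_st hZ.st hV) (τ.twist_e hZ hV)

variable [FiniteDimensional K V]

lemma finrank_psi {t : ℕ} {Y : Submodule K V} (hY : Y ≤ τ.tot t) :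
    finrank K (Y.map τ.psi) = finrank K Y := by
  have h2 : (Y.map τ.psi) = LinearMap.range (τ.psi.domRestrict Y) := by
    rw [LinearMap.range_domRestrict]
  rw [h2]
  apply LinearMap.finrank_range_of_inj
  intro a b hab
  have h3 : τ.psi (a.1 - b.1) = 0 := by
    rw [map_sub, sub_eq_zero]
    exact hab
  exact Subtype.ext (sub_eq_zero.1 (τ.psi_inj (hY (Y.sub_mem a.2 b.2)) h3))

lemma ch_psi {t : ℕ} {Y : Submodule K V} (hY : Y ≤ τ.tot t) (hst : ρ.toGrading.Stable Y) :
    ρ.toG.ch Y = ρ.toG.ext.ch (Y.map τ.psi) := by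
  ext μ
  rw [GMod.coeff_ch, GMod.coeff_ch]
  have h1 : (Y.map τ.psi) ⊓ ρ.toG.ext.W μ = (Y ⊓ ρ.toG.W μ).map τ.psi := by
    ext g
    constructor
    · rintro ⟨⟨y, hy, rfl⟩, h2⟩
      have h3 : ρ.toG.ext.p μ (τ.psi y) = τ.psi y := h2
      rw [← τ.psi_p] at h3
      exact ⟨ρ.toG.p μ y, ⟨hst _ y hy, ρ.toG.p_mem_W μ y⟩, h3⟩
    · rintro ⟨y, ⟨hy, h2⟩, rfl⟩
      refine ⟨⟨y, hy, rfl⟩, ?_⟩
      show ρ.toG.ext.p μ (τ.psi y) = τ.psi y
      rw [← τ.psi_p]
      have h3 : ρ.toG.p μ y = y := h2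
      rw [h3]
  rw [h1, τ.finrank_psi ((inf_le_left).trans hY)]

/-- the twist of a good space is good -/
theorem good_twist {t : ℕ} (ht : t ≤ m) {Z : Submodule K V} (hZ : ρ.Good Z) (hV : Z ≤ τ.V') :
    ρ.Good (τ.twist t Z) := by
  obtain ⟨hB, hG⟩ := (good_iff ρ).1 hZ
  have hB2 := τ.twist_bst (t := t) hZ.1 hV
  have h1 := GMod.Good.cz ρ.toG hB hG (ini_lower m t)
  rw [good_iff]
  refine ⟨ρ.bst_iff.1 hB2, fun n a Y hR i j hij ha => ?_⟩
  obtain ⟨cs, hcs, -, rfl, rfl⟩ := Red.ofG ρ _ hR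
  have h2 := Red.toHg ρ.toG.ext (GMod.cz (ini m t) Z) hcs
  have h3 := h1 _ _ _ h2 i j hij ha
  obtain ⟨c, hc, rfl, rfl⟩ := cov_lo hij
  rw [← τ.psi_twist hV, ← τ.psi_Hw, ← τ.psi_T c hc] at h3
  have htot := τ.Hw_le_tot cs (τ.twist_le_tot ht hV)
  rw [← τ.ch_psi htot (hB2.Hw cs).st, ← τ.ch_psi (τ.T_le_tot c htot) ((hB2.Hw cs).T c).st] at h3
  rw [← ρ.T_eq c hc]
  exact h3

/-- **Key Lemma** -/
theorem lead_Hw {t : ℕ} {Z : Submodule K V} (hZ : ρ.Good Z) (hV : Z ≤ τ.V') (cs : List ℕ)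
    (l : Finset (Fin m)) : τ.lead (ρ.Hw cs (τ.twist t Z)) l = oHw ρ Z (stF m t cs l) := by
  obtain ⟨hB, hG⟩ := (good_iff ρ).1 hZ
  rw [lead_eq_led, psi_Hw, psi_twist τ hV]
  induction cs generalizing l with
  | nil =>
    show led (GMod.cz (ini m t) Z) l = oHw ρ Z (if l = ini m t then some [] else none)
    by_cases hl : l = ini m t
    · rw [if_pos hl, hl, GMod.led_cz]; rfl
    · rw [if_neg hl, GMod.led_cz_ne hl]; rfl
  | cons c cs ih =>
    by_cases h : c + 1 < m
    · obtain ⟨S, hS⟩ := GMod.key ρ.toG hB hG (ini_lower m t)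
        (Red.toHg ρ.toG.ext (GMod.cz (ini m t) Z) (rdc_red m cs))
      have hbst := (Red.toHg ρ.toG.ext (GMod.cz (ini m t) Z) (rdc_red m cs)).bst
        (GMod.cz_bst ρ.toG hB (ini_lower m t))
      have h1 := (GMod.key_step ρ.toG hB hG (ini_lower m t) hbst hS (lo_cov c h)).2 l
      rw [Hg_rdc] at h1
      rw [Hg_cons h, h1]
      unfold GMod.newled
      show _ = oHw ρ Z (if h : c + 1 < m then
        (if lo c h ∈ l ∧ hi c h ∉ l then stF m t cs l
          else if hi c h ∈ l ∧ lo c h ∉ l then (stF m t cs (swS c h l)).map (fun ds => c :: ds)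
          else (stF m t cs l).map (fun ds => c :: ds))
        else stF m t cs l)
      rw [dif_pos h]
      by_cases h2 : lo c h ∈ l ∧ hi c h ∉ l
      · rw [if_pos h2, if_pos h2, ih]
      · rw [if_neg h2, if_neg h2]
        by_cases h3 : hi c h ∈ l ∧ lo c h ∉ l
        · rw [if_pos h3, if_pos h3, oHw_map, ← ih, ρ.T_eq c h, swS_eq]
        · rw [if_neg h3, if_neg h3, oHw_map, ← ih, ρ.T_eq c h]
    · rw [Hg_cons_triv h, ih]
      show _ = oHw ρ Z (if h : c + 1 < m then
        (if lo c h ∈ l ∧ hi c h ∉ l then stF m t cs l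
          else if hi c h ∈ l ∧ lo c h ∉ l then (stF m t cs (swS c h l)).map (fun ds => c :: ds)
          else (stF m t cs l).map (fun ds => c :: ds))
        else stF m t cs l)
      rw [dif_neg h]

/-- dimensions -/
theorem finrank_Hw {t : ℕ} (ht : t ≤ m) {Z : Submodule K V} (hZ : ρ.Good Z) (hV : Z ≤ τ.V') (cs : List ℕ) :
    finrank K (ρ.Hw cs (τ.twist t Z)) = ∑ l, finrank K (oHw ρ Z (stF m t cs l)) := by
  rw [← τ.finrank_psi (τ.Hw_le_tot cs (τ.twist_le_tot ht hV)),
    finrank_lead (toColex : Finset (Fin m) → _) toColex.injective]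
  apply Finset.sum_congr rfl
  intro l _
  rw [← τ.lead_Hw hZ hV cs l, lead_eq_led]

/-- characters -/
theorem ch_Hw {t : ℕ} (ht : t ≤ m) {Z : Submodule K V} (hZ : ρ.Good Z) (hV : Z ≤ τ.V') (cs : List ℕ)
    (μ : Wt m) : ρ.ch (ρ.Hw cs (τ.twist t Z)) μ = ∑ l, ρ.ch (oHw ρ Z (stF m t cs l)) (μ - wtS l) := by
  have hB2 := τ.twist_bst (t := t) hZ.1 hV
  have hst : ∀ l, ρ.toGrading.Stable (oHw ρ Z (stF m t cs l)) := by
    intro l
    cases h : stF m t cs l with
    | none =>
      intro μ v hv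
      rw [oHw_none, Submodule.mem_bot] at hv ⊢
      rw [hv, map_zero]
    | some ds => exact (hZ.1.Hw ds).st
  by_cases hμ : ∀ i, 0 ≤ μ i
  · obtain ⟨ν, rfl⟩ : ∃ ν : Fin m →₀ ℕ, μ = wc ν := ⟨wn μ, (wc_wn hμ).symm⟩
    rw [ch_wc ρ (hB2.Hw cs).st, τ.ch_psi (τ.Hw_le_tot cs (τ.twist_le_tot ht hV)) (hB2.Hw cs).st,
      GMod.ch_ext, MvPolynomial.coeff_sum]
    · apply Finset.sum_congr rfl
      intro l _
      rw [← lead_eq_led, τ.lead_Hw hZ hV cs l, xs_eq, MvPolynomial.coeff_monomial_mul']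
      by_cases h : one l ≤ ν
      · rw [if_pos h, one_mul, ← ch_wc ρ (hst l)]
        congr 1
        funext i
        show (((ν - one l) i : ℕ) : ℤ) = (ν i : ℤ) - (if i ∈ l then 1 else 0)
        have h1 := h i
        rw [Finsupp.tsub_apply]
        rw [one_apply] at h1 ⊢
        split_ifs at h1 ⊢ <;> omega
      · rw [if_neg h, ch_neg]
        intro h2
        apply h
        intro i
        have h3 : (0 : ℤ) ≤ (ν i : ℤ) - (if i ∈ l then 1 else 0) := h2 i
        rw [one_apply]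
        split_ifs at h3 ⊢ <;> omega
    · intro ν' v hv
      rw [τ.psi_Hw, ← τ.psi_Hw] at hv ⊢
      obtain ⟨y, hy, rfl⟩ := hv
      rw [← τ.psi_p]
      exact ⟨_, (hB2.Hw cs).st _ y hy, rfl⟩
  · rw [ch_neg ρ _ hμ]
    symm
    apply Finset.sum_eq_zero
    intro l _
    apply ch_neg
    intro h2
    apply hμ
    intro i
    have h3 : (0 : ℤ) ≤ μ i - (if i ∈ l then 1 else 0) := h2 i
    split_ifs at h3 <;> omega

end Tw

/-! ### properties of the state function -/

lemma swS_swS (c : ℕ) (h : c + 1 < m) (l : Finset (Fin m)) : swS c h (swS c h l) = l := st_st _ _ l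

lemma map_prodW_cons {c : ℕ} (h : c + 1 < m) (cs : List ℕ) (ω : Finset (Fin m)) :
    ω.map (prodW m (c :: cs)).toEmbedding = swS c h (ω.map (prodW m cs).toEmbedding) := by
  rw [prodW_cons, sc_eq h]
  unfold swS
  rw [Finset.map_map]
  rfl

lemma sc_triv {c : ℕ} (h : ¬ c + 1 < m) : sc m c = 1 := by
  unfold sc; rw [dif_neg h]

lemma stF_cons {t c : ℕ} (h : c + 1 < m) (cs : List ℕ) (l : Finset (Fin m)) : stF m t (c :: cs) l =
    (if lo c h ∈ l ∧ hi c h ∉ l then stF m t cs l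
        else if hi c h ∈ l ∧ lo c h ∉ l then (stF m t cs (swS c h l)).map (fun ds => c :: ds)
        else (stF m t cs l).map (fun ds => c :: ds)) := by
  show (if h : c + 1 < m then
        (if lo c h ∈ l ∧ hi c h ∉ l then stF m t cs l
          else if hi c h ∈ l ∧ lo c h ∉ l then (stF m t cs (swS c h l)).map (fun ds => c :: ds)
          else (stF m t cs l).map (fun ds => c :: ds))
        else stF m t cs l) = _
  rw [dif_pos h]

lemma stF_cons_triv {t c : ℕ} (h : ¬ c + 1 < m) (cs : List ℕ) (l : Finset (Fin m)) :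
    stF m t (c :: cs) l = stF m t cs l := by
  show (if h : c + 1 < m then
        (if lo c h ∈ l ∧ hi c h ∉ l then stF m t cs l
          else if hi c h ∈ l ∧ lo c h ∉ l then (stF m t cs (swS c h l)).map (fun ds => c :: ds)
          else (stF m t cs l).map (fun ds => c :: ds))
        else stF m t cs l) = _
  rw [dif_neg h]

/-- a state at `l` maps `ω_t` to `l` -/
theorem stF_some {t : ℕ} (cs : List ℕ) : ∀ (l : Finset (Fin m)) (ds : List ℕ),
    stF m t cs l = some ds → l = (ini m t).map (prodW m ds).toEmbedding := by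
  induction cs with
  | nil =>
    intro l ds h
    have h' : (if l = ini m t then some [] else none) = some ds := h
    split_ifs at h' with h1
    rw [Option.some_inj] at h'
    subst h'
    rw [h1]
    ext x
    rw [Finset.mem_map_equiv]
    rfl
  | cons c cs ih =>
    intro l ds hl
    by_cases h : c + 1 < m
    · rw [stF_cons h] at hl
      by_cases h2 : lo c h ∈ l ∧ hi c h ∉ l
      · rw [if_pos h2] at hl
        exact ih l ds hl
      · rw [if_neg h2] at hl
        by_cases h3 : hi c h ∈ l ∧ lo c h ∉ l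
        · rw [if_pos h3] at hl
          obtain ⟨ds', hd, rfl⟩ := Option.map_eq_some_iff.1 hl
          rw [map_prodW_cons h, ← ih _ _ hd, swS_swS]
        · rw [if_neg h3] at hl
          obtain ⟨ds', hd, rfl⟩ := Option.map_eq_some_iff.1 hl
          rw [map_prodW_cons h, ← ih _ _ hd, swS_eq, st_self]
          constructor
          · intro h4; by_contra h5; exact h2 ⟨h4, h5⟩
          · intro h4; by_contra h5; exact h3 ⟨h4, h5⟩
    · rw [stF_cons_triv h] at hl
      exact ih l ds hl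

lemma card_of_stF {t : ℕ} (ht : t ≤ m) {cs : List ℕ} {l : Finset (Fin m)} (h : stF m t cs l ≠ none) :
    l.card = t := by
  obtain ⟨ds, hd⟩ := Option.ne_none_iff_exists'.1 h
  rw [stF_some cs l ds hd, Finset.card_map, card_ini ht]

/-- the top state -/
theorem stF_top {t : ℕ} {cs : List ℕ} (hr : Red m cs) :
    stF m t cs ((ini m t).map (prodW m cs).toEmbedding) = some cs ∧
      ∀ l, stF m t cs l ≠ none → toColex l ≤ toColex ((ini m t).map (prodW m cs).toEmbedding) := by
  induction hr with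
  | nil =>
    have e : (ini m t).map (prodW m []).toEmbedding = ini m t := by
      ext x
      rw [Finset.mem_map_equiv]
      rfl
    rw [e]
    constructor
    · show (if ini m t = ini m t then some [] else none) = some []
      rw [if_pos rfl]
    · intro l hl
      have hl' : (if l = ini m t then some [] else none : Option (List ℕ)) ≠ none := hl
      split_ifs at hl' with h1
      · rw [h1]
      · exact absurd rfl hl'
  | cons c h cs hr ha ih =>
    obtain ⟨ih1, ih2⟩ := ih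
    set t0 := (ini m t).map (prodW m cs).toEmbedding with ht0
    have hmem : ∀ x, x ∈ t0 ↔ (prodW m cs).symm x ∈ ini m t := by
      intro x
      rw [ht0, Finset.mem_map_equiv]
    have hji : hi c h ∈ t0 → lo c h ∈ t0 := by
      rw [hmem, hmem]
      exact fun h1 => ini_lower m t _ h1 _ ha
    have hle : toColex t0 ≤ toColex (swS c h t0) := by
      by_cases hc : lo c h ∈ t0 ∧ hi c h ∉ t0
      · exact (st_gt (lo_cov c h).lt hc.1 hc.2).le
      · rw [swS_eq, st_self]
        constructor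
        · intro h1; by_contra h2; exact hc ⟨h1, h2⟩
        · exact hji
    rw [map_prodW_cons h]
    constructor
    · rw [stF_cons h, if_neg, swS_swS, ih1, Option.map_some]
      · by_cases h2 : hi c h ∈ swS c h t0 ∧ lo c h ∉ swS c h t0
        · rw [if_pos h2]
        · rw [if_neg h2]
          have e2 : swS c h t0 = t0 := by
            rw [swS_eq, mem_st_i, mem_st_j] at h2
            rw [swS_eq]
            apply st_self
            constructor
            · intro h4; by_contra h5; exact h2 ⟨h4, h5⟩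
            · exact hji
          rw [e2, ih1, Option.map_some]
      · rw [swS_eq, mem_st_i, mem_st_j]
        exact fun h1 => h1.2 (hji h1.1)
    · intro l hl
      rw [stF_cons h] at hl
      by_cases h2 : lo c h ∈ l ∧ hi c h ∉ l
      · rw [if_pos h2] at hl
        exact (ih2 l hl).trans hle
      · rw [if_neg h2] at hl
        by_cases h3 : hi c h ∈ l ∧ lo c h ∉ l
        · rw [if_pos h3] at hl
          have h4 : stF m t cs (swS c h l) ≠ none := by
            intro h5; rw [h5] at hl; exact hl rfl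
          have h6 := ih2 _ h4
          by_cases hc : lo c h ∈ t0 ∧ hi c h ∉ t0
          · have := st_le (lo_cov c h) hc.1 hc.2 h6
            rw [swS_eq, st_st] at this
            exact this
          · have hiff : lo c h ∈ t0 ↔ hi c h ∈ t0 := by
              constructor
              · intro h1; by_contra h2; exact hc ⟨h1, h2⟩
              · exact hji
            have := st_le' (lo_cov c h) hiff h6
            rw [swS_eq, st_st] at this
            exact this.trans hle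
        · rw [if_neg h3] at hl
          have h4 : stF m t cs l ≠ none := by
            intro h5; rw [h5] at hl; exact hl rfl
          exact (ih2 l h4).trans hle

lemma rk_le {l l' : Finset (Fin m)} : Tw.rk l ≤ Tw.rk l' ↔ toColex l ≤ toColex l' := by
  rw [← not_lt, ← not_lt, rk_lt]

/-- `Hw` of a good space is good -/
lemma GLRep.Good.Hw {ρ : GLRep K V m} {Z : Submodule K V} (hZ : ρ.Good Z) (cs : List ℕ) :
    ρ.Good (ρ.Hw cs Z) := by
  refine ⟨hZ.1.Hw cs, fun ds c h => ?_⟩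
  have := hZ.2 (ds ++ cs) c h
  rw [ρ.Hw_append] at this
  exact this

lemma GLRep.Good.T {ρ : GLRep K V m} {Z : Submodule K V} (hZ : ρ.Good Z) (c : ℕ) : ρ.Good (ρ.T c Z) :=
  hZ.Hw [c]

lemma T_of_zero {ρ : GLRep K V m} {Z : Submodule K V} (hf : ∀ c, ∀ z ∈ Z, ρ.f c z = 0) (c : ℕ) :
    ρ.T c Z = Z := by
  apply le_antisymm
  · unfold GLRep.T
    apply iSup_le
    intro k
    rintro _ ⟨z, hz, rfl⟩
    rcases k with _ | k
    · simpa using hz
    · rw [pow_succ, Module.End.mul_apply, hf c z hz, map_zero]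
      exact Z.zero_mem
  · unfold GLRep.T
    intro z hz
    exact Submodule.mem_iSup_of_mem 0 ⟨z, hz, by simp⟩

/-- spaces killed by everything, of weight zero, are good -/
theorem good_of_zero {ρ : GLRep K V m} {Z : Submodule K V} (hf : ∀ c, ∀ z ∈ Z, ρ.f c z = 0)
    (he : ∀ c, ∀ z ∈ Z, ρ.e c z = 0) (h0 : ∀ z ∈ Z, ρ.π 0 z = z) : ρ.Good Z := by
  have hst : ρ.toGrading.Stable Z := by
    intro μ z hz
    rw [← h0 z hz, ← Module.End.mul_apply, ρ.mul]
    split_ifs with h
    · rw [h, h0 z hz]; exact hz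
    · exact Z.zero_mem
  refine ⟨bst_of_simple hst (fun c z hz => by rw [he c z hz]; exact Z.zero_mem), fun cs c h => ?_⟩
  have h1 : ∀ cs, ρ.Hw cs Z = Z := by
    intro cs
    induction cs with
    | nil => rfl
    | cons c cs ih => rw [ρ.Hw_cons, ih, T_of_zero hf]
  rw [h1, T_of_zero hf]
  have h2 : ∀ μ : Wt m, μ ≠ 0 → ρ.ch Z μ = 0 := by
    intro μ hμ
    show ((finrank K (Z.map (ρ.π μ)) : ℕ) : ℤ) = 0
    have : Z.map (ρ.π μ) = ⊥ := by
      rw [eq_bot_iff]
      rintro _ ⟨z, hz, rfl⟩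
      rw [Submodule.mem_bot, ← h0 z hz, ← Module.End.mul_apply, ρ.mul, if_neg hμ]
      rfl
    rw [this, finrank_bot]
    rfl
  have hfin : (ρ.ch Z).support.Finite := by
    apply (Set.finite_singleton (0 : Wt m)).subset
    intro μ hμ
    by_contra hc
    exact hμ (h2 μ hc)
  refine ⟨hfin, hfin, fun μ => ?_⟩
  have h3 : ρ.ch Z (μ + alp c h) = ρ.ch Z (sWt c h (μ + alp c h)) := by
    by_cases h4 : μ + alp c h = 0
    · rw [h4]; congr 1
    · rw [h2 _ h4, h2]
      intro h5
      apply h4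
      funext i
      have := congrFun h5 (Equiv.swap (lo c h) (hi c h) i)
      unfold sWt at this
      rw [Function.comp, Equiv.swap_apply_self] at this
      exact this
  rw [h3]

/-- character of a twist -/
theorem Tw.ch_twist {ρ : GLRep K V m} (τ : Tw ρ) (t : ℕ) {Z : Submodule K V} (hV : Z ≤ τ.V') (μ : Wt m) :
    ρ.ch (τ.twist t Z) μ = ρ.ch Z (μ - wtS (ini m t)) := by
  show ((finrank K ((τ.twist t Z).map (ρ.π μ)) : ℕ) : ℤ) =
    ((finrank K (Z.map (ρ.π (μ - wtS (ini m t)))) : ℕ) : ℤ)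
  congr 1
  have h1 : (τ.twist t Z).map (ρ.π μ) = (Z.map (ρ.π (μ - wtS (ini m t)))).map (τ.ins (ini m t)) := by
    ext y
    constructor
    · rintro ⟨_, ⟨z, hz, rfl⟩, rfl⟩
      exact ⟨_, ⟨z, hz, rfl⟩, (τ.pr_ins _ μ z (hV hz)).symm⟩
    · rintro ⟨_, ⟨z, hz, rfl⟩, rfl⟩
      exact ⟨_, ⟨z, hz, rfl⟩, τ.pr_ins _ μ z (hV hz)⟩
  rw [h1]
  have h2 : (Z.map (ρ.π (μ - wtS (ini m t)))).map (τ.ins (ini m t)) =
      LinearMap.range ((τ.ins (ini m t)).domRestrict (Z.map (ρ.π (μ - wtS (ini m t))))) := by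
    rw [LinearMap.range_domRestrict]
  rw [h2]
  apply LinearMap.finrank_range_of_inj
  intro a b hab
  have hmem : ∀ x ∈ Z.map (ρ.π (μ - wtS (ini m t))), x ∈ τ.V' := by
    rintro _ ⟨z, hz, rfl⟩
    exact τ.st _ z (hV hz)
  have h3 : τ.ins (ini m t) a.1 = τ.ins (ini m t) b.1 := hab
  have h4 := congrArg (τ.ext (ini m t)) h3
  rw [τ.ext_ins _ _ _ (hmem _ a.2), τ.ext_ins _ _ _ (hmem _ b.2), if_pos rfl, if_pos rfl] at h4
  exact Subtype.ext h4

end

end Gao
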