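import Pool.Agent.GaoG.GMod

/-!
# `ch (D_ij N) ≤ dem_ij (ch N)` coefficientwise
-/

set_option autoImplicit false
set_option linter.unusedSectionVars false
set_option linter.unusedSimpArgs false

namespace Pool.Agent.GaoG

open MvPolynomial Finsupp

variable {L : Type*} [LinearOrder L] {𝕜 : Type*} [Field 𝕜] [CharZero 𝕜] {V : Type*} [AddCommGroup V] [Module 𝕜 V]

namespace GMod

variable (G : GMod L 𝕜 V)

lemma wxy_add_i {μ0 : L →₀ ℕ} {i j : L} (x y : ℕ) : wxy μ0 i j (x + 1) y = single i 1 + wxy μ0 i j x y := by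
  unfold wxy; rw [Finsupp.single_add i x 1]; abel

lemma wxy_add_j {μ0 : L →₀ ℕ} {i j : L} (x y : ℕ) : wxy μ0 i j x (y + 1) = single j 1 + wxy μ0 i j x y := by
  unfold wxy; rw [Finsupp.single_add j y 1]; abel

/-- every weight is of the form `wxy` -/
lemma exists_wxy {i j : L} (hij : i ≠ j) (μ : L →₀ ℕ) :
    ∃ μ0 : L →₀ ℕ, μ0 i = 0 ∧ μ0 j = 0 ∧ μ = wxy μ0 i j (μ i) (μ j) := by
  refine ⟨(μ.erase i).erase j, ?_, ?_, ?_⟩
  · rw [Finsupp.erase_ne hij, Finsupp.erase_same]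
  · rw [Finsupp.erase_same]
  · unfold wxy
    ext x
    simp only [Finsupp.coe_add, Pi.add_apply, Finsupp.single_apply, Finsupp.erase_apply]
    by_cases hi : x = i
    · subst hi
      simp [hij, hij.symm]
    · by_cases hj : x = j
      · subst hj
        simp [hi, Ne.symm hi]
      · simp [hi, hj, Ne.symm hi, Ne.symm hj]

lemma coeff_sw {i j : L} {μ0 : L →₀ ℕ} (hij : i ≠ j) (hi : μ0 i = 0) (hj : μ0 j = 0) (x y : ℕ)
    (f : MvPolynomial L ℤ) : coeff (wxy μ0 i j x y) (sw i j f) = coeff (wxy μ0 i j y x) f := by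
  have h1 : wxy μ0 i j x y = (wxy μ0 i j y x).mapDomain (Equiv.swap i j) := by
    ext z
    have hz : (wxy μ0 i j y x).mapDomain (Equiv.swap i j) z = wxy μ0 i j y x (Equiv.swap i j z) := by
      conv_lhs => rw [← Equiv.swap_apply_self i j z]
      rw [Finsupp.mapDomain_apply (Equiv.injective _)]
    rw [hz]
    unfold wxy
    simp only [Finsupp.coe_add, Pi.add_apply, Finsupp.single_apply]
    by_cases hzi : z = i
    · subst hzi
      simp [hi, hj, hij, hij.symm]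
    · by_cases hzj : z = j
      · subst hzj
        simp [hi, hj, hzi, Ne.symm hzi]
      · rw [Equiv.swap_apply_of_ne_of_ne hzi hzj]
        simp [Ne.symm hzi, Ne.symm hzj]
  rw [h1]
  exact coeff_rename_mapDomain _ (Equiv.injective _) _ _

/-- coefficient recursion of the Demazure operator -/
lemma dem_rec {i j : L} {μ0 : L →₀ ℕ} (hij : i ≠ j) (hi : μ0 i = 0) (hj : μ0 j = 0) (x y : ℕ)
    (f : MvPolynomial L ℤ) :
    coeff (wxy μ0 i j x (y + 1)) (dem i j f) - coeff (wxy μ0 i j (x + 1) y) (dem i j f) =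
      coeff (wxy μ0 i j x (y + 1)) f - coeff (wxy μ0 i j y (x + 1)) f := by
  have h := congrArg (coeff (wxy μ0 i j (x + 1) (y + 1))) (dem_spec i j f)
  rw [sub_mul, coeff_sub, coeff_sub] at h
  rw [wxy_add_i x (y + 1), coeff_X_mul, coeff_X_mul] at h
  have h2 : single i 1 + wxy μ0 i j x (y + 1) = single j 1 + wxy μ0 i j (x + 1) y := by
    rw [wxy_add_j, wxy_add_i]; abel
  rw [h2, coeff_X_mul, coeff_X_mul, coeff_sw hij hi hj] at h
  exact h.symm

lemma dem_rec_zero {i j : L} {μ0 : L →₀ ℕ} (hij : i ≠ j) (hj : μ0 j = 0) (x : ℕ)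
    (f : MvPolynomial L ℤ) :
    coeff (wxy μ0 i j x 0) (dem i j f) = coeff (wxy μ0 i j x 0) f := by
  have h := congrArg (coeff (wxy μ0 i j (x + 1) 0)) (dem_spec i j f)
  rw [sub_mul, coeff_sub, coeff_sub] at h
  rw [wxy_add_i x 0, coeff_X_mul, coeff_X_mul] at h
  have h3 : j ∉ (single i 1 + wxy μ0 i j x 0).support := by
    rw [Finsupp.notMem_support_iff]
    unfold wxy
    simp [hj, Finsupp.single_apply, hij]
  have h4 : ∀ g : MvPolynomial L ℤ, coeff (single i 1 + wxy μ0 i j x 0) (X j * g) = 0 := by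
    intro g
    rw [coeff_X_mul', if_neg h3]
  rw [h4, h4, sub_zero, sub_zero] at h
  exact h.symm

/-- decomposition of weight vectors of `D N` -/
lemma D_decomp {N : Submodule 𝕜 V} (hN : G.BSt N) {i j : L} (hij : i ≠ j) {μ0 : L →₀ ℕ}
    (x y : ℕ) (hD : ∀ μ, ∀ v ∈ G.D i j N, G.p μ v ∈ G.D i j N) :
    ∀ v ∈ G.D i j N ⊓ G.W (wxy μ0 i j x (y + 1)),
      ∃ z ∈ G.D i j N ⊓ G.W (wxy μ0 i j (x + 1) y), ∃ w ∈ N ⊓ G.W (wxy μ0 i j x (y + 1)),
        v = G.E j i z + w := by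
  intro v hv
  obtain ⟨w, hw, u, hu, huv⟩ := Submodule.mem_sup.1 (G.D_le_sup i j N hv.1)
  obtain ⟨z, hz, rfl⟩ := Submodule.mem_map.1 hu
  refine ⟨G.p (wxy μ0 i j (x + 1) y) z, ⟨hD _ z hz, G.p_mem_W _ _⟩,
    G.p (wxy μ0 i j x (y + 1)) w, ⟨hN.hom _ w hw, G.p_mem_W _ _⟩, ?_⟩
  have h1 : wxy μ0 i j x (y + 1) + single i 1 = wxy μ0 i j (x + 1) y + single j 1 := by
    rw [wxy_add_j, wxy_add_i]; abel
  rw [← G.p_E hij.symm h1, ← (G.mem_W.1 hv.2), ← huv, map_add]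
  abel

variable [FiniteDimensional 𝕜 V]

/-- symmetry of the character of an `sl_2`-stable homogeneous subspace -/
lemma finrank_symm {M : Submodule 𝕜 V} {i j : L} (hij : i ≠ j) (he : ∀ v ∈ M, G.E i j v ∈ M)
    (hf : ∀ v ∈ M, G.E j i v ∈ M) {μ0 : L →₀ ℕ} (hi : μ0 i = 0) (hj : μ0 j = 0) (x y : ℕ) :
    Module.finrank 𝕜 (M ⊓ G.W (wxy μ0 i j x y) : Submodule 𝕜 V) =
      Module.finrank 𝕜 (M ⊓ G.W (wxy μ0 i j y x) : Submodule 𝕜 V) :=
  (G.gr hij μ0 hi hj).finrank_symm M he hf x y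

lemma sw_ch {M : Submodule 𝕜 V} {i j : L} (hij : i ≠ j) (he : ∀ v ∈ M, G.E i j v ∈ M)
    (hf : ∀ v ∈ M, G.E j i v ∈ M) : sw i j (G.ch M) = G.ch M := by
  ext μ
  obtain ⟨μ0, hi, hj, hμ⟩ := exists_wxy hij μ
  rw [hμ, coeff_sw hij hi hj, coeff_ch, coeff_ch, G.finrank_symm hij he hf hi hj]

/-- **G1** -/
theorem dem_le {N : Submodule 𝕜 V} (hN : G.BSt N) {i j : L} (hij : i ⋖ j) (μ : L →₀ ℕ) :
    coeff μ (G.ch (G.D i j N)) ≤ coeff μ (dem i j (G.ch N)) := by
  have hne : i ≠ j := hij.lt.ne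
  have hD := hN.D hij
  have he : ∀ v ∈ G.D i j N, G.E i j v ∈ G.D i j N := hD.up i j hij.lt
  have hf : ∀ v ∈ G.D i j N, G.E j i v ∈ G.D i j N := G.D_stable i j N
  obtain ⟨μ0, hi, hj, hμ⟩ := exists_wxy hne μ
  rw [hμ]
  -- the case `y ≤ x + 1`
  have key : ∀ y x : ℕ, y ≤ x + 1 → coeff (wxy μ0 i j x y) (G.ch (G.D i j N)) ≤
      coeff (wxy μ0 i j x y) (dem i j (G.ch N)) := by
    intro y
    induction y with
    | zero =>
      intro x _
      rw [dem_rec_zero hne hj, coeff_ch, coeff_ch]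
      have : G.D i j N ⊓ G.W (wxy μ0 i j x 0) ≤ N ⊓ G.W (wxy μ0 i j x 0) := by
        intro v hv
        refine ⟨?_, hv.2⟩
        obtain ⟨w, hw, u, hu, huv⟩ := Submodule.mem_sup.1 (G.D_le_sup i j N hv.1)
        obtain ⟨z, hz, rfl⟩ := Submodule.mem_map.1 hu
        have h1 : (wxy μ0 i j x 0) j = 0 := by
          unfold wxy
          simp [hj, hne]
        rw [← (G.mem_W.1 hv.2), ← huv, map_add, G.p_E_zero hne.symm h1, add_zero]
        exact hN.hom _ w hw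
      exact_mod_cast Submodule.finrank_mono this
    | succ y ih =>
      intro x hx
      obtain ⟨n, rfl⟩ : ∃ n, x = y + n := ⟨x - y, by omega⟩
      have h1 := (G.gr hne μ0 hi hj).dim_le N (G.D i j N) (hN.up i j hij.lt) he hf (G.le_D i j N) y n
        (by
          have := G.D_decomp hN hne (μ0 := μ0) (y + n) y hD.hom
          have h2 : y + n + 1 = y + 1 + n := by ring
          rw [h2] at this
          exact this)
      have h2 := ih (y + n + 1) (by omega)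
      have h3 := dem_rec hne hi hj (y + n) y (G.ch N)
      rw [coeff_ch] at h2 ⊢
      rw [coeff_ch, coeff_ch] at h3
      have h4 : y + n + 1 = y + 1 + n := by ring
      rw [h4] at h2 h3
      have h1' : (Module.finrank 𝕜 (G.D i j N ⊓ G.W (wxy μ0 i j (y + n) (y + 1)) : Submodule 𝕜 V) : ℤ) +
          (Module.finrank 𝕜 (N ⊓ G.W (wxy μ0 i j y (y + 1 + n)) : Submodule 𝕜 V) : ℤ) ≤
          (Module.finrank 𝕜 (G.D i j N ⊓ G.W (wxy μ0 i j (y + 1 + n) y) : Submodule 𝕜 V) : ℤ) +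
          (Module.finrank 𝕜 (N ⊓ G.W (wxy μ0 i j (y + n) (y + 1)) : Submodule 𝕜 V) : ℤ) := by
        exact_mod_cast h1
      linarith
  by_cases hc : μ j ≤ μ i + 1
  · exact key _ _ hc
  · rw [coeff_ch, G.finrank_symm hne he hf hi hj, ← coeff_ch, ← sw_dem hne (G.ch N), coeff_sw hne hi hj]
    exact key _ _ (by omega)

end GMod

end Pool.Agent.GaoG
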