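import Pool.Agent.GaoG.Red

/-!
# The module `Λ(K^L) ⊗ V`

Represented by functions `Finset L → V`.
-/

set_option autoImplicit false
set_option linter.unusedSectionVars false
set_option linter.unusedSimpArgs false

namespace Pool.Agent.GaoG

open Finsupp

variable {L : Type*} [LinearOrder L] {𝕜 : Type*} [Field 𝕜] [CharZero 𝕜] {V : Type*} [AddCommGroup V] [Module 𝕜 V]

variable (𝕜) in
/-- sign `(-1)^{#{k ∈ t, k < i}}` -/
def sgn (i : L) (t : Finset L) : 𝕜 := ∏ k ∈ t, if k < i then (-1 : 𝕜) else 1

lemma sgn_sq (i : L) (t : Finset L) : sgn 𝕜 i t * sgn 𝕜 i t = 1 := by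
  unfold sgn
  rw [← Finset.prod_mul_distrib]
  apply Finset.prod_eq_one
  intro k _
  split_ifs <;> norm_num

lemma sgn_ne (i : L) (t : Finset L) : sgn 𝕜 i t ≠ 0 := by
  intro h
  have := sgn_sq (𝕜 := 𝕜) i t
  rw [h] at this
  norm_num at this

lemma sgn_insert {i j : L} {t : Finset L} (h : j ∉ t) :
    sgn 𝕜 i (insert j t) = (if j < i then (-1 : 𝕜) else 1) * sgn 𝕜 i t := by
  unfold sgn
  rw [Finset.prod_insert h]

lemma sgn_erase {i j : L} {t : Finset L} (h : j ∈ t) :
    sgn 𝕜 i (t.erase j) = (if j < i then (-1 : 𝕜) else 1) * sgn 𝕜 i t := by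
  have h1 := sgn_insert (𝕜 := 𝕜) (i := i) (Finset.notMem_erase j t)
  rw [Finset.insert_erase h] at h1
  rw [h1, ← mul_assoc]
  split_ifs <;> norm_num

variable (𝕜) in
/-- creation operator -/
def cre (i : L) : Module.End 𝕜 (Finset L → V) where
  toFun g t := if i ∈ t then sgn 𝕜 i t • g (t.erase i) else 0
  map_add' g h := by
    funext t
    simp only [Pi.add_apply, smul_add]
    split_ifs
    · rfl
    · simp
  map_smul' c g := by
    funext t
    simp only [Pi.smul_apply, RingHom.id_apply]
    split_ifs
    · rw [smul_comm]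
    · simp

variable (𝕜) in
/-- annihilation operator -/
def ann (i : L) : Module.End 𝕜 (Finset L → V) where
  toFun g t := if i ∈ t then 0 else sgn 𝕜 i t • g (insert i t)
  map_add' g h := by
    funext t
    simp only [Pi.add_apply, smul_add]
    split_ifs
    · simp
    · rfl
  map_smul' c g := by
    funext t
    simp only [Pi.smul_apply, RingHom.id_apply]
    split_ifs
    · simp
    · rw [smul_comm]

lemma cre_apply (i : L) (g : Finset L → V) (t : Finset L) :
    cre 𝕜 i g t = if i ∈ t then sgn 𝕜 i t • g (t.erase i) else 0 := rfl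

lemma ann_apply (i : L) (g : Finset L → V) (t : Finset L) :
    ann 𝕜 i g t = if i ∈ t then 0 else sgn 𝕜 i t • g (insert i t) := rfl

lemma ite_neg' {i j : L} (h : i ≠ j) :
    (if j < i then (-1 : 𝕜) else 1) = -(if i < j then (-1 : 𝕜) else 1) := by
  rcases lt_or_gt_of_ne h with h1 | h1
  · rw [if_pos h1, if_neg (not_lt.2 h1.le)]; norm_num
  · rw [if_pos h1, if_neg (not_lt.2 h1.le)]

lemma cre_cre (i j : L) (g : Finset L → V) : cre 𝕜 i (cre 𝕜 j g) = -cre 𝕜 j (cre 𝕜 i g) := by
  by_cases hij : i = j
  · subst hij
    funext t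
    simp only [cre_apply, Pi.neg_apply, Finset.notMem_erase, if_false, smul_zero, ite_self, neg_zero]
  · funext t
    simp only [cre_apply, Pi.neg_apply, Finset.mem_erase]
    by_cases hi : i ∈ t
    · by_cases hj : j ∈ t
      · simp only [hi, hj, hij, Ne.symm hij, ne_eq, not_false_eq_true, and_self, if_true]
        rw [smul_smul, smul_smul, Finset.erase_right_comm, ← neg_smul, sgn_erase hi, sgn_erase hj]
        congr 1
        rw [ite_neg' hij]
        ring
      · simp [hj]
    · simp [hi]

lemma ann_ann (i j : L) (g : Finset L → V) : ann 𝕜 i (ann 𝕜 j g) = -ann 𝕜 j (ann 𝕜 i g) := by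
  by_cases hij : i = j
  · subst hij
    funext t
    simp only [ann_apply, Pi.neg_apply, Finset.mem_insert, true_or, if_true, smul_zero, ite_self, neg_zero]
  · funext t
    have hji : ¬ j = i := fun h => hij h.symm
    simp only [ann_apply, Pi.neg_apply, Finset.mem_insert]
    by_cases hi : i ∈ t
    · simp [hi]
    · by_cases hj : j ∈ t
      · simp [hj]
      · simp only [hi, hj, hij, hji, or_self, if_false]
        rw [smul_smul, smul_smul, Finset.insert_comm, ← neg_smul, sgn_insert hi, sgn_insert hj]
        congr 1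
        rw [ite_neg' hij]
        ring

lemma ann_cre (i j : L) (g : Finset L → V) :
    ann 𝕜 i (cre 𝕜 j g) = (if i = j then g else 0) - cre 𝕜 j (ann 𝕜 i g) := by
  by_cases hij : i = j
  · subst hij
    funext t
    simp only [ann_apply, cre_apply, Pi.sub_apply, Finset.mem_insert, true_or, if_true,
      Finset.notMem_erase, if_false]
    by_cases hi : i ∈ t
    · rw [if_pos hi, if_pos hi, Finset.insert_erase hi, smul_smul, sgn_erase hi, if_neg (lt_irrefl i),
        one_mul, sgn_sq, one_smul, sub_self]
    · rw [if_neg hi, if_neg hi, Finset.erase_insert hi, smul_smul, sgn_insert hi, if_neg (lt_irrefl i),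
        one_mul, sgn_sq, one_smul, sub_zero]
  · funext t
    have hji : ¬ j = i := fun h => hij h.symm
    rw [if_neg hij]
    simp only [ann_apply, cre_apply, Pi.sub_apply, Pi.zero_apply, Finset.mem_insert, Finset.mem_erase]
    by_cases hi : i ∈ t
    · simp [hi, hij]
    · by_cases hj : j ∈ t
      · simp only [hi, hj, hij, or_true, if_true, if_false, ne_eq, not_false_eq_true, and_false, zero_sub]
        rw [smul_smul, smul_smul, sgn_insert hi, sgn_erase hj,
          Finset.erase_insert_of_ne hij, ← neg_smul]
        congr 1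
        rw [ite_neg' hij]
        ring
      · simp [hi, hj, hji]

variable (𝕜) in
/-- the `gl` action on the exterior factor -/
def eE (i j : L) : Module.End 𝕜 (Finset L → V) := cre 𝕜 i * ann 𝕜 j

lemma eE_comm (i j k l : L) (g : Finset L → V) : eE 𝕜 i j (eE 𝕜 k l g) - eE 𝕜 k l (eE 𝕜 i j g) =
    (if j = k then eE 𝕜 i l g else 0) - (if i = l then eE 𝕜 k j g else 0) := by
  simp only [eE, Module.End.mul_apply]
  rw [ann_cre j k, map_sub, ann_cre l i, map_sub]
  have h1 : cre 𝕜 i (cre 𝕜 k (ann 𝕜 j (ann 𝕜 l g))) = cre 𝕜 k (cre 𝕜 i (ann 𝕜 l (ann 𝕜 j g))) := by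
    rw [cre_cre i k, ann_ann j l]
    simp only [map_neg, neg_neg]
  rw [h1]
  have h2 : cre 𝕜 i (if j = k then ann 𝕜 l g else 0) = (if j = k then cre 𝕜 i (ann 𝕜 l g) else 0 : Finset L → V) := by
    split_ifs
    · rfl
    · exact map_zero _
  have h3 : cre 𝕜 k (if l = i then ann 𝕜 j g else 0) = (if i = l then cre 𝕜 k (ann 𝕜 j g) else 0 : Finset L → V) := by
    by_cases h : i = l
    · rw [if_pos h, if_pos h.symm]
    · rw [if_neg h, if_neg (Ne.symm h)]; exact map_zero _
  rw [h2, h3]
  abel

variable (𝕜) in
/-- sign in the explicit formula -/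
def esg (i j : L) (t : Finset L) : 𝕜 := sgn 𝕜 i t * sgn 𝕜 j (t.erase i)

lemma esg_ne (i j : L) (t : Finset L) : esg 𝕜 i j t ≠ 0 := mul_ne_zero (sgn_ne _ _) (sgn_ne _ _)

lemma eE_apply {i j : L} (hij : i ≠ j) (g : Finset L → V) (t : Finset L) :
    eE 𝕜 i j g t = if i ∈ t ∧ j ∉ t then esg 𝕜 i j t • g (insert j (t.erase i)) else 0 := by
  simp only [eE, Module.End.mul_apply, cre_apply, ann_apply, Finset.mem_erase]
  by_cases hi : i ∈ t
  · by_cases hj : j ∈ t
    · simp [hi, hj, Ne.symm hij]
    · simp only [hi, hj, and_false, if_false, if_true, not_false_eq_true, and_self]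
      rw [smul_smul]; rfl
  · simp [hi]

lemma eE_diag (i : L) (g : Finset L → V) (t : Finset L) :
    eE 𝕜 i i g t = if i ∈ t then g t else 0 := by
  simp only [eE, Module.End.mul_apply, cre_apply, ann_apply, Finset.notMem_erase, if_false]
  by_cases hi : i ∈ t
  · rw [if_pos hi, if_pos hi, smul_smul, Finset.insert_erase hi, sgn_erase hi, if_neg (lt_irrefl i),
      one_mul, sgn_sq, one_smul]
  · rw [if_neg hi, if_neg hi]

/-- exponent of a subset -/
noncomputable def one (t : Finset L) : L →₀ ℕ := ∑ x ∈ t, single x 1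

lemma one_apply (t : Finset L) (x : L) : one t x = if x ∈ t then 1 else 0 := by
  unfold one
  rw [Finsupp.finsetSum_apply]
  simp only [Finsupp.single_apply]
  rw [Finset.sum_ite_eq']

lemma one_sw {i j : L} (hij : i ≠ j) {t : Finset L} (hi : i ∈ t) (hj : j ∉ t) :
    one (insert j (t.erase i)) + single i 1 = one t + single j 1 := by
  ext x
  simp only [Finsupp.coe_add, Pi.add_apply, one_apply, Finsupp.single_apply, Finset.mem_insert, Finset.mem_erase]
  by_cases hxi : x = i
  · subst hxi
    simp [hij, hij.symm, hi]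
  · by_cases hxj : x = j
    · subst hxj
      simp [hj, Ne.symm hxi]
    · simp [hxi, hxj, Ne.symm hxi, Ne.symm hxj]

namespace GMod

variable (G : GMod L 𝕜 V)

lemma p_zero {μ : L →₀ ℕ} (h : μ ∉ G.supp) (v : V) : G.p μ v = 0 := by
  have := G.p_mem_W μ v
  rw [G.W_eq_bot h] at this
  simpa using this

open Classical in
/-- weight projections of `Λ(K^L) ⊗ V` -/
noncomputable def exp (μ : L →₀ ℕ) : Module.End 𝕜 (Finset L → V) where
  toFun g t := if one t ≤ μ then G.p (μ - one t) (g t) else 0
  map_add' g h := by
    funext t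
    simp only [Pi.add_apply]
    split_ifs
    · rw [map_add]
    · simp
  map_smul' c g := by
    funext t
    simp only [Pi.smul_apply, RingHom.id_apply]
    split_ifs
    · rw [map_smul]
    · simp

open Classical in
lemma exp_apply (μ : L →₀ ℕ) (g : Finset L → V) (t : Finset L) :
    G.exp μ g t = if one t ≤ μ then G.p (μ - one t) (g t) else 0 := by
  unfold exp
  simp only [LinearMap.coe_mk, AddHom.coe_mk]

/-- action of `gl` on the second factor -/
def oE (i j : L) : Module.End 𝕜 (Finset L → V) where
  toFun g t := G.E i j (g t)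
  map_add' g h := by funext t; simp
  map_smul' c g := by funext t; simp

lemma oE_apply (i j : L) (g : Finset L → V) (t : Finset L) : G.oE i j g t = G.E i j (g t) := rfl

lemma cre_oE (i k l : L) (g : Finset L → V) : cre 𝕜 i (G.oE k l g) = G.oE k l (cre 𝕜 i g) := by
  funext t
  simp only [cre_apply, oE_apply]
  split_ifs
  · rw [map_smul]
  · rw [map_zero]

lemma ann_oE (i k l : L) (g : Finset L → V) : ann 𝕜 i (G.oE k l g) = G.oE k l (ann 𝕜 i g) := by
  funext t
  simp only [ann_apply, oE_apply]
  split_ifs
  · rw [map_zero]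
  · rw [map_smul]

lemma eE_oE (i j k l : L) (g : Finset L → V) : eE 𝕜 i j (G.oE k l g) = G.oE k l (eE 𝕜 i j g) := by
  simp only [eE, Module.End.mul_apply, ann_oE, cre_oE]

lemma oE_comm (i j k l : L) (g : Finset L → V) : G.oE i j (G.oE k l g) - G.oE k l (G.oE i j g) =
    (if j = k then G.oE i l g else 0) - (if i = l then G.oE k j g else 0) := by
  funext t
  simp only [Pi.sub_apply, oE_apply, G.comm]
  congr 1
  · split_ifs <;> rfl
  · split_ifs <;> rfl

/-- the difference of weights -/
lemma sub_one_eq {i j : L} (hij : i ≠ j) {t : Finset L} (hi : i ∈ t) (hj : j ∉ t) {μ μ' : L →₀ ℕ}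
    (h : μ' + single j 1 = μ + single i 1) :
    (one (insert j (t.erase i)) ≤ μ ↔ one t ≤ μ') ∧
      (one t ≤ μ' → μ - one (insert j (t.erase i)) = μ' - one t) := by
  have h1 := one_sw hij hi hj
  have key : one (insert j (t.erase i)) ≤ μ ↔ one t ≤ μ' := by
    constructor
    · intro h2
      have h3 : one t + single j 1 ≤ μ' + single j 1 := by
        rw [h, ← h1]
        exact add_le_add h2 le_rfl
      exact le_of_add_le_add_right h3
    · intro h2
      have h3 : one (insert j (t.erase i)) + single i 1 ≤ μ + single i 1 := by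
        rw [h1, ← h]
        exact add_le_add h2 le_rfl
      exact le_of_add_le_add_right h3
  refine ⟨key, fun h2 => ?_⟩
  have h3 := key.2 h2
  have h4 : (μ - one (insert j (t.erase i))) + (one (insert j (t.erase i)) + single i 1) =
      (μ' - one t) + (one (insert j (t.erase i)) + single i 1) := by
    rw [← add_assoc, tsub_add_cancel_of_le h3, h1, ← add_assoc, tsub_add_cancel_of_le h2, h]
  exact add_right_cancel h4

variable [Fintype L]

open Classical in
/-- `Λ(K^L) ⊗ V` -/
noncomputable def ext : GMod L 𝕜 (Finset L → V) where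
  E i j := eE 𝕜 i j + G.oE i j
  p μ := G.exp μ
  comm i j k l g := by
    simp only [LinearMap.add_apply, map_add]
    have h1 := eE_comm (𝕜 := 𝕜) i j k l g
    have h2 := G.oE_comm i j k l g
    rw [G.eE_oE i j k l, G.eE_oE k l i j]
    have e : ∀ (P : Prop) [Decidable P] (x y : Finset L → V), (if P then x + y else 0) =
        (if P then x else 0) + (if P then y else 0) := by
      intro P _ x y; split_ifs <;> simp
    rw [e, e]
    calc eE 𝕜 i j (eE 𝕜 k l g) + G.oE i j (eE 𝕜 k l g) + (G.oE k l (eE 𝕜 i j g) + G.oE i j (G.oE k l g)) -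
          (eE 𝕜 k l (eE 𝕜 i j g) + G.oE k l (eE 𝕜 i j g) + (G.oE i j (eE 𝕜 k l g) + G.oE k l (G.oE i j g)))
        = (eE 𝕜 i j (eE 𝕜 k l g) - eE 𝕜 k l (eE 𝕜 i j g)) + (G.oE i j (G.oE k l g) - G.oE k l (G.oE i j g)) := by
          abel
      _ = _ := by rw [h1, h2]; abel
  p_p μ ν g := by
    funext t
    rw [exp_apply, exp_apply]
    by_cases hμν : μ = ν
    · subst hμν
      rw [if_pos rfl, exp_apply]
      split_ifs with h1
      · rw [G.p_p, if_pos rfl]
      · rfl
    · rw [if_neg hμν]
      split_ifs with h1 h2
      · rw [G.p_p, if_neg]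
        · rfl
        · intro h3
          apply hμν
          rw [← tsub_add_cancel_of_le h1, h3, tsub_add_cancel_of_le h2]
      · rw [map_zero]; rfl
      · rfl
  supp := (Finset.univ ×ˢ G.supp).image (fun x : Finset L × (L →₀ ℕ) => one x.1 + x.2)
  p_sum g := by
    funext t
    rw [Finset.sum_apply]
    simp only [exp_apply]
    rw [← Finset.sum_filter]
    conv_rhs => rw [← G.p_sum (g t)]
    symm
    apply Finset.sum_of_injOn (fun ν => one t + ν)
    · intro a _ b _ h
      exact add_left_cancel h
    · intro ν hν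
      simp only [Finset.coe_filter, Set.mem_ofPred_eq, Finset.mem_image, Finset.mem_product, Finset.mem_univ,
        true_and, Prod.exists]
      exact ⟨⟨t, ν, hν, rfl⟩, le_self_add⟩
    · intro μ hμ hμ'
      rw [Finset.mem_filter] at hμ
      apply G.p_zero
      intro h2
      apply hμ'
      refine ⟨μ - one t, h2, ?_⟩
      show one t + (μ - one t) = μ
      rw [add_tsub_cancel_of_le hμ.2]
    · intro ν _
      simp only [add_tsub_cancel_left]
  E_diag i μ g := by
    funext t
    simp only [LinearMap.add_apply, Pi.add_apply, Pi.smul_apply, eE_diag, oE_apply, exp_apply]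
    by_cases h : one t ≤ μ
    · simp only [if_pos h]
      rw [G.E_diag]
      have h1 : (((μ - one t) i : ℕ) : 𝕜) = (μ i : 𝕜) - (one t i : ℕ) := by
        rw [Finsupp.tsub_apply, Nat.cast_sub (h i)]
      rw [h1, one_apply]
      by_cases hi : i ∈ t
      · rw [if_pos hi, if_pos hi]
        push_cast
        module
      · rw [if_neg hi, if_neg hi]
        simp
    · simp only [if_neg h]
      simp
  E_p i j hij μ μ' hμ g := by
    funext t
    rw [exp_apply]
    simp only [LinearMap.add_apply, Pi.add_apply, oE_apply]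
    rw [eE_apply hij, exp_apply, exp_apply]
    by_cases hc : i ∈ t ∧ j ∉ t
    · rw [if_pos hc]
      obtain ⟨hk1, hk2⟩ := sub_one_eq hij hc.1 hc.2 hμ
      by_cases h1 : one t ≤ μ'
      · rw [if_pos h1, if_pos (hk1.2 h1), hk2 h1, map_add, map_smul, G.p_p, if_pos rfl]
        congr 1
        by_cases h2 : one t ≤ μ
        · rw [if_pos h2]
          apply G.E_p i j hij
          have h3 : (μ' - one t + single j 1) + one t = (μ - one t + single i 1) + one t := by
            have : ∀ a b c : L →₀ ℕ, a + b + c = (a + c) + b := fun a b c => by abel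
            rw [this, tsub_add_cancel_of_le h1, this, tsub_add_cancel_of_le h2, hμ]
          exact add_right_cancel h3
        · rw [if_neg h2, map_zero, map_zero]
      · rw [if_neg h1, if_neg (fun h => h1 (hk1.1 h)), smul_zero, zero_add]
        by_cases h2 : one t ≤ μ
        · exfalso
          apply h1
          intro x
          have h4 := DFunLike.congr_fun hμ x
          simp only [Finsupp.coe_add, Pi.add_apply, Finsupp.single_apply] at h4
          have h5 := h2 x
          by_cases hx : j = x
          · subst hx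
            rw [one_apply, if_neg hc.2]
            exact Nat.zero_le _
          · rw [if_neg hx] at h4
            omega
        · rw [if_neg h2, map_zero]
    · rw [if_neg hc, zero_add]
      by_cases h2 : one t ≤ μ
      · rw [if_pos h2]
        by_cases h6 : (μ - one t) j = 0
        · rw [G.E_z i j hij _ h6, map_zero]
          split_ifs <;> rfl
        · have h1 : one t ≤ μ' := by
            intro x
            have h4 := DFunLike.congr_fun hμ x
            simp only [Finsupp.coe_add, Pi.add_apply, Finsupp.single_apply] at h4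
            have h5 := h2 x
            by_cases hx : j = x
            · subst hx
              rw [Finsupp.tsub_apply] at h6
              rw [if_pos rfl, if_neg hij] at h4
              omega
            · rw [if_neg hx] at h4
              omega
          rw [if_pos h1]
          apply G.E_p i j hij
          have h3 : (μ' - one t + single j 1) + one t = (μ - one t + single i 1) + one t := by
            have : ∀ a b c : L →₀ ℕ, a + b + c = (a + c) + b := fun a b c => by abel
            rw [this, tsub_add_cancel_of_le h1, this, tsub_add_cancel_of_le h2, hμ]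
          exact add_right_cancel h3
      · rw [if_neg h2, map_zero, map_zero]
        split_ifs <;> rfl
  E_z i j hij μ hμ g := by
    funext t
    simp only [LinearMap.add_apply, Pi.add_apply, oE_apply]
    rw [eE_apply hij, exp_apply, exp_apply]
    have h1 : (if one t ≤ μ then G.p (μ - one t) (g t) else 0 : V) =
        (if one t ≤ μ then G.p (μ - one t) (g t) else 0) := rfl
    by_cases h2 : one t ≤ μ
    · rw [if_pos h2]
      have h6 : (μ - one t) j = 0 := by
        rw [Finsupp.tsub_apply, hμ]; exact Nat.zero_sub _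
      rw [G.E_z i j hij _ h6, add_zero]
      by_cases hc : i ∈ t ∧ j ∉ t
      · rw [if_pos hc, if_neg, smul_zero]
        · rfl
        · intro h7
          have h8 := h7 j
          rw [one_apply, hμ, if_pos (Finset.mem_insert_self _ _)] at h8
          omega
      · rw [if_neg hc]; rfl
    · rw [if_neg h2, map_zero, add_zero]
      by_cases hc : i ∈ t ∧ j ∉ t
      · rw [if_pos hc, if_neg, smul_zero]
        · rfl
        · intro h7
          have h8 := h7 j
          rw [one_apply, hμ, if_pos (Finset.mem_insert_self _ _)] at h8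
          omega
      · rw [if_neg hc]; rfl

lemma ext_E_apply {i j : L} (hij : i ≠ j) (g : Finset L → V) (t : Finset L) :
    G.ext.E i j g t = (if i ∈ t ∧ j ∉ t then esg 𝕜 i j t • g (insert j (t.erase i)) else 0) + G.E i j (g t) := by
  show (eE 𝕜 i j + G.oE i j : Module.End 𝕜 (Finset L → V)) g t = _
  rw [LinearMap.add_apply, Pi.add_apply, eE_apply hij, oE_apply]

open Classical in
lemma ext_p_apply (μ : L →₀ ℕ) (g : Finset L → V) (t : Finset L) :
    G.ext.p μ g t = if one t ≤ μ then G.p (μ - one t) (g t) else 0 := G.exp_apply μ g t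

end GMod

end Pool.Agent.GaoG
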