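import Mathlib

/-!
# Elementary `sl_2` theory for bigraded modules

`Gr 𝕜 V`: operators `e, f` and subspaces `W x y` with `e : W x (y+1) → W (x+1) y`, `f` the other way,
`e f - f e = x - y` on `W x y`.
-/

set_option autoImplicit false
set_option linter.unusedSectionVars false
set_option linter.unusedSimpArgs false

namespace Pool.Agent.GaoG

structure Gr (𝕜 : Type*) [Field 𝕜] (V : Type*) [AddCommGroup V] [Module 𝕜 V] where
  e : Module.End 𝕜 V
  f : Module.End 𝕜 V
  W : ℕ → ℕ → Submodule 𝕜 V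
  eW : ∀ x y v, v ∈ W x (y + 1) → e v ∈ W (x + 1) y
  e0 : ∀ x v, v ∈ W x 0 → e v = 0
  fW : ∀ x y v, v ∈ W (x + 1) y → f v ∈ W x (y + 1)
  f0 : ∀ y v, v ∈ W 0 y → f v = 0
  comm : ∀ x y v, v ∈ W x y → e (f v) - f (e v) = ((x : 𝕜) - y) • v

variable {𝕜 : Type*} [Field 𝕜] [CharZero 𝕜] {V : Type*} [AddCommGroup V] [Module 𝕜 V]

/-- exchange of the roles of `e` and `f` -/
def Gr.swap (G : Gr 𝕜 V) : Gr 𝕜 V where
  e := G.f
  f := G.e
  W x y := G.W y x
  eW x y v h := G.fW y x v h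
  e0 x v h := G.f0 x v h
  fW x y v h := G.eW y x v h
  f0 y v h := G.e0 y v h
  comm x y v h := by
    have := G.comm y x v h
    have h2 : ((x : 𝕜) - y) • v = -(((y : 𝕜) - x) • v) := by rw [← neg_smul]; congr 1; ring
    rw [h2, ← this]; abel

lemma Gr.epow_mem (G : Gr 𝕜 V) (n : ℕ) : ∀ x y v, v ∈ G.W x (y + n) → (G.e ^ n) v ∈ G.W (x + n) y := by
  induction n with
  | zero => intro x y v h; simpa using h
  | succ n ih =>
    intro x y v h
    rw [pow_succ, Module.End.mul_apply]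
    have h1 := G.eW x (y + n) v (by rw [← add_assoc] at h; exact h)
    have h2 := ih (x + 1) y _ h1
    have : x + 1 + n = x + (n + 1) := by ring
    rwa [this] at h2

/-- `f e^n v = e^n f v - n (x - y + n - 1) e^{n-1} v` -/
lemma Gr.f_epow (G : Gr 𝕜 V) (n : ℕ) : ∀ x y v, v ∈ G.W x y → n + 1 ≤ y + 1 →
    (G.e ^ (n + 1)) (G.f v) = G.f ((G.e ^ (n + 1)) v) + (((n : 𝕜) + 1) * ((x : 𝕜) - y + n)) • (G.e ^ n) v := by
  induction n with
  | zero =>
    intro x y v h _
    have := G.comm x y v h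
    simp only [zero_add, pow_one, pow_zero, Module.End.one_apply, Nat.cast_zero, one_mul, add_zero]
    rw [← this]; abel
  | succ n ih =>
    intro x y v h hn
    have ih' := ih x y v h (by omega)
    have h6 : ∀ u : V, (G.e ^ (n + 1 + 1)) u = G.e ((G.e ^ (n + 1)) u) := by
      intro u; rw [pow_succ' G.e (n + 1), Module.End.mul_apply]
    rw [h6, h6, ih', map_add, map_smul]
    obtain ⟨z, rfl⟩ : ∃ z, y = z + (n + 1) := ⟨y - (n + 1), by omega⟩
    have h2 := G.epow_mem (n + 1) x z v h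
    have h3 := G.comm _ _ _ h2
    have h4 : G.e (G.f ((G.e ^ (n + 1)) v)) = G.f (G.e ((G.e ^ (n + 1)) v)) +
        (((x + (n + 1) : ℕ) : 𝕜) - z) • (G.e ^ (n + 1)) v := by rw [← h3]; abel
    rw [h4]
    have h5 : G.e ((G.e ^ n) v) = (G.e ^ (n + 1)) v := by rw [pow_succ', Module.End.mul_apply]
    rw [h5, add_assoc, ← add_smul]
    congr 2
    push_cast
    ring

/-- injectivity of powers of `e` -/
lemma Gr.e_inj (G : Gr 𝕜 V) : ∀ (x y m : ℕ) (v : V), v ∈ G.W x y → x + m ≤ y → (G.e ^ m) v = 0 → v = 0 := by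
  intro x
  induction x with
  | zero =>
    intro y m
    induction m with
    | zero => intro v _ _ h; simpa using h
    | succ m ih =>
      intro v hv hm h
      have h1 := G.f_epow m 0 y v hv (by omega)
      rw [G.f0 y v hv, map_zero, h, map_zero, zero_add] at h1
      have h2 : (((m : 𝕜) + 1) * (((0 : ℕ) : 𝕜) - y + m)) ≠ 0 := by
        apply mul_ne_zero
        · exact Nat.cast_add_one_ne_zero m
        · have h9 : ((y - m : ℕ) : 𝕜) ≠ 0 := Nat.cast_ne_zero.2 (by omega)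
          rw [Nat.cast_sub (by omega)] at h9
          intro h
          apply h9
          rw [Nat.cast_zero] at h
          linear_combination -h
      have h3 : (G.e ^ m) v = 0 := by
        rcases smul_eq_zero.1 h1.symm with h | h
        · exact absurd h h2
        · exact h
      exact ih v hv (by omega) h3
  | succ x ihx =>
    intro y m
    induction m with
    | zero => intro v _ _ h; simpa using h
    | succ m ih =>
      intro v hv hm h
      have h1 := G.f_epow m (x + 1) y v hv (by omega)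
      rw [h, map_zero, zero_add] at h1
      -- e^{m+2} f v = 0
      have h2 : (G.e ^ (m + 1 + 1)) (G.f v) = 0 := by
        have h3 := G.f_epow (m + 1) (x + 1) y v hv (by omega)
        rw [h, smul_zero, add_zero] at h3
        rw [h3, pow_succ', Module.End.mul_apply, h, map_zero, map_zero]
      have h3 : G.f v ∈ G.W x (y + 1) := G.fW x y v hv
      have h4 : G.f v = 0 := ihx (y + 1) (m + 1 + 1) _ h3 (by omega) h2
      rw [h4, map_zero] at h1
      have h5 : (((m : 𝕜) + 1) * (((x + 1 : ℕ) : 𝕜) - y + m)) ≠ 0 := by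
        apply mul_ne_zero
        · exact Nat.cast_add_one_ne_zero m
        · have h9 : ((y - (x + 1 + m) : ℕ) : 𝕜) ≠ 0 := Nat.cast_ne_zero.2 (by omega)
          rw [Nat.cast_sub (by omega)] at h9
          intro h
          apply h9
          push_cast at h ⊢
          linear_combination -h
      have h6 : (G.e ^ m) v = 0 := by
        rcases smul_eq_zero.1 h1.symm with h | h
        · exact absurd h h5
        · exact h
      exact ih v hv (by omega) h6

lemma Gr.f_inj (G : Gr 𝕜 V) (x y m : ℕ) (v : V) (hv : v ∈ G.W x y) (h : y + m ≤ x) (h0 : (G.f ^ m) v = 0) :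
    v = 0 := G.swap.e_inj y x m v hv h h0

lemma pow_stable {M : Submodule 𝕜 V} {e : Module.End 𝕜 V} (h : ∀ v ∈ M, e v ∈ M) (n : ℕ) :
    ∀ v ∈ M, (e ^ n) v ∈ M := by
  induction n with
  | zero => intro v hv; simpa using hv
  | succ n ih => intro v hv; rw [pow_succ', Module.End.mul_apply]; exact h _ (ih v hv)

variable [FiniteDimensional 𝕜 V]

lemma Gr.finrank_le (G : Gr 𝕜 V) (M : Submodule 𝕜 V) (he : ∀ v ∈ M, G.e v ∈ M) (x n : ℕ) :
    Module.finrank 𝕜 (M ⊓ G.W x (x + n) : Submodule 𝕜 V) ≤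
      Module.finrank 𝕜 (M ⊓ G.W (x + n) x : Submodule 𝕜 V) := by
  have hmap : ∀ v ∈ M ⊓ G.W x (x + n), (G.e ^ n) v ∈ M ⊓ G.W (x + n) x := by
    intro v hv
    exact ⟨pow_stable he n v hv.1, G.epow_mem n x x v hv.2⟩
  apply LinearMap.finrank_le_finrank_of_injective (f := (G.e ^ n).restrict hmap)
  intro v w hvw
  have h1 : (G.e ^ n) (v.1 - w.1) = 0 := by
    have := congrArg Subtype.val hvw
    rw [map_sub, sub_eq_zero]
    exact this
  have h2 : v.1 - w.1 = 0 := G.e_inj x (x + n) n _ (Submodule.sub_mem _ v.2.2 w.2.2) le_rfl h1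
  exact Subtype.ext (sub_eq_zero.1 h2)

/-- symmetry of dimensions -/
lemma Gr.finrank_symm (G : Gr 𝕜 V) (M : Submodule 𝕜 V) (he : ∀ v ∈ M, G.e v ∈ M) (hf : ∀ v ∈ M, G.f v ∈ M)
    (x y : ℕ) : Module.finrank 𝕜 (M ⊓ G.W x y : Submodule 𝕜 V) =
      Module.finrank 𝕜 (M ⊓ G.W y x : Submodule 𝕜 V) := by
  rcases le_total x y with h | h
  · obtain ⟨n, rfl⟩ := Nat.exists_eq_add_of_le h
    exact le_antisymm (G.finrank_le M he x n) (G.swap.finrank_le M hf x n)
  · obtain ⟨n, rfl⟩ := Nat.exists_eq_add_of_le h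
    exact le_antisymm (G.swap.finrank_le M hf y n) (G.finrank_le M he y n)

/-- For `M` stable, `e^{a-b}` of weight `(b-1, a)` vectors is in `f` of weight `(a, b-1)`. -/
lemma Gr.epow_mem_f (G : Gr 𝕜 V) (M : Submodule 𝕜 V) (he : ∀ v ∈ M, G.e v ∈ M) (hf : ∀ v ∈ M, G.f v ∈ M)
    (b n : ℕ) (v : V) (hv : v ∈ M ⊓ G.W b (b + 1 + n)) :
    ∃ z ∈ M ⊓ G.W (b + 1 + n) b, G.f z = (G.e ^ n) v := by
  -- the operator e f + (n+1) on U = M ⊓ W b (b+1+n)
  set U := M ⊓ G.W b (b + 1 + n) with hU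
  have hstab : ∀ u ∈ U, (G.e * G.f + ((n : 𝕜) + 1) • (1 : Module.End 𝕜 V)) u ∈ U := by
    intro u hu
    have h1 : G.e (G.f u) ∈ U := by
      refine ⟨he _ (hf _ hu.1), ?_⟩
      rcases Nat.eq_zero_or_pos b with hb | hb
      · subst hb
        rw [G.f0 _ u hu.2, map_zero]; exact Submodule.zero_mem _
      · obtain ⟨b, rfl⟩ : ∃ b', b = b' + 1 := ⟨b - 1, by omega⟩
        exact G.eW _ _ _ (G.fW _ _ _ hu.2)
    simp only [LinearMap.add_apply, Module.End.mul_apply, LinearMap.smul_apply, Module.End.one_apply]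
    exact Submodule.add_mem _ h1 (Submodule.smul_mem _ _ hu)
  have key : ∀ u ∈ U, G.f ((G.e ^ (n + 1)) u) =
      (G.e ^ n) ((G.e * G.f + ((n : 𝕜) + 1) • (1 : Module.End 𝕜 V)) u) := by
    intro u hu
    have h1 := G.f_epow n b (b + 1 + n) u hu.2 (by omega)
    simp only [LinearMap.add_apply, Module.End.mul_apply, LinearMap.smul_apply, Module.End.one_apply]
    rw [map_add, map_smul]
    have h2 : (G.e ^ n) (G.e (G.f u)) = (G.e ^ (n + 1)) (G.f u) := by
      rw [pow_succ, Module.End.mul_apply]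
    rw [h2, h1, add_assoc, ← add_smul]
    have : ((n : 𝕜) + 1) * ((b : 𝕜) - ((b + 1 + n : ℕ) : 𝕜) + n) + (n + 1) = 0 := by push_cast; ring
    rw [this, zero_smul, add_zero]
  have hinj : Function.Injective ((G.e * G.f + ((n : 𝕜) + 1) • (1 : Module.End 𝕜 V)).restrict hstab) := by
    intro u w huw
    have h0 : (G.e * G.f + ((n : 𝕜) + 1) • (1 : Module.End 𝕜 V)) (u.1 - w.1) = 0 := by
      have := congrArg Subtype.val huw
      rw [map_sub, sub_eq_zero]; exact this
    have hm : u.1 - w.1 ∈ U := Submodule.sub_mem _ u.2 w.2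
    have h1 := key _ hm
    rw [h0, map_zero] at h1
    have h2 : (G.e ^ (n + 1)) (u.1 - w.1) ∈ G.W (b + (n + 1)) b := by
      apply G.epow_mem (n + 1) b b
      have : b + (n + 1) = b + 1 + n := by ring
      rw [this]; exact hm.2
    have h3 : (G.e ^ (n + 1)) (u.1 - w.1) = 0 := by
      apply G.f_inj (b + (n + 1)) b 1 _ h2 (by omega)
      simpa using h1
    have h4 : u.1 - w.1 = 0 := G.e_inj b (b + 1 + n) (n + 1) _ hm.2 (by omega) h3
    exact Subtype.ext (sub_eq_zero.1 h4)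
  have hsurj := LinearMap.surjective_of_injective hinj
  obtain ⟨u, hu⟩ := hsurj ⟨v, hv⟩
  have hu' : (G.e * G.f + ((n : 𝕜) + 1) • (1 : Module.End 𝕜 V)) u.1 = v := congrArg Subtype.val hu
  refine ⟨(G.e ^ (n + 1)) u.1, ⟨pow_stable he _ _ u.2.1, ?_⟩, ?_⟩
  · have := G.epow_mem (n + 1) b b u.1 (by
      have : b + (n + 1) = b + 1 + n := by ring
      rw [this]; exact u.2.2)
    have h5 : b + (n + 1) = b + 1 + n := by ring
    rwa [h5] at this
  · rw [key _ u.2, hu']

/-- The dimension inequality. `N` is `e`-stable, `M ⊇ N` is stable, `M_{(b+n, b+1)} = N + f M_{(b+1+n, b)}`. -/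
theorem Gr.dim_le (G : Gr 𝕜 V) (N M : Submodule 𝕜 V) (hN : ∀ v ∈ N, G.e v ∈ N)
    (he : ∀ v ∈ M, G.e v ∈ M) (hf : ∀ v ∈ M, G.f v ∈ M) (hNM : N ≤ M) (b n : ℕ)
    (hM : ∀ v ∈ M ⊓ G.W (b + n) (b + 1), ∃ z ∈ M ⊓ G.W (b + 1 + n) b, ∃ w ∈ N ⊓ G.W (b + n) (b + 1),
      v = G.f z + w) :
    Module.finrank 𝕜 (M ⊓ G.W (b + n) (b + 1) : Submodule 𝕜 V) +
      Module.finrank 𝕜 (N ⊓ G.W b (b + 1 + n) : Submodule 𝕜 V) ≤
    Module.finrank 𝕜 (M ⊓ G.W (b + 1 + n) b : Submodule 𝕜 V) +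
      Module.finrank 𝕜 (N ⊓ G.W (b + n) (b + 1) : Submodule 𝕜 V) := by
  set A : Submodule 𝕜 V := (M ⊓ G.W (b + 1 + n) b).map G.f with hA
  set B : Submodule 𝕜 V := N ⊓ G.W (b + n) (b + 1) with hB
  have h1 : M ⊓ G.W (b + n) (b + 1) ≤ A ⊔ B := by
    intro v hv
    obtain ⟨z, hz, w, hw, rfl⟩ := hM v hv
    exact Submodule.add_mem_sup (Submodule.mem_map_of_mem hz) hw
  have h2 : Module.finrank 𝕜 (M ⊓ G.W (b + n) (b + 1) : Submodule 𝕜 V) ≤
      Module.finrank 𝕜 (A ⊔ B : Submodule 𝕜 V) := Submodule.finrank_mono h1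
  have h3 := Submodule.finrank_sup_add_finrank_inf_eq A B
  have h4 : Module.finrank 𝕜 A ≤ Module.finrank 𝕜 (M ⊓ G.W (b + 1 + n) b : Submodule 𝕜 V) :=
    Submodule.finrank_map_le _ _
  have h5 : Module.finrank 𝕜 (N ⊓ G.W b (b + 1 + n) : Submodule 𝕜 V) ≤
      Module.finrank 𝕜 (A ⊓ B : Submodule 𝕜 V) := by
    have hmap : ∀ v ∈ N ⊓ G.W b (b + 1 + n), (G.e ^ n) v ∈ A ⊓ B := by
      intro v hv
      refine ⟨?_, pow_stable hN n v hv.1, ?_⟩
      · obtain ⟨z, hz, hz2⟩ := G.epow_mem_f M he hf b n v ⟨hNM hv.1, hv.2⟩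
        rw [← hz2]
        exact Submodule.mem_map_of_mem hz
      · have := G.epow_mem n b (b + 1) v hv.2
        exact this
    apply LinearMap.finrank_le_finrank_of_injective (f := (G.e ^ n).restrict hmap)
    intro v w hvw
    have h1 : (G.e ^ n) (v.1 - w.1) = 0 := by
      have := congrArg Subtype.val hvw
      rw [map_sub, sub_eq_zero]
      exact this
    have h2 : v.1 - w.1 = 0 :=
      G.e_inj b (b + 1 + n) n _ (Submodule.sub_mem _ v.2.2 w.2.2) (by omega) h1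
    exact Subtype.ext (sub_eq_zero.1 h2)
  omega

end Pool.Agent.GaoG
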