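import Pool.Agent.GaoG.Poly
import Pool.Agent.GaoG.Sl2

/-!
# Weight modules over `gl_L`, Demazure closures, characters

`L` = linearly ordered finite set of letters. `E i j` moves the letter `j` to `i`.
-/

set_option autoImplicit false
set_option linter.unusedSectionVars false
set_option linter.unusedSimpArgs false

namespace Pool.Agent.GaoG

open MvPolynomial Finsupp

/-- A finite dimensional weight module over `gl_L` with weights in `ℕ^L`. -/
structure GMod (L : Type*) [LinearOrder L] (𝕜 : Type*) [Field 𝕜] (V : Type*) [AddCommGroup V] [Module 𝕜 V] where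
  E : L → L → Module.End 𝕜 V
  p : (L →₀ ℕ) → Module.End 𝕜 V
  comm : ∀ i j k l v, E i j (E k l v) - E k l (E i j v) =
    (if j = k then E i l v else 0) - (if i = l then E k j v else 0)
  p_p : ∀ μ ν v, p μ (p ν v) = if μ = ν then p ν v else 0
  supp : Finset (L →₀ ℕ)
  p_sum : ∀ v, ∑ μ ∈ supp, p μ v = v
  E_diag : ∀ i μ v, E i i (p μ v) = (μ i : 𝕜) • p μ v
  E_p : ∀ i j, i ≠ j → ∀ μ μ' : L →₀ ℕ, μ' + single j 1 = μ + single i 1 →
    ∀ v, p μ' (E i j (p μ v)) = E i j (p μ v)
  E_z : ∀ i j, i ≠ j → ∀ μ : L →₀ ℕ, μ j = 0 → ∀ v, E i j (p μ v) = 0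

variable {L : Type*} [LinearOrder L] {𝕜 : Type*} [Field 𝕜] [CharZero 𝕜] {V : Type*} [AddCommGroup V] [Module 𝕜 V]

namespace GMod

variable (G : GMod L 𝕜 V)

/-- weight spaces -/
def W (μ : L →₀ ℕ) : Submodule 𝕜 V where
  carrier := {v | G.p μ v = v}
  add_mem' {a b} ha hb := by
    show G.p μ (a + b) = a + b
    rw [map_add, ha, hb]
  zero_mem' := map_zero _
  smul_mem' c x hx := by
    show G.p μ (c • x) = c • x
    rw [map_smul, hx]

lemma mem_W {μ : L →₀ ℕ} {v : V} : v ∈ G.W μ ↔ G.p μ v = v := Iff.rfl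

lemma p_mem_W (μ : L →₀ ℕ) (v : V) : G.p μ v ∈ G.W μ := by
  rw [mem_W, G.p_p, if_pos rfl]

lemma W_eq_bot {μ : L →₀ ℕ} (h : μ ∉ G.supp) : G.W μ = ⊥ := by
  rw [eq_bot_iff]
  intro v hv
  rw [mem_W] at hv
  rw [Submodule.mem_bot, ← G.p_sum v]
  apply Finset.sum_eq_zero
  intro ν hν
  rw [← hv, G.p_p, if_neg]
  rintro rfl
  exact h hν

/-- `p μ E_ij = E_ij p ν` for `μ = ν + ε_i - ε_j` -/
lemma p_E {i j : L} (hij : i ≠ j) {μ ν : L →₀ ℕ} (h : μ + single j 1 = ν + single i 1) (v : V) :
    G.p μ (G.E i j v) = G.E i j (G.p ν v) := by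
  have h0 : ∀ κ, κ ≠ ν → G.p μ (G.E i j (G.p κ v)) = 0 := by
    intro κ hκ
    by_cases hz : κ j = 0
    · rw [G.E_z i j hij κ hz, map_zero]
    · have h1 : (κ - single j 1 + single i 1) + single j 1 = κ + single i 1 := by
        ext x
        simp only [Finsupp.coe_add, Finsupp.coe_tsub, Pi.add_apply, Pi.sub_apply, Finsupp.single_apply]
        by_cases hx : j = x
        · subst hx
          by_cases hix : i = j
          · exact absurd hix hij
          · simp only [if_true, if_neg hix]; omega
        · simp only [if_neg hx]; omega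
      rw [← G.E_p i j hij κ _ h1, G.p_p, if_neg]
      intro h2
      apply hκ
      have h3 : κ + single i 1 = ν + single i 1 := by rw [← h1, ← h2, h]
      exact add_right_cancel h3
  by_cases hν : ν ∈ G.supp
  · calc G.p μ (G.E i j v) = G.p μ (G.E i j (∑ κ ∈ G.supp, G.p κ v)) := by rw [G.p_sum]
      _ = ∑ κ ∈ G.supp, G.p μ (G.E i j (G.p κ v)) := by rw [map_sum, map_sum]
      _ = G.p μ (G.E i j (G.p ν v)) := Finset.sum_eq_single_of_mem ν hν (fun κ _ h => h0 κ h)
      _ = G.E i j (G.p ν v) := G.E_p i j hij ν μ h v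
  · have h1 : G.p ν v = 0 := by
      have := G.p_mem_W ν v
      rw [G.W_eq_bot hν] at this
      simpa using this
    rw [h1, map_zero]
    calc G.p μ (G.E i j v) = G.p μ (G.E i j (∑ κ ∈ G.supp, G.p κ v)) := by rw [G.p_sum]
      _ = ∑ κ ∈ G.supp, G.p μ (G.E i j (G.p κ v)) := by rw [map_sum, map_sum]
      _ = 0 := Finset.sum_eq_zero (fun κ hκ => h0 κ (by rintro rfl; exact hν hκ))

lemma p_E_zero {i j : L} (hij : i ≠ j) {μ : L →₀ ℕ} (h : μ i = 0) (v : V) :
    G.p μ (G.E i j v) = 0 := by
  calc G.p μ (G.E i j v) = G.p μ (G.E i j (∑ κ ∈ G.supp, G.p κ v)) := by rw [G.p_sum]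
    _ = ∑ κ ∈ G.supp, G.p μ (G.E i j (G.p κ v)) := by rw [map_sum, map_sum]
    _ = 0 := by
      apply Finset.sum_eq_zero
      intro κ _
      by_cases hz : κ j = 0
      · rw [G.E_z i j hij κ hz, map_zero]
      · have h1 : (κ - single j 1 + single i 1) + single j 1 = κ + single i 1 := by
          ext x
          simp only [Finsupp.coe_add, Finsupp.coe_tsub, Pi.add_apply, Pi.sub_apply, Finsupp.single_apply]
          by_cases hx : j = x
          · subst hx
            by_cases hix : i = j
            · exact absurd hix hij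
            · simp only [if_true, if_neg hix]; omega
          · simp only [if_neg hx]; omega
        rw [← G.E_p i j hij κ _ h1, G.p_p, if_neg]
        intro h2
        rw [h2] at h
        simp at h

/-- the exponent `μ0 + x ε_i + y ε_j` -/
noncomputable def wxy (μ0 : L →₀ ℕ) (i j : L) (x y : ℕ) : L →₀ ℕ := μ0 + single i x + single j y

/-- the bigraded `sl_2` structure of the pair `i, j`, over the base weight `μ0` -/
noncomputable def gr {i j : L} (hij : i ≠ j) (μ0 : L →₀ ℕ) (hi : μ0 i = 0) (hj : μ0 j = 0) : Gr 𝕜 V where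
  e := G.E i j
  f := G.E j i
  W x y := G.W (wxy μ0 i j x y)
  eW x y v hv := by
    rw [mem_W] at hv ⊢
    rw [← hv]
    apply G.E_p i j hij
    unfold wxy
    rw [Finsupp.single_add i x 1, Finsupp.single_add j y 1]
    abel
  e0 x v hv := by
    rw [mem_W] at hv
    rw [← hv]
    apply G.E_z i j hij
    unfold wxy
    simp [hj, Finsupp.single_apply, hij]
  fW x y v hv := by
    rw [mem_W] at hv ⊢
    rw [← hv]
    apply G.E_p j i hij.symm
    unfold wxy
    rw [Finsupp.single_add i x 1, Finsupp.single_add j y 1]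
    abel
  f0 y v hv := by
    rw [mem_W] at hv
    rw [← hv]
    apply G.E_z j i hij.symm
    unfold wxy
    simp [hi, Finsupp.single_apply, hij.symm]
  comm x y v hv := by
    rw [mem_W] at hv
    rw [G.comm i j j i v, if_pos rfl, if_pos rfl, ← hv, G.E_diag, G.E_diag, ← sub_smul]
    congr 2
    · unfold wxy
      simp [hi, Finsupp.single_apply, hij.symm]
    · unfold wxy
      simp [hj, Finsupp.single_apply, hij]

/-- stability under the Borel subalgebra (`E i j`, `i < j`, and weights) -/
structure BSt (M : Submodule 𝕜 V) : Prop where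
  up : ∀ i j, i < j → ∀ v ∈ M, G.E i j v ∈ M
  hom : ∀ μ, ∀ v ∈ M, G.p μ v ∈ M

lemma BSt.diag {G : GMod L 𝕜 V} {M : Submodule 𝕜 V} (h : G.BSt M) (i : L) : ∀ v ∈ M, G.E i i v ∈ M := by
  intro v hv
  rw [← G.p_sum v, map_sum]
  apply Submodule.sum_mem
  intro μ _
  rw [G.E_diag]
  exact Submodule.smul_mem _ _ (h.hom μ v hv)

/-- Demazure closure: the smallest `E j i`-stable subspace containing `M` -/
def D (i j : L) (M : Submodule 𝕜 V) : Submodule 𝕜 V :=
  sInf {K | M ≤ K ∧ ∀ v ∈ K, G.E j i v ∈ K}

lemma le_D (i j : L) (M : Submodule 𝕜 V) : M ≤ G.D i j M := le_sInf (fun _ hK => hK.1)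

lemma D_stable (i j : L) (M : Submodule 𝕜 V) : ∀ v ∈ G.D i j M, G.E j i v ∈ G.D i j M := by
  intro v hv
  unfold D at hv ⊢
  rw [Submodule.mem_sInf] at hv ⊢
  intro K hK
  exact hK.2 v (hv K hK)

lemma D_le {i j : L} {M K : Submodule 𝕜 V} (h : M ≤ K) (hK : ∀ v ∈ K, G.E j i v ∈ K) : G.D i j M ≤ K :=
  sInf_le ⟨h, hK⟩

lemma D_mono {i j : L} {M K : Submodule 𝕜 V} (h : M ≤ K) : G.D i j M ≤ G.D i j K :=
  G.D_le (h.trans (G.le_D i j K)) (G.D_stable i j K)

lemma D_eq_self {i j : L} {M : Submodule 𝕜 V} (h : ∀ v ∈ M, G.E j i v ∈ M) : G.D i j M = M :=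
  le_antisymm (G.D_le le_rfl h) (G.le_D i j M)

lemma D_D (i j : L) (M : Submodule 𝕜 V) : G.D i j (G.D i j M) = G.D i j M :=
  G.D_eq_self (G.D_stable i j M)

/-- The Demazure closure for adjacent letters is again `B`-stable. -/
lemma BSt.D {G : GMod L 𝕜 V} {M : Submodule 𝕜 V} (h : G.BSt M) {i j : L} (hij : i ⋖ j) : G.BSt (G.D i j M) := by
  have hne : i ≠ j := hij.lt.ne
  -- simultaneous closure
  have key : G.D i j M ≤ G.D i j M ⊓
      { carrier := {v | (∀ k l, k < l → G.E k l v ∈ G.D i j M) ∧ (∀ k, G.E k k v ∈ G.D i j M) ∧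
          ∀ μ, G.p μ v ∈ G.D i j M}
        add_mem' := by
          rintro a b ⟨h1, h2, h3⟩ ⟨k1, k2, k3⟩
          refine ⟨fun k l hkl => ?_, fun k => ?_, fun μ => ?_⟩
          · rw [map_add]; exact Submodule.add_mem _ (h1 k l hkl) (k1 k l hkl)
          · rw [map_add]; exact Submodule.add_mem _ (h2 k) (k2 k)
          · rw [map_add]; exact Submodule.add_mem _ (h3 μ) (k3 μ)
        zero_mem' := by
          refine ⟨fun k l hkl => ?_, fun k => ?_, fun μ => ?_⟩ <;> rw [map_zero] <;>
            exact Submodule.zero_mem _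
        smul_mem' := by
          rintro c a ⟨h1, h2, h3⟩
          refine ⟨fun k l hkl => ?_, fun k => ?_, fun μ => ?_⟩
          · rw [map_smul]; exact Submodule.smul_mem _ _ (h1 k l hkl)
          · rw [map_smul]; exact Submodule.smul_mem _ _ (h2 k)
          · rw [map_smul]; exact Submodule.smul_mem _ _ (h3 μ) } := by
    apply G.D_le
    · intro v hv
      refine ⟨G.le_D i j M hv, fun k l hkl => G.le_D i j M (h.up k l hkl v hv),
        fun k => G.le_D i j M (h.diag k v hv), fun μ => G.le_D i j M (h.hom μ v hv)⟩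
    · rintro v ⟨hv, h1, h2, h3⟩
      refine ⟨G.D_stable i j M v hv, fun k l hkl => ?_, fun k => ?_, fun μ => ?_⟩
      · have hc := G.comm k l j i v
        have e1 : G.E k l (G.E j i v) = G.E j i (G.E k l v) +
            ((if l = j then G.E k i v else 0) - (if k = i then G.E j l v else 0)) := by rw [← hc]; abel
        rw [e1]
        refine Submodule.add_mem _ (G.D_stable i j M _ (h1 k l hkl)) (Submodule.sub_mem _ ?_ ?_)
        · split_ifs with hl
          · subst hl
            have hki : k ≤ i := by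
              by_contra hc
              exact hij.2 (not_le.1 hc) hkl
            rcases hki.lt_or_eq with h4 | h4
            · exact h1 k i h4
            · rw [h4]; exact h2 i
          · exact Submodule.zero_mem _
        · split_ifs with hk
          · subst hk
            have hjl : j ≤ l := by
              by_contra hc
              exact hij.2 hkl (not_le.1 hc)
            rcases hjl.lt_or_eq with h4 | h4
            · exact h1 j l h4
            · rw [← h4]; exact h2 j
          · exact Submodule.zero_mem _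
      · have hc := G.comm k k j i v
        have e1 : G.E k k (G.E j i v) = G.E j i (G.E k k v) +
            ((if k = j then G.E k i v else 0) - (if k = i then G.E j k v else 0)) := by rw [← hc]; abel
        rw [e1]
        refine Submodule.add_mem _ (G.D_stable i j M _ (h2 k)) (Submodule.sub_mem _ ?_ ?_)
        · split_ifs with hl
          · subst hl; exact G.D_stable i k M v hv
          · exact Submodule.zero_mem _
        · split_ifs with hl
          · subst hl; exact G.D_stable k j M v hv
          · exact Submodule.zero_mem _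
      · by_cases hμ : μ j = 0
        · rw [G.p_E_zero hne.symm hμ]; exact Submodule.zero_mem _
        · have h4 : μ + single i 1 = (μ - single j 1 + single i 1) + single j 1 := by
            ext x
            simp only [Finsupp.coe_add, Finsupp.coe_tsub, Pi.add_apply, Pi.sub_apply, Finsupp.single_apply]
            by_cases hx : j = x
            · subst hx
              simp only [if_true, if_neg hne]; omega
            · simp only [if_neg hx]; omega
          rw [G.p_E hne.symm h4]
          exact G.D_stable i j M _ (h3 _)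
  exact ⟨fun k l hkl v hv => (key hv).2.1 k l hkl, fun μ v hv => (key hv).2.2.2 μ⟩

/-- `D M = M + f D M` -/
lemma D_le_sup (i j : L) (M : Submodule 𝕜 V) : G.D i j M ≤ M ⊔ (G.D i j M).map (G.E j i) := by
  apply G.D_le le_sup_left
  intro v hv
  apply Submodule.mem_sup_right
  apply Submodule.mem_map_of_mem
  have : M ⊔ (G.D i j M).map (G.E j i) ≤ G.D i j M := by
    apply sup_le (G.le_D i j M)
    rw [Submodule.map_le_iff_le_comap]
    exact G.D_stable i j M
  exact this hv

/-! ### characters -/

/-- the character -/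
noncomputable def ch (M : Submodule 𝕜 V) : MvPolynomial L ℤ :=
  ∑ μ ∈ G.supp, monomial μ (Module.finrank 𝕜 (M ⊓ G.W μ : Submodule 𝕜 V) : ℤ)

lemma coeff_ch (M : Submodule 𝕜 V) (μ : L →₀ ℕ) :
    coeff μ (G.ch M) = Module.finrank 𝕜 (M ⊓ G.W μ : Submodule 𝕜 V) := by
  unfold ch
  rw [coeff_sum]
  simp only [coeff_monomial]
  by_cases h : μ ∈ G.supp
  · rw [Finset.sum_ite_eq' , if_pos h]
  · rw [Finset.sum_ite_eq', if_neg h, G.W_eq_bot h, inf_bot_eq, finrank_bot]
    rfl

end GMod

end Pool.Agent.GaoG
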