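import Pool.Agent.GaoG.Ext

/-!
# Leading coefficients of subspaces of `Λ → V`
-/

set_option autoImplicit false
set_option linter.unusedSectionVars false
set_option linter.unusedSimpArgs false

namespace Pool.Agent.GaoG

open MvPolynomial Finsupp

section Count

variable {I O : Type*} [LinearOrder O] (r : I → O) {𝕜 : Type*} [Field 𝕜] [CharZero 𝕜] {V : Type*} [AddCommGroup V] [Module 𝕜 V]

/-- leading coefficients at `t` -/
def lead (M : Submodule 𝕜 (I → V)) (t : I) : Submodule 𝕜 V where
  carrier := {v | ∃ m ∈ M, m t = v ∧ ∀ u, r t < r u → m u = 0}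
  add_mem' := by
    rintro v w ⟨m, hm, rfl, h1⟩ ⟨m', hm', rfl, h2⟩
    exact ⟨m + m', M.add_mem hm hm', rfl, fun u hu => by rw [Pi.add_apply, h1 u hu, h2 u hu, add_zero]⟩
  zero_mem' := ⟨0, M.zero_mem, rfl, fun _ _ => rfl⟩
  smul_mem' := by
    rintro c v ⟨m, hm, rfl, h1⟩
    exact ⟨c • m, M.smul_mem c hm, rfl, fun u hu => by rw [Pi.smul_apply, h1 u hu, smul_zero]⟩

lemma mem_lead {M : Submodule 𝕜 (I → V)} {t : I} {v : V} :
    v ∈ lead r M t ↔ ∃ m ∈ M, m t = v ∧ ∀ u, r t < r u → m u = 0 := Iff.rfl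

lemma lead_mono {M M' : Submodule 𝕜 (I → V)} (h : M ≤ M') (t : I) : lead r M t ≤ lead r M' t := by
  rintro v ⟨m, hm, rfl, h1⟩
  exact ⟨m, h hm, rfl, h1⟩

/-- functions supported on `s` -/
def suppOn (𝕜 V : Type*) [Field 𝕜] [AddCommGroup V] [Module 𝕜 V] (s : Finset I) : Submodule 𝕜 (I → V) where
  carrier := {m | ∀ u, u ∉ s → m u = 0}
  add_mem' := by
    intro m m' h1 h2 u hu
    rw [Pi.add_apply, h1 u hu, h2 u hu, add_zero]
  zero_mem' := fun _ _ => rfl
  smul_mem' := by
    intro c m h1 u hu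
    rw [Pi.smul_apply, h1 u hu, smul_zero]

lemma finrank_map_add {V W : Type*} [AddCommGroup V] [Module 𝕜 V] [FiniteDimensional 𝕜 V]
    [AddCommGroup W] [Module 𝕜 W] (S : Submodule 𝕜 V) (f : V →ₗ[𝕜] W) :
    Module.finrank 𝕜 (S.map f) + Module.finrank 𝕜 (S ⊓ LinearMap.ker f : Submodule 𝕜 V) =
      Module.finrank 𝕜 S := by
  have h := LinearMap.finrank_range_add_finrank_ker (f.domRestrict S)
  rw [LinearMap.range_domRestrict] at h
  rw [← h]
  congr 1
  have e : (S ⊓ LinearMap.ker f : Submodule 𝕜 V) = (LinearMap.ker (f.domRestrict S)).map S.subtype := by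
    ext x
    simp only [Submodule.mem_inf, LinearMap.mem_ker, Submodule.mem_map, Submodule.subtype_apply,
      Subtype.exists, exists_and_right, exists_eq_right]
    constructor
    · rintro ⟨h1, h2⟩
      exact ⟨h1, h2⟩
    · rintro ⟨h1, h2⟩
      exact ⟨h1, h2⟩
  rw [e]
  exact Submodule.finrank_map_subtype_eq S _

theorem finrank_lead [Fintype I] [DecidableEq I] [FiniteDimensional 𝕜 V] (hr : Function.Injective r)
    (M : Submodule 𝕜 (I → V)) : Module.finrank 𝕜 M = ∑ t, Module.finrank 𝕜 (lead r M t) := by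
  have key : ∀ s : Finset I, (∀ u ∈ s, ∀ u', r u' < r u → u' ∈ s) →
      Module.finrank 𝕜 (M ⊓ suppOn 𝕜 V s : Submodule 𝕜 (I → V)) = ∑ t ∈ s, Module.finrank 𝕜 (lead r M t) := by
    intro s
    induction s using Finset.induction_on_max_value r with
    | empty =>
      intro _
      have : (M ⊓ suppOn 𝕜 V ∅ : Submodule 𝕜 (I → V)) = ⊥ := by
        rw [eq_bot_iff]
        intro m hm
        rw [Submodule.mem_bot]
        funext u
        exact hm.2 u (Finset.notMem_empty u)
      rw [this, finrank_bot, Finset.sum_empty]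
    | insert a s ha hmax ih =>
      intro hlow
      have ih' := ih (by
        intro u hu u' hu'
        have h1 := hlow u (Finset.mem_insert_of_mem hu) u' hu'
        rcases Finset.mem_insert.1 h1 with h2 | h2
        · exfalso
          rw [h2] at hu'
          exact absurd hu' (not_lt.2 (hmax u hu))
        · exact h2)
      have h1 := finrank_map_add (M ⊓ suppOn 𝕜 V (insert a s)) (LinearMap.proj (R := 𝕜) (φ := fun _ : I => V) a)
      have h2 : (M ⊓ suppOn 𝕜 V (insert a s)) ⊓ LinearMap.ker (LinearMap.proj (R := 𝕜) (φ := fun _ : I => V) a) =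
          M ⊓ suppOn 𝕜 V s := by
        ext m
        constructor
        · rintro ⟨⟨h3, h4⟩, h5⟩
          refine ⟨h3, fun u hu => ?_⟩
          by_cases hua : u = a
          · rw [hua]; exact h5
          · exact h4 u (fun h => (Finset.mem_insert.1 h).elim hua hu)
        · rintro ⟨h3, h4⟩
          refine ⟨⟨h3, fun u hu => h4 u (fun h => hu (Finset.mem_insert_of_mem h))⟩, ?_⟩
          exact h4 a ha
      have h3 : (M ⊓ suppOn 𝕜 V (insert a s)).map (LinearMap.proj (R := 𝕜) (φ := fun _ : I => V) a) =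
          lead r M a := by
        ext v
        constructor
        · rintro ⟨m, ⟨hm, hm2⟩, rfl⟩
          refine ⟨m, hm, rfl, fun u hu => hm2 u (fun h => ?_)⟩
          rcases Finset.mem_insert.1 h with h4 | h4
          · rw [h4] at hu; exact lt_irrefl _ hu
          · exact absurd hu (not_lt.2 (hmax u h4))
        · rintro ⟨m, hm, rfl, hm2⟩
          refine ⟨m, ⟨hm, fun u hu => hm2 u ?_⟩, rfl⟩
          by_contra h4
          rcases (not_lt.1 h4).lt_or_eq with h5 | h5
          · exact hu (hlow a (Finset.mem_insert_self _ _) u h5)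
          · exact hu (by rw [hr h5]; exact Finset.mem_insert_self _ _)
      rw [h2, h3, ih'] at h1
      rw [← h1, Finset.sum_insert ha]
  have := key Finset.univ (fun _ _ _ _ => Finset.mem_univ _)
  have h2 : (M ⊓ suppOn 𝕜 V (Finset.univ : Finset I) : Submodule 𝕜 (I → V)) = M := by
    apply le_antisymm inf_le_left
    intro m hm
    exact ⟨hm, fun u hu => absurd (Finset.mem_univ u) hu⟩
  rw [← this, h2]

end Count

variable {L : Type*} [LinearOrder L] {𝕜 : Type*} [Field 𝕜] [CharZero 𝕜] {V : Type*} [AddCommGroup V] [Module 𝕜 V]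

/-- leading coefficients with respect to the colexicographic order -/
abbrev led (M : Submodule 𝕜 (Finset L → V)) (t : Finset L) : Submodule 𝕜 V := lead (toColex : Finset L → _) M t

/-- `x^t` -/
noncomputable def xs (t : Finset L) : MvPolynomial L ℤ := ∏ k ∈ t, X k

lemma xs_eq (t : Finset L) : xs t = monomial (one t) (1 : ℤ) := by
  unfold xs
  induction t using Finset.induction_on with
  | empty => simp [one]
  | insert a s ha ih =>
    rw [Finset.prod_insert ha, ih]
    unfold one
    rw [Finset.sum_insert ha]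
    simp [X, monomial_mul]

/-- the exchanged subset -/
def st (i j : L) (t : Finset L) : Finset L := t.map (Equiv.swap i j).toEmbedding

lemma mem_st {i j : L} {t : Finset L} {x : L} : x ∈ st i j t ↔ Equiv.swap i j x ∈ t := by
  unfold st
  rw [Finset.mem_map_equiv, Equiv.symm_swap]

lemma st_st (i j : L) (t : Finset L) : st i j (st i j t) = t := by
  ext x
  rw [mem_st, mem_st, Equiv.swap_apply_self]

lemma mem_st_i {i j : L} {t : Finset L} : i ∈ st i j t ↔ j ∈ t := by
  rw [mem_st, Equiv.swap_apply_left]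

lemma mem_st_j {i j : L} {t : Finset L} : j ∈ st i j t ↔ i ∈ t := by
  rw [mem_st, Equiv.swap_apply_right]

lemma st_comm (i j : L) (t : Finset L) : st j i t = st i j t := by
  unfold st
  rw [Equiv.swap_comm]

lemma st_eq {i j : L} (hij : i ≠ j) {t : Finset L} (hi : i ∈ t) (hj : j ∉ t) :
    st i j t = insert j (t.erase i) := by
  ext x
  rw [mem_st, Finset.mem_insert, Finset.mem_erase]
  by_cases hxi : x = i
  · subst hxi
    rw [Equiv.swap_apply_left]
    simp [hj, hij]
  · by_cases hxj : x = j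
    · subst hxj
      rw [Equiv.swap_apply_right]
      simp [hi]
    · rw [Equiv.swap_apply_of_ne_of_ne hxi hxj]
      simp [hxi, hxj]

lemma st_self {i j : L} {t : Finset L} (h : i ∈ t ↔ j ∈ t) : st i j t = t := by
  ext x
  rw [mem_st]
  by_cases hxi : x = i
  · subst hxi
    rw [Equiv.swap_apply_left, h]
  · by_cases hxj : x = j
    · subst hxj
      rw [Equiv.swap_apply_right, h]
    · rw [Equiv.swap_apply_of_ne_of_ne hxi hxj]

lemma sw_xs (i j : L) (t : Finset L) : sw i j (xs t) = xs (st i j t) := by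
  unfold xs st
  rw [map_prod, Finset.prod_map]
  apply Finset.prod_congr rfl
  intro k _
  rw [sw_X]
  rfl

/-- (O2) -/
lemma cov_le {i j : L} (hij : i ⋖ j) {a b : L} (h : Equiv.swap i j a < b) (hb : b ≠ j) (hb' : b ≠ i) : a < b := by
  by_cases hai : a = i
  · subst hai
    rw [Equiv.swap_apply_left] at h
    exact hij.lt.trans h
  · by_cases haj : a = j
    · subst haj
      rw [Equiv.swap_apply_right] at h
      rcases lt_trichotomy a b with h1 | h1 | h1
      · exact h1
      · exact absurd h1.symm hb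
      · exact absurd h1 (hij.2 h)
    · rwa [Equiv.swap_apply_of_ne_of_ne hai haj] at h

lemma lt_of_swap_lt_i {i j : L} (hij : i ⋖ j) {a : L} (h : Equiv.swap i j a < i) : a < i := by
  by_cases hai : a = i
  · subst hai
    rw [Equiv.swap_apply_left] at h
    exact absurd hij.lt (not_lt.2 h.le)
  · by_cases haj : a = j
    · subst haj
      rw [Equiv.swap_apply_right] at h
      exact absurd h (lt_irrefl _)
    · rwa [Equiv.swap_apply_of_ne_of_ne hai haj] at h

lemma st_gt {i j : L} (hij : i < j) {t : Finset L} (hi : i ∈ t) (hj : j ∉ t) :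
    toColex t < toColex (st i j t) := by
  rw [Finset.Colex.toColex_lt_toColex]
  refine ⟨fun h => hj (by rw [h, mem_st_j]; exact hi), fun a ha ha' => ?_⟩
  refine ⟨j, mem_st_j.2 hi, hj, ?_⟩
  rw [mem_st] at ha'
  have : a = i := by
    by_contra hai
    by_cases haj : a = j
    · rw [haj] at ha; exact hj ha
    · rw [Equiv.swap_apply_of_ne_of_ne hai haj] at ha'
      exact ha' ha
  rw [this]; exact hij.le

lemma st_le {i j : L} (hij : i ⋖ j) {t u : Finset L} (hi : i ∈ t) (hj : j ∉ t)
    (h : toColex u ≤ toColex t) : toColex (st i j u) ≤ toColex (st i j t) := by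
  rw [Finset.Colex.toColex_le_toColex] at h ⊢
  intro a ha ha'
  rw [mem_st] at ha ha'
  obtain ⟨b, hb, hb', hab⟩ := h ha ha'
  have hlt : Equiv.swap i j a < b := hab.lt_of_ne (by rintro rfl; exact hb' ha)
  refine ⟨Equiv.swap i j b, ?_, ?_, ?_⟩
  · rw [mem_st, Equiv.swap_apply_self]; exact hb
  · rw [mem_st, Equiv.swap_apply_self]; exact hb'
  · have hbj : b ≠ j := by rintro rfl; exact hj hb
    by_cases hbi : b = i
    · subst hbi
      rw [Equiv.swap_apply_left]
      exact ((lt_of_swap_lt_i hij hlt).trans hij.lt).le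
    · rw [Equiv.swap_apply_of_ne_of_ne hbi hbj]
      exact (cov_le hij hlt hbj hbi).le

lemma st_le' {i j : L} (hij : i ⋖ j) {t u : Finset L} (ht : i ∈ t ↔ j ∈ t)
    (h : toColex u ≤ toColex t) : toColex (st i j u) ≤ toColex t := by
  rw [Finset.Colex.toColex_le_toColex] at h ⊢
  intro a ha ha'
  rw [mem_st] at ha
  have hst : ∀ x, x ∈ t ↔ Equiv.swap i j x ∈ t := by
    intro x
    rw [← mem_st, st_self ht]
  rw [hst] at ha'
  obtain ⟨b, hb, hb', hab⟩ := h ha ha'
  have hlt : Equiv.swap i j a < b := hab.lt_of_ne (by rintro rfl; exact hb' ha)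
  refine ⟨Equiv.swap i j b, (hst b).1 hb, ?_, ?_⟩
  · rw [mem_st, Equiv.swap_apply_self]; exact hb'
  · by_cases hbj : b = j
    · subst hbj
      rw [Equiv.swap_apply_right]
      have hib : i ∈ t := ht.2 hb
      -- swap a < j, swap a ≠ i
      have h1 : Equiv.swap i b a ≠ i := by
        intro h2
        rw [h2] at ha'
        exact ha' hib
      have h3 : Equiv.swap i b a < i := by
        rcases lt_trichotomy (Equiv.swap i b a) i with h4 | h4 | h4
        · exact h4
        · exact absurd h4 h1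
        · exact absurd hlt (hij.2 h4)
      exact (lt_of_swap_lt_i hij h3).le
    · by_cases hbi : b = i
      · subst hbi
        rw [Equiv.swap_apply_left]
        exact ((lt_of_swap_lt_i hij hlt).trans hij.lt).le
      · rw [Equiv.swap_apply_of_ne_of_ne hbi hbj]
        exact (cov_le hij hlt hbj hbi).le

namespace GMod

variable (G : GMod L 𝕜 V)

lemma D_le_of_pow {i j : L} {M K : Submodule 𝕜 V} (h : ∀ v ∈ M, ∀ k : ℕ, ((G.E j i) ^ k) v ∈ K) :
    G.D i j M ≤ K := by
  have h1 : G.D i j M ≤ ⨅ k : ℕ, K.comap ((G.E j i) ^ k) := by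
    apply G.D_le
    · intro v hv
      rw [Submodule.mem_iInf]
      exact fun k => h v hv k
    · intro v hv
      rw [Submodule.mem_iInf] at hv ⊢
      intro k
      have := hv (k + 1)
      rw [Submodule.mem_comap] at this ⊢
      rw [pow_succ, Module.End.mul_apply] at this
      exact this
  intro v hv
  have := h1 hv
  rw [Submodule.mem_iInf] at this
  exact this 0

variable [Fintype L]

/-- leading coefficient spaces for invariant subsets are stable -/
lemma led_stable {M : Submodule 𝕜 (Finset L → V)} {i j : L} (hij : i ⋖ j)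
    (hM : ∀ v ∈ M, G.ext.E j i v ∈ M) {t : Finset L} (ht : i ∈ t ↔ j ∈ t) :
    ∀ v ∈ led M t, G.E j i v ∈ led M t := by
  rintro v ⟨m, hm, rfl, h1⟩
  refine ⟨_, hM m hm, ?_, fun u hu => ?_⟩
  · rw [G.ext_E_apply hij.lt.ne', if_neg (fun h => h.2 (ht.2 h.1)), zero_add]
  · rw [G.ext_E_apply hij.lt.ne', h1 u hu, map_zero, add_zero]
    split_ifs with hc
    · rw [← st_eq hij.lt.ne' hc.1 hc.2, st_comm, h1, smul_zero]
      by_contra h2
      have := st_le' hij ht (not_lt.1 h2)
      rw [st_st] at this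
      exact absurd hu (not_lt.2 this)
    · rfl

lemma led_new {M : Submodule 𝕜 (Finset L → V)} {i j : L} (hij : i ⋖ j)
    (hM : ∀ v ∈ M, G.ext.E j i v ∈ M) {t : Finset L} (hi : i ∈ t) (hj : j ∉ t) :
    ∀ v ∈ led M t, ∀ k : ℕ, ((G.E j i) ^ k) v ∈ led M (st i j t) := by
  rintro v ⟨m, hm, rfl, h1⟩ k
  have hne := hij.lt.ne'
  have hji : j ∈ st i j t := mem_st_j.2 hi
  have hii : i ∉ st i j t := fun h => hj (mem_st_i.1 h)
  have hst : insert i ((st i j t).erase j) = t := by
    rw [← st_eq hne hji hii, st_comm, st_st]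
  -- invariants
  have I2 : ∀ k : ℕ, ∀ u, i ∈ u → j ∉ u → ((G.ext.E j i ^ k) m) u = ((G.E j i) ^ k) (m u) := by
    intro k
    induction k with
    | zero => intro u _ _; simp
    | succ k ih =>
      intro u hu hu'
      rw [pow_succ', Module.End.mul_apply, G.ext_E_apply hne, if_neg (fun h => hu' h.1), zero_add,
        ih u hu hu', pow_succ', Module.End.mul_apply]
  have I1 : ∀ k : ℕ, ∀ u, toColex (st i j t) < toColex u → ((G.ext.E j i ^ k) m) u = 0 := by
    intro k
    induction k with
    | zero => intro u hu; exact h1 u ((st_gt hij.lt hi hj).trans hu)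
    | succ k ih =>
      intro u hu
      rw [pow_succ', Module.End.mul_apply, G.ext_E_apply hne, ih u hu, map_zero, add_zero]
      split_ifs with hc
      · rw [← st_eq hne hc.1 hc.2, st_comm, I2 k _ (mem_st_i.2 hc.1) (fun h => hc.2 (mem_st_j.1 h)),
          h1, map_zero, smul_zero]
        by_contra h2
        have := st_le hij hi hj (not_lt.1 h2)
        rw [st_st] at this
        exact absurd hu (not_lt.2 this)
      · rfl
  have I3 : ∀ k : ℕ, ((G.ext.E j i ^ (k + 1)) m) (st i j t) =
      (((k : 𝕜) + 1) * esg 𝕜 j i (st i j t)) • ((G.E j i) ^ k) (m t) := by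
    intro k
    induction k with
    | zero =>
      rw [zero_add, pow_one, G.ext_E_apply hne, if_pos ⟨hji, hii⟩, hst, h1 _ (st_gt hij.lt hi hj), map_zero,
        add_zero]
      simp
    | succ k ih =>
      rw [pow_succ', Module.End.mul_apply, G.ext_E_apply hne, if_pos ⟨hji, hii⟩, hst, ih, I2 _ t hi hj,
        map_smul, ← Module.End.mul_apply (G.E j i), ← pow_succ', ← add_smul]
      congr 1
      push_cast
      ring
  have h2 : (((k : 𝕜) + 1) * esg 𝕜 j i (st i j t)) • ((G.E j i) ^ k) (m t) ∈ led M (st i j t) := by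
    refine ⟨(G.ext.E j i ^ (k + 1)) m, pow_stable hM (k + 1) m hm, I3 k, I1 (k + 1)⟩
  have h3 : (((k : 𝕜) + 1) * esg 𝕜 j i (st i j t)) ≠ 0 := mul_ne_zero (Nat.cast_add_one_ne_zero k) (esg_ne _ _ _)
  have h4 := (led M (st i j t)).smul_mem (((k : 𝕜) + 1) * esg 𝕜 j i (st i j t))⁻¹ h2
  rwa [smul_smul, inv_mul_cancel₀ h3, one_smul] at h4

variable [FiniteDimensional 𝕜 V]

/-- character of a homogeneous subspace through leading coefficients -/
theorem ch_ext {M : Submodule 𝕜 (Finset L → V)} (hM : ∀ μ, ∀ v ∈ M, G.ext.p μ v ∈ M) :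
    G.ext.ch M = ∑ t, xs t * G.ch (led M t) := by
  classical
  ext ν
  rw [G.ext.coeff_ch, coeff_sum, finrank_lead (toColex : Finset L → _) toColex.injective]
  push_cast
  apply Finset.sum_congr rfl
  intro t _
  rw [xs_eq, coeff_monomial_mul', one_mul, coeff_ch]
  by_cases h : one t ≤ ν
  · rw [if_pos h]
    congr 1
    have : lead (toColex : Finset L → _) (M ⊓ G.ext.W ν) t = led M t ⊓ G.W (ν - one t) := by
      ext v
      constructor
      · rintro ⟨m, ⟨hm, hm2⟩, rfl, h1⟩
        refine ⟨⟨m, hm, rfl, h1⟩, ?_⟩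
        have h3 : G.ext.p ν m t = m t := congrFun hm2 t
        rw [G.ext_p_apply, if_pos h] at h3
        exact h3
      · rintro ⟨⟨m, hm, rfl, h1⟩, hv⟩
        refine ⟨G.ext.p ν m, ⟨hM ν m hm, G.ext.p_mem_W _ _⟩, ?_, fun u hu => ?_⟩
        · rw [G.ext_p_apply, if_pos h]
          exact hv
        · rw [G.ext_p_apply, h1 u hu, map_zero]
          split_ifs <;> rfl
    rw [this]
  · rw [if_neg h]
    have : lead (toColex : Finset L → _) (M ⊓ G.ext.W ν) t = ⊥ := by
      rw [eq_bot_iff]
      rintro v ⟨m, ⟨hm, hm2⟩, rfl, h1⟩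
      have h3 : G.ext.p ν m t = m t := congrFun hm2 t
      rw [G.ext_p_apply, if_neg h] at h3
      exact h3.symm
    rw [this, finrank_bot]
    rfl

end GMod

end Pool.Agent.GaoG
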