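import Mathlib

/-!
# Divided differences and Demazure operators on polynomials

`L` is any type of letters, `dd i j f = (f - s f) / (x_i - x_j)`, `dem i j f = (x_i f - x_j s f) / (x_i - x_j)`
with `s` the exchange of the variables `i`, `j`.
-/

set_option autoImplicit false

namespace Pool.Agent.GaoG

open MvPolynomial

variable {L : Type*} [DecidableEq L]

/-- exchange of two variables -/
noncomputable def sw (i j : L) : MvPolynomial L ℤ →ₐ[ℤ] MvPolynomial L ℤ := rename (Equiv.swap i j)

@[simp] lemma sw_X (i j k : L) : sw i j (X k) = X (Equiv.swap i j k) := rename_X _ _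

@[simp] lemma sw_sw (i j : L) (f : MvPolynomial L ℤ) : sw i j (sw i j f) = f := by
  unfold sw
  rw [rename_rename]
  have : (Equiv.swap i j : L → L) ∘ (Equiv.swap i j) = id := by
    funext x; simp
  rw [this, rename_id_apply]

lemma dvd_sub_sw (i j : L) (f : MvPolynomial L ℤ) : (X i - X j : MvPolynomial L ℤ) ∣ f - sw i j f := by
  induction f using MvPolynomial.induction_on with
  | C a => simp [sw]
  | add f g hf hg =>
    rw [map_add]
    have : f + g - (sw i j f + sw i j g) = (f - sw i j f) + (g - sw i j g) := by ring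
    rw [this]
    exact dvd_add hf hg
  | mul_X f k hf =>
    rw [map_mul, sw_X]
    have h1 : (X i - X j : MvPolynomial L ℤ) ∣ X k - X (Equiv.swap i j k) := by
      by_cases hi : k = i
      · subst hi; rw [Equiv.swap_apply_left]
      · by_cases hj : k = j
        · subst hj; rw [Equiv.swap_apply_right]
          exact ⟨-1, by ring⟩
        · rw [Equiv.swap_apply_of_ne_of_ne hi hj, sub_self]; exact dvd_zero _
    have : f * X k - sw i j f * X (Equiv.swap i j k) =
        (f - sw i j f) * X k + sw i j f * (X k - X (Equiv.swap i j k)) := by ring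
    rw [this]
    exact dvd_add (Dvd.dvd.mul_right hf _) (Dvd.dvd.mul_left h1 _)

/-- divided difference -/
noncomputable def dd (i j : L) (f : MvPolynomial L ℤ) : MvPolynomial L ℤ := (dvd_sub_sw i j f).choose

lemma dd_spec (i j : L) (f : MvPolynomial L ℤ) : f - sw i j f = (X i - X j) * dd i j f :=
  (dvd_sub_sw i j f).choose_spec

lemma X_sub_ne {i j : L} (h : i ≠ j) : (X i - X j : MvPolynomial L ℤ) ≠ 0 := by
  rw [sub_ne_zero]
  intro h2
  exact h (X_injective h2)

lemma dd_eq {i j : L} (h : i ≠ j) {f g : MvPolynomial L ℤ} (hg : f - sw i j f = (X i - X j) * g) :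
    dd i j f = g := by
  have := dd_spec i j f
  rw [hg] at this
  exact (mul_left_cancel₀ (X_sub_ne h) this).symm

/-- isobaric (Demazure) operator -/
noncomputable def dem (i j : L) (f : MvPolynomial L ℤ) : MvPolynomial L ℤ := dd i j (X i * f)

lemma dem_spec (i j : L) (f : MvPolynomial L ℤ) :
    X i * f - X j * sw i j f = (X i - X j) * dem i j f := by
  have := dd_spec i j (X i * f)
  rw [map_mul, sw_X, Equiv.swap_apply_left] at this
  exact this

lemma dem_eq {i j : L} (h : i ≠ j) {f g : MvPolynomial L ℤ}
    (hg : X i * f - X j * sw i j f = (X i - X j) * g) : dem i j f = g := by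
  have := dem_spec i j f
  rw [hg] at this
  exact (mul_left_cancel₀ (X_sub_ne h) this).symm

lemma dem_add {i j : L} (h : i ≠ j) (f g : MvPolynomial L ℤ) : dem i j (f + g) = dem i j f + dem i j g := by
  apply dem_eq h
  rw [map_add, mul_add, mul_add, mul_add, ← dem_spec, ← dem_spec]
  ring

lemma dem_zero {i j : L} (h : i ≠ j) : dem i j (0 : MvPolynomial L ℤ) = 0 := by
  apply dem_eq h
  simp

lemma dem_sum {i j : L} (h : i ≠ j) {ι : Type*} (s : Finset ι) (F : ι → MvPolynomial L ℤ) :
    dem i j (∑ x ∈ s, F x) = ∑ x ∈ s, dem i j (F x) := by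
  classical
  induction s using Finset.induction_on with
  | empty => simp [dem_zero h]
  | insert a s ha ih => rw [Finset.sum_insert ha, Finset.sum_insert ha, dem_add h, ih]

lemma sw_dem {i j : L} (h : i ≠ j) (f : MvPolynomial L ℤ) : sw i j (dem i j f) = dem i j f := by
  have h1 := dem_spec i j f
  have h2 := congrArg (sw i j) h1
  simp only [map_sub, map_mul, sw_X, Equiv.swap_apply_left, Equiv.swap_apply_right, sw_sw] at h2
  have h3 : (X i - X j) * sw i j (dem i j f) = (X i - X j) * dem i j f := by
    rw [← h1]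
    have : (X i - X j : MvPolynomial L ℤ) * sw i j (dem i j f) = -((X j - X i) * sw i j (dem i j f)) := by ring
    rw [this, ← h2]
    ring
  exact mul_left_cancel₀ (X_sub_ne h) h3

/-- symmetric polynomials are fixed -/
lemma dem_of_sw {i j : L} (h : i ≠ j) {f : MvPolynomial L ℤ} (hf : sw i j f = f) : dem i j f = f := by
  apply dem_eq h
  rw [hf]; ring

lemma dem_mul_of_sw {i j : L} (h : i ≠ j) {y : MvPolynomial L ℤ} (hy : sw i j y = y) (f : MvPolynomial L ℤ) :
    dem i j (y * f) = y * dem i j f := by
  apply dem_eq h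
  rw [map_mul, hy]
  have := dem_spec i j f
  linear_combination y * this

lemma dem_X_mul {i j : L} (h : i ≠ j) {y : MvPolynomial L ℤ} (hy : sw i j y = y) (f : MvPolynomial L ℤ) :
    dem i j (X i * y * f) = X i * y * f + X j * y * dem i j f := by
  apply dem_eq h
  rw [map_mul, map_mul, sw_X, Equiv.swap_apply_left, hy]
  have := dem_spec i j f
  linear_combination (X j * y) * this

lemma dem_X_mul' {i j : L} (h : i ≠ j) {y : MvPolynomial L ℤ} (hy : sw i j y = y) {f : MvPolynomial L ℤ}
    (hf : sw i j f = f) : dem i j (X j * y * f) = 0 := by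
  apply dem_eq h
  rw [map_mul, map_mul, sw_X, Equiv.swap_apply_right, hy, hf]
  ring

end Pool.Agent.GaoG
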