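import Pool.Agent.GaoG.Dim

/-!
# Demazure closures along reduced words

`G.Red Z n a Y`: `Y = D … D Z` along a reduced word with `n` letters, `a : L → L` the corresponding
arrangement (`a = κ⁻¹`).
-/

set_option autoImplicit false
set_option linter.unusedSectionVars false
set_option linter.unusedSimpArgs false

namespace Pool.Agent.GaoG

variable {L : Type*} [LinearOrder L] {𝕜 : Type*} [Field 𝕜] [CharZero 𝕜] {V : Type*} [AddCommGroup V] [Module 𝕜 V]

namespace GMod

variable (G : GMod L 𝕜 V)

/-! ### explicit form of two-generator closures -/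

section Braid

variable (f g : Module.End 𝕜 V)

/-- span of `f^a g^b f^d z` -/
def tri (Z : Submodule 𝕜 V) : Submodule 𝕜 V :=
  Submodule.span 𝕜 {v | ∃ (a b d : ℕ) (z : V), z ∈ Z ∧ v = (f ^ a) ((g ^ b) ((f ^ d) z))}

lemma tri_f (Z : Submodule 𝕜 V) : ∀ v ∈ tri f g Z, f v ∈ tri f g Z := by
  intro v hv
  unfold tri at hv ⊢
  induction hv using Submodule.span_induction with
  | mem x hx =>
    obtain ⟨a, b, d, z, hz, rfl⟩ := hx
    apply Submodule.subset_span
    exact ⟨a + 1, b, d, z, hz, by rw [pow_succ' f a, Module.End.mul_apply]⟩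
  | zero => rw [map_zero]; exact Submodule.zero_mem _
  | add x y _ _ hx hy => rw [map_add]; exact Submodule.add_mem _ hx hy
  | smul c x _ hx => rw [map_smul]; exact Submodule.smul_mem _ _ hx

variable {f g}

/-- Heisenberg relations -/
structure Heis (f g z : Module.End 𝕜 V) : Prop where
  fg : g * f = f * g + z
  zf : z * f = f * z
  zg : z * g = g * z

lemma Heis.symm {z : Module.End 𝕜 V} (h : Heis f g z) : Heis g f (-z) where
  fg := by rw [h.fg]; abel
  zf := by rw [neg_mul, mul_neg, h.zg]
  zg := by rw [neg_mul, mul_neg, h.zf]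

lemma Heis.g_fpow {z : Module.End 𝕜 V} (h : Heis f g z) (a : ℕ) :
    g * f ^ (a + 1) = f ^ (a + 1) * g + ((a : 𝕜) + 1) • (f ^ a * z) := by
  induction a with
  | zero => simp [h.fg]
  | succ a ih =>
    rw [pow_succ f (a + 1), ← mul_assoc, ih, add_mul, mul_assoc (f ^ (a + 1)) g f, h.fg, mul_add,
      smul_mul_assoc, mul_assoc (f ^ a) z f, h.zf, ← mul_assoc (f ^ a) f z, ← pow_succ, ← mul_assoc,
      add_assoc]
    congr 1
    push_cast
    module

lemma Heis.gpow_f {z : Module.End 𝕜 V} (h : Heis f g z) (b : ℕ) :
    g ^ (b + 1) * f = f * g ^ (b + 1) + ((b : 𝕜) + 1) • (z * g ^ b) := by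
  have h1 := h.symm.g_fpow b
  rw [mul_neg, smul_neg] at h1
  have h2 : g ^ b * z = z * g ^ b := by
    clear h1
    induction b with
    | zero => simp
    | succ b ih => rw [pow_succ', mul_assoc, ih, ← mul_assoc, ← mul_assoc, h.zg]
  rw [h2] at h1
  rw [h1]; abel

lemma Heis.zfpow {z : Module.End 𝕜 V} (h : Heis f g z) (b : ℕ) : z * f ^ b = f ^ b * z := by
  induction b with
  | zero => simp
  | succ b ih => rw [pow_succ', ← mul_assoc, h.zf, mul_assoc, ih, ← mul_assoc]

lemma tri_g {z : Module.End 𝕜 V} (h : Heis f g z) (Z : Submodule 𝕜 V) :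
    ∀ v ∈ tri f g Z, g v ∈ tri f g Z := by
  intro v hv
  unfold tri at hv ⊢
  induction hv using Submodule.span_induction with
  | mem x hx =>
    obtain ⟨a, b, d, y, hy, rfl⟩ := hx
    rcases a with _ | a
    · apply Submodule.subset_span
      refine ⟨0, b + 1, d, y, hy, ?_⟩
      rw [pow_zero, Module.End.one_apply, Module.End.one_apply, pow_succ' g b, Module.End.mul_apply]
    · have e1 : g * (f ^ (a + 1) * (g ^ b * f ^ d)) = f ^ (a + 1) * (g ^ (b + 1) * f ^ d) +
          (((a : 𝕜) + 1) / (b + 1)) • (f ^ a * (g ^ (b + 1) * f ^ (d + 1)) -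
            f ^ (a + 1) * (g ^ (b + 1) * f ^ d)) := by
        have h1 := h.g_fpow a
        have h2 := h.gpow_f b
        have h3 : z * g ^ b = ((b : 𝕜) + 1)⁻¹ • (g ^ (b + 1) * f - f * g ^ (b + 1)) := by
          rw [h2, add_sub_cancel_left, smul_smul, inv_mul_cancel₀ (Nat.cast_add_one_ne_zero b), one_smul]
        rw [← mul_assoc g, h1, add_mul, mul_assoc (f ^ (a + 1)) g, ← mul_assoc g, ← pow_succ',
          smul_mul_assoc, mul_assoc (f ^ a) z, ← mul_assoc z, h3, smul_mul_assoc, mul_smul_comm, smul_smul,
          sub_mul, mul_sub, mul_assoc (g ^ (b + 1)) f, ← pow_succ' f d, mul_assoc f, ← mul_assoc (f ^ a) f,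
          ← pow_succ f a, div_eq_mul_inv]
      have e2 := congrArg (fun T : Module.End 𝕜 V => T y) e1
      simp only [Module.End.mul_apply, LinearMap.add_apply, LinearMap.smul_apply, LinearMap.sub_apply] at e2
      rw [e2]
      refine Submodule.add_mem _ ?_ (Submodule.smul_mem _ _ (Submodule.sub_mem _ ?_ ?_))
      · exact Submodule.subset_span ⟨a + 1, b + 1, d, y, hy, rfl⟩
      · exact Submodule.subset_span ⟨a, b + 1, d + 1, y, hy, rfl⟩
      · exact Submodule.subset_span ⟨a + 1, b + 1, d, y, hy, rfl⟩
  | zero => rw [map_zero]; exact Submodule.zero_mem _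
  | add x y _ _ hx hy => rw [map_add]; exact Submodule.add_mem _ hx hy
  | smul c x _ hx => rw [map_smul]; exact Submodule.smul_mem _ _ hx

end Braid

lemma D_pow (i j : L) (M : Submodule 𝕜 V) (n : ℕ) : ∀ v ∈ G.D i j M, ((G.E j i) ^ n) v ∈ G.D i j M :=
  pow_stable (G.D_stable i j M) n

lemma heis {i j k : L} (hij : i < j) (hjk : j < k) : Heis (G.E j i) (G.E k j) (G.E k i) where
  fg := by
    ext v
    have := G.comm k j j i v
    rw [if_pos rfl, if_neg (hij.trans hjk).ne', sub_zero] at this
    simp only [Module.End.mul_apply, LinearMap.add_apply]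
    rw [← this]; abel
  zf := by
    ext v
    have := G.comm k i j i v
    rw [if_neg hij.ne, if_neg (hij.trans hjk).ne', sub_zero] at this
    simp only [Module.End.mul_apply]
    exact sub_eq_zero.1 this
  zg := by
    ext v
    have := G.comm k i k j v
    rw [if_neg (hij.trans hjk).ne, if_neg hjk.ne', sub_zero] at this
    simp only [Module.End.mul_apply]
    exact sub_eq_zero.1 this

/-- `D_f D_g D_f Z = tri` -/
lemma DDD_eq {f g : Module.End 𝕜 V} {i j k l : L} (hf : f = G.E j i) (hg : g = G.E l k)
    {z : Module.End 𝕜 V} (h : Heis f g z) (Z : Submodule 𝕜 V) :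
    G.D i j (G.D k l (G.D i j Z)) = tri f g Z := by
  apply le_antisymm
  · apply G.D_le
    · apply G.D_le
      · apply G.D_le
        · intro v hv
          exact Submodule.subset_span ⟨0, 0, 0, v, hv, by simp⟩
        · rw [← hf]; exact tri_f f g Z
      · rw [← hg]; exact tri_g h Z
    · rw [← hf]; exact tri_f f g Z
  · unfold tri
    rw [Submodule.span_le]
    rintro v ⟨a, b, d, y, hy, rfl⟩
    rw [hf, hg]
    apply G.D_pow
    apply G.le_D
    apply G.D_pow
    apply G.le_D
    apply G.D_pow
    exact G.le_D i j Z hy

lemma tri_min {f g : Module.End 𝕜 V} {Z K : Submodule 𝕜 V} (h : Z ≤ K) (hf : ∀ v ∈ K, f v ∈ K)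
    (hg : ∀ v ∈ K, g v ∈ K) : tri f g Z ≤ K := by
  unfold tri
  rw [Submodule.span_le]
  rintro v ⟨a, b, d, y, hy, rfl⟩
  exact pow_stable hf a _ (pow_stable hg b _ (pow_stable hf d _ (h hy)))

lemma le_tri {f g : Module.End 𝕜 V} (Z : Submodule 𝕜 V) : Z ≤ tri f g Z := by
  intro v hv
  exact Submodule.subset_span ⟨0, 0, 0, v, hv, by simp⟩

/-- the braid relation -/
theorem D_braid {i j k : L} (hij : i < j) (hjk : j < k) (Z : Submodule 𝕜 V) :
    G.D i j (G.D j k (G.D i j Z)) = G.D j k (G.D i j (G.D j k Z)) := by
  have h := G.heis hij hjk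
  rw [G.DDD_eq rfl rfl h, G.DDD_eq rfl rfl h.symm]
  apply le_antisymm
  · exact tri_min (le_tri Z) (tri_g h.symm Z) (tri_f _ _ Z)
  · exact tri_min (le_tri Z) (tri_g h Z) (tri_f _ _ Z)

/-- the commutation relation -/
theorem D_comm {i j k l : L} (hjk : j ≠ k) (hil : i ≠ l) (Z : Submodule 𝕜 V) :
    G.D i j (G.D k l Z) = G.D k l (G.D i j Z) := by
  have hc : ∀ v, G.E j i (G.E l k v) = G.E l k (G.E j i v) := by
    intro v
    have := G.comm j i l k v
    rw [if_neg hil, if_neg hjk, sub_zero] at this
    exact sub_eq_zero.1 this
  have key : ∀ (i j k l : L), (∀ v, G.E j i (G.E l k v) = G.E l k (G.E j i v)) →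
      G.D i j (G.D k l Z) ≤ G.D k l (G.D i j Z) := by
    intro i j k l hc
    apply G.D_le
    · exact G.D_mono (G.le_D i j Z)
    · intro v hv
      have h1 : G.D k l (G.D i j Z) ≤ (G.D k l (G.D i j Z)).comap (G.E j i) := by
        apply G.D_le
        · intro w hw
          exact G.le_D k l _ (G.D_stable i j Z w hw)
        · intro w hw
          show G.E j i (G.E l k w) ∈ G.D k l (G.D i j Z)
          rw [hc]
          exact G.D_stable k l _ _ hw
      exact h1 hv
  exact le_antisymm (key i j k l hc) (key k l i j (fun v => (hc v).symm))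

/-! ### reduced words -/

/-- `Y` is obtained from `Z` along a reduced word of length `n`, arrangement `a` -/
inductive Red (Z : Submodule 𝕜 V) : ℕ → (L → L) → Submodule 𝕜 V → Prop
  | refl : Red Z 0 id Z
  | step (n : ℕ) (a : L → L) (Y : Submodule 𝕜 V) (i j : L) (hij : i ⋖ j) (h : Red Z n a Y)
      (ha : a i < a j) : Red Z (n + 1) (a ∘ Equiv.swap i j) (G.D i j Y)

variable {G}

lemma Red.bst {Z : Submodule 𝕜 V} (hZ : G.BSt Z) {n : ℕ} {a : L → L} {Y : Submodule 𝕜 V}
    (h : G.Red Z n a Y) : G.BSt Y := by
  induction h with
  | refl => exact hZ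
  | step n a Y i j hij h ha ih => exact ih.D hij

lemma Red.inj {Z : Submodule 𝕜 V} {n : ℕ} {a : L → L} {Y : Submodule 𝕜 V}
    (h : G.Red Z n a Y) : Function.Injective a := by
  induction h with
  | refl => exact Function.injective_id
  | step n a Y i j hij h ha ih => exact ih.comp (Equiv.injective _)

lemma covBy_right_unique {i j k : L} (h1 : i ⋖ j) (h2 : i ⋖ k) : j = k := by
  rcases lt_trichotomy j k with h | h | h
  · exact absurd h (h2.2 h1.lt)
  · exact h
  · exact absurd h (h1.2 h2.lt)

lemma covBy_left_unique {i j k : L} (h1 : j ⋖ i) (h2 : k ⋖ i) : j = k := by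
  rcases lt_trichotomy j k with h | h | h
  · exact absurd h2.lt (h1.2 h)
  · exact h
  · exact absurd h1.lt (h2.2 h)

/-- exchange property -/
theorem Red.exchange {Z : Submodule 𝕜 V} : ∀ (n : ℕ) (a : L → L) (Y : Submodule 𝕜 V), G.Red Z n a Y →
    ∀ i j : L, i ⋖ j → a j < a i →
    ∃ n' Y', n = n' + 1 ∧ G.Red Z n' (a ∘ Equiv.swap i j) Y' ∧ Y = G.D i j Y' := by
  intro n
  induction n using Nat.strong_induction_on with
  | _ n IH =>
    intro a Y h i j hij hlt
    cases h with
    | refl => exact absurd hlt (not_lt.2 hij.le)
    | step m b Y1 k l hkl hb hbl =>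
      by_cases hik : k = i
      · subst hik
        have hjl := covBy_right_unique hkl hij
        subst hjl
        refine ⟨m, Y1, rfl, ?_, rfl⟩
        have : (b ∘ Equiv.swap k l) ∘ Equiv.swap k l = b := by
          funext x; simp
        rw [this]; exact hb
      · have hjl : j ≠ l := by
          rintro rfl
          exact hik (covBy_left_unique hkl hij)
        by_cases hkj : k = j
        · -- i ⋖ j ⋖ l
          subst hkj
          have hil : i < l := hij.lt.trans hkl.lt
          have e1 : (b ∘ Equiv.swap k l) k = b l := by simp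
          have e2 : (b ∘ Equiv.swap k l) i = b i := by
            simp only [Function.comp]
            rw [Equiv.swap_apply_of_ne_of_ne hij.lt.ne hil.ne]
          rw [e1, e2] at hlt
          obtain ⟨n2, Y2, hn2, hR2, hY2⟩ := IH m (by omega) b Y1 hb i k hij (hbl.trans hlt)
          have e3 : (b ∘ Equiv.swap i k) l = b l := by
            simp only [Function.comp]
            rw [Equiv.swap_apply_of_ne_of_ne hil.ne' hkl.lt.ne']
          have e4 : (b ∘ Equiv.swap i k) k = b i := by simp
          obtain ⟨n3, Y3, hn3, hR3, hY3⟩ := IH n2 (by omega) _ Y2 hR2 k l hkl (by rw [e3, e4]; exact hlt)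
          -- b'' = b ∘ s_ik ∘ s_kl : i ↦ b k, k ↦ b l, l ↦ b i
          set b'' := (b ∘ Equiv.swap i k) ∘ Equiv.swap k l with hb''
          have f1 : b'' i = b k := by
            simp only [hb'', Function.comp]
            rw [Equiv.swap_apply_of_ne_of_ne hij.lt.ne hil.ne, Equiv.swap_apply_left]
          have f2 : b'' k = b l := by
            simp only [hb'', Function.comp]
            rw [Equiv.swap_apply_left, Equiv.swap_apply_of_ne_of_ne hil.ne' hkl.lt.ne']
          have f3 : b'' l = b i := by
            simp only [hb'', Function.comp]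
            rw [Equiv.swap_apply_right, Equiv.swap_apply_right]
          have R4 := Red.step n3 b'' Y3 i k hij hR3 (by rw [f1, f2]; exact hbl)
          have R5 := Red.step (n3 + 1) _ _ k l hkl R4 (by
            have g1 : (b'' ∘ Equiv.swap i k) k = b k := by
              simp only [Function.comp]; rw [Equiv.swap_apply_right, f1]
            have g2 : (b'' ∘ Equiv.swap i k) l = b i := by
              simp only [Function.comp]
              rw [Equiv.swap_apply_of_ne_of_ne hil.ne' hkl.lt.ne', f3]
            rw [g1, g2]; exact hbl.trans hlt)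
          refine ⟨n3 + 1 + 1, G.D k l (G.D i k Y3), by omega, ?_, ?_⟩
          · have : (b ∘ Equiv.swap k l) ∘ Equiv.swap i k = (b'' ∘ Equiv.swap i k) ∘ Equiv.swap k l := by
              have hs : Equiv.swap k l * Equiv.swap i k =
                  Equiv.swap i k * Equiv.swap k l * Equiv.swap i k * Equiv.swap k l := by
                ext x
                simp only [Equiv.Perm.mul_apply]
                by_cases hxi : x = i
                · subst hxi
                  rw [Equiv.swap_apply_left, Equiv.swap_apply_left,
                    Equiv.swap_apply_of_ne_of_ne hij.lt.ne hil.ne, Equiv.swap_apply_left,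
                    Equiv.swap_apply_left, Equiv.swap_apply_of_ne_of_ne hil.ne' hkl.lt.ne']
                · by_cases hxk : x = k
                  · subst hxk
                    rw [Equiv.swap_apply_right, Equiv.swap_apply_of_ne_of_ne hij.lt.ne hil.ne,
                      Equiv.swap_apply_left, Equiv.swap_apply_of_ne_of_ne hil.ne' hkl.lt.ne',
                      Equiv.swap_apply_right, Equiv.swap_apply_right]
                  · by_cases hxl : x = l
                    · subst hxl
                      rw [Equiv.swap_apply_of_ne_of_ne hil.ne' hkl.lt.ne', Equiv.swap_apply_right,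
                        Equiv.swap_apply_right, Equiv.swap_apply_of_ne_of_ne hij.lt.ne hil.ne,
                        Equiv.swap_apply_left]
                    · rw [Equiv.swap_apply_of_ne_of_ne hxi hxk, Equiv.swap_apply_of_ne_of_ne hxk hxl,
                        Equiv.swap_apply_of_ne_of_ne hxi hxk, Equiv.swap_apply_of_ne_of_ne hxk hxl,
                        Equiv.swap_apply_of_ne_of_ne hxi hxk]
              funext x
              have := congrArg (fun s : Equiv.Perm L => b (s x)) hs
              simpa [hb'', Function.comp] using this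
            rw [this]; exact R5
          · rw [hY2, hY3, G.D_braid hij.lt hkl.lt]
        · by_cases hli : l = i
          · -- k ⋖ i ⋖ j
            subst hli
            have hkj' : k < j := hkl.lt.trans hij.lt
            have e1 : (b ∘ Equiv.swap k l) l = b k := by simp
            have e2 : (b ∘ Equiv.swap k l) j = b j := by
              simp only [Function.comp]
              rw [Equiv.swap_apply_of_ne_of_ne hkj'.ne' hij.lt.ne']
            rw [e1, e2] at hlt
            obtain ⟨n2, Y2, hn2, hR2, hY2⟩ := IH m (by omega) b Y1 hb l j hij (hlt.trans hbl)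
            have e3 : (b ∘ Equiv.swap l j) k = b k := by
              simp only [Function.comp]
              rw [Equiv.swap_apply_of_ne_of_ne hkl.lt.ne hkj'.ne]
            have e4 : (b ∘ Equiv.swap l j) l = b j := by simp
            obtain ⟨n3, Y3, hn3, hR3, hY3⟩ := IH n2 (by omega) _ Y2 hR2 k l hkl (by rw [e3, e4]; exact hlt)
            set b'' := (b ∘ Equiv.swap l j) ∘ Equiv.swap k l with hb''
            -- k ↦ b j, l ↦ b k, j ↦ b l
            have f1 : b'' k = b j := by
              simp only [hb'', Function.comp]
              rw [Equiv.swap_apply_left, Equiv.swap_apply_left]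
            have f2 : b'' l = b k := by
              simp only [hb'', Function.comp]
              rw [Equiv.swap_apply_right, Equiv.swap_apply_of_ne_of_ne hkl.lt.ne hkj'.ne]
            have f3 : b'' j = b l := by
              simp only [hb'', Function.comp]
              rw [Equiv.swap_apply_of_ne_of_ne hkj'.ne' hij.lt.ne', Equiv.swap_apply_right]
            have R4 := Red.step n3 b'' Y3 l j hij hR3 (by rw [f2, f3]; exact hbl)
            have R5 := Red.step (n3 + 1) _ _ k l hkl R4 (by
              have g1 : (b'' ∘ Equiv.swap l j) k = b j := by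
                simp only [Function.comp]
                rw [Equiv.swap_apply_of_ne_of_ne hkl.lt.ne hkj'.ne, f1]
              have g2 : (b'' ∘ Equiv.swap l j) l = b l := by
                simp only [Function.comp]; rw [Equiv.swap_apply_left, f3]
              rw [g1, g2]; exact hlt.trans hbl)
            refine ⟨n3 + 1 + 1, G.D k l (G.D l j Y3), by omega, ?_, ?_⟩
            · have : (b ∘ Equiv.swap k l) ∘ Equiv.swap l j = (b'' ∘ Equiv.swap l j) ∘ Equiv.swap k l := by
                have hs : Equiv.swap k l * Equiv.swap l j =
                    Equiv.swap l j * Equiv.swap k l * Equiv.swap l j * Equiv.swap k l := by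
                  ext x
                  simp only [Equiv.Perm.mul_apply]
                  by_cases hxi : x = j
                  · subst hxi
                    rw [Equiv.swap_apply_right, Equiv.swap_apply_right,
                      Equiv.swap_apply_of_ne_of_ne hkj'.ne' hij.lt.ne', Equiv.swap_apply_right,
                      Equiv.swap_apply_right, Equiv.swap_apply_of_ne_of_ne hkl.lt.ne hkj'.ne]
                  · by_cases hxk : x = l
                    · subst hxk
                      rw [Equiv.swap_apply_left, Equiv.swap_apply_of_ne_of_ne hkj'.ne' hij.lt.ne',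
                        Equiv.swap_apply_right, Equiv.swap_apply_of_ne_of_ne hkl.lt.ne hkj'.ne,
                        Equiv.swap_apply_left, Equiv.swap_apply_left]
                    · by_cases hxl : x = k
                      · subst hxl
                        rw [Equiv.swap_apply_of_ne_of_ne hkl.lt.ne hkj'.ne, Equiv.swap_apply_left,
                          Equiv.swap_apply_left, Equiv.swap_apply_of_ne_of_ne hkj'.ne' hij.lt.ne',
                          Equiv.swap_apply_right]
                      · rw [Equiv.swap_apply_of_ne_of_ne hxk hxi, Equiv.swap_apply_of_ne_of_ne hxl hxk,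
                          Equiv.swap_apply_of_ne_of_ne hxk hxi, Equiv.swap_apply_of_ne_of_ne hxl hxk,
                          Equiv.swap_apply_of_ne_of_ne hxk hxi]
                funext x
                have := congrArg (fun s : Equiv.Perm L => b (s x)) hs
                simpa [hb'', Function.comp] using this
              rw [this]; exact R5
            · rw [hY2, hY3, ← G.D_braid hkl.lt hij.lt]
          · -- disjoint
            have e1 : (b ∘ Equiv.swap k l) i = b i := by
              simp only [Function.comp]
              rw [Equiv.swap_apply_of_ne_of_ne (Ne.symm hik) (Ne.symm hli)]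
            have e2 : (b ∘ Equiv.swap k l) j = b j := by
              simp only [Function.comp]
              rw [Equiv.swap_apply_of_ne_of_ne (Ne.symm hkj) hjl]
            rw [e1, e2] at hlt
            obtain ⟨n2, Y2, hn2, hR2, hY2⟩ := IH m (by omega) b Y1 hb i j hij hlt
            have R3 := Red.step n2 _ Y2 k l hkl hR2 (by
              simp only [Function.comp]
              rw [Equiv.swap_apply_of_ne_of_ne hik hkj, Equiv.swap_apply_of_ne_of_ne hli (Ne.symm hjl)]
              exact hbl)
            refine ⟨n2 + 1, G.D k l Y2, by omega, ?_, ?_⟩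
            · have : (b ∘ Equiv.swap k l) ∘ Equiv.swap i j = (b ∘ Equiv.swap i j) ∘ Equiv.swap k l := by
                have hs : Equiv.swap k l * Equiv.swap i j = Equiv.swap i j * Equiv.swap k l := by
                  apply Equiv.Perm.Disjoint.commute
                  intro x
                  by_cases hxk : x = k
                  · subst hxk; right; rw [Equiv.swap_apply_of_ne_of_ne hik hkj]
                  · by_cases hxl : x = l
                    · subst hxl; right; rw [Equiv.swap_apply_of_ne_of_ne hli (Ne.symm hjl)]
                    · left; rw [Equiv.swap_apply_of_ne_of_ne hxk hxl]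
                funext x
                have := congrArg (fun s : Equiv.Perm L => b (s x)) hs
                simpa [Function.comp] using this
              rw [this]; exact R3
            · rw [hY2, G.D_comm hli hkj]

/-- descents: `Y` is stable -/
lemma Red.stable {Z : Submodule 𝕜 V} {n : ℕ} {a : L → L} {Y : Submodule 𝕜 V} (h : G.Red Z n a Y)
    {i j : L} (hij : i ⋖ j) (hlt : a j < a i) : ∀ v ∈ Y, G.E j i v ∈ Y := by
  obtain ⟨n', Y', _, _, hY⟩ := Red.exchange n a Y h i j hij hlt
  rw [hY]
  exact G.D_stable i j Y'

/-- uniqueness -/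
theorem Red.unique {Z : Submodule 𝕜 V} : ∀ (n : ℕ) (a : L → L) (Y : Submodule 𝕜 V), G.Red Z n a Y →
    ∀ (m : ℕ) (Y' : Submodule 𝕜 V), G.Red Z m a Y' → n = m ∧ Y = Y' := by
  intro n a Y h
  induction h with
  | refl =>
    intro m Y' h'
    generalize ha : (id : L → L) = a at h'
    cases h' with
    | refl => exact ⟨rfl, rfl⟩
    | step m b Y1 k l hkl hb hbl =>
      exfalso
      have h1 := congrFun ha k
      have h2 := congrFun ha l
      simp only [id, Function.comp, Equiv.swap_apply_left, Equiv.swap_apply_right] at h1 h2
      rw [← h1, ← h2] at hbl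
      exact absurd hbl (not_lt.2 hkl.le)
  | step n a Y i j hij h ha ih =>
    intro m Y' h'
    obtain ⟨m', Y'', hm, hR, hY⟩ := Red.exchange m _ Y' h' i j hij (by simpa using ha)
    have e : (a ∘ Equiv.swap i j) ∘ Equiv.swap i j = a := by funext x; simp
    rw [e] at hR
    obtain ⟨h1, h2⟩ := ih m' Y'' hR
    exact ⟨by omega, by rw [hY, h2]⟩

end GMod

end Pool.Agent.GaoG
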